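import Mathlib

/-!
# Smooth right inverses of families of surjective linear maps
-/

set_option autoImplicit false

open scoped ContDiff Manifold
open Set Filter Topology Function Metric

namespace Pool.Agent.H822.SM

theorem exists_rinv {N A M : Type} [NormedAddCommGroup N] [NormedSpace ℝ N]
    [FiniteDimensional ℝ N] [NormedAddCommGroup A] [NormedSpace ℝ A] [FiniteDimensional ℝ A]
    [NormedAddCommGroup M] [NormedSpace ℝ M] [FiniteDimensional ℝ M]
    {D : N → (M →L[ℝ] A)} (hD : ContDiff ℝ ∞ D) (hs : ∀ x, Surjective (D x)) :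
    ∃ S : N → (A →L[ℝ] M), ContDiff ℝ ∞ S ∧ ∀ x a, D x (S x a) = a := by
  have hproper : ProperSpace N := FiniteDimensional.proper_real N
  have hcomplete : CompleteSpace A := FiniteDimensional.complete ℝ A
  let t : N → Set (A →L[ℝ] M) := fun x => {T | ∀ a, D x (T a) = a}
  have ht : ∀ x, Convex ℝ (t x) := by
    intro x T hT T' hT' a b ha hb hab c
    simp only [_root_.add_apply, _root_.smul_apply, map_add, map_smul]
    rw [hT c, hT' c, ← add_smul, hab, one_smul]
  have hloc : ∀ x : N, ∃ U ∈ 𝓝 x, ∃ g : N → (A →L[ℝ] M),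
      ContMDiffOn 𝓘(ℝ, N) 𝓘(ℝ, A →L[ℝ] M) ∞ g U ∧ ∀ y ∈ U, g y ∈ t y := by
    intro x
    obtain ⟨T₀, hT₀⟩ := (D x : M →ₗ[ℝ] A).exists_rightInverse_of_surjective
      (LinearMap.range_eq_top.2 (hs x))
    let T : A →L[ℝ] M := LinearMap.toContinuousLinearMap T₀
    have hT : (D x).comp T = 1 := by
      ext a
      exact congrArg (fun f : A →ₗ[ℝ] A => f a) hT₀
    let c : N → (A →L[ℝ] A) := fun y => (D y).comp T
    have hc : ContDiff ℝ ∞ c := hD.clm_comp contDiff_const
    have hx : IsUnit (c x) := by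
      show IsUnit ((D x).comp T)
      rw [hT]
      exact isUnit_one
    have hopen : IsOpen {y | IsUnit (c y)} := Units.isOpen.preimage hc.continuous
    refine ⟨{y | IsUnit (c y)}, hopen.mem_nhds hx, fun y => T.comp (Ring.inverse (c y)), ?_,
      fun y hy a => ?_⟩
    · rw [contMDiffOn_iff_contDiffOn]
      intro y hy
      obtain ⟨u, hu⟩ := (show IsUnit (c y) from hy)
      have h1 : ContDiffAt ℝ ∞ (fun y => Ring.inverse (c y)) y := by
        have h2 : ContDiffAt ℝ ∞ Ring.inverse (c y) := by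
          rw [← hu]
          exact contDiffAt_ringInverse ℝ u
        exact h2.comp y hc.contDiffAt
      exact (contDiffAt_const.clm_comp h1).contDiffWithinAt
    · have h1 : c y * Ring.inverse (c y) = 1 := Ring.mul_inverse_cancel _ hy
      exact congrArg (fun f : A →L[ℝ] A => f a) h1
  obtain ⟨S, hS⟩ := exists_contMDiffMap_forall_mem_convex_of_local 𝓘(ℝ, N) ht hloc
  exact ⟨S, S.contMDiff.contDiff, hS⟩

end Pool.Agent.H822.SM
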