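import Mathlib
import Pool.Agent.H822.BK.Had

/-!
# Compactly supported families of diffeomorphisms
-/

set_option autoImplicit false

open scoped ContDiff
open Set Filter Topology Function Metric

namespace Pool.Agent.H822.SM

section

variable {M : Type} [NormedAddCommGroup M] [NormedSpace ℝ M] [FiniteDimensional ℝ M]
  {P : Type} [NormedAddCommGroup P] [NormedSpace ℝ P] [FiniteDimensional ℝ P]

/-- A smooth family of diffeomorphisms with compact support. -/
structure DFam (φ : P → M → M) : Prop where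
  smooth : ContDiff ℝ ∞ (fun q : P × M => φ q.1 q.2)
  inj : ∀ p z v, fderiv ℝ (φ p) z v = 0 → v = 0
  supp : ∃ K : Set (P × M), IsCompact K ∧ ∀ p z, (p, z) ∉ K → φ p z = z

/-- homotopy of compactly supported families -/
def DHtp (φ φ' : P → M → M) : Prop :=
  ∃ (Φ : ℝ × P → M → M) (K : Set (P × M)), IsCompact K ∧
    ContDiff ℝ ∞ (fun q : (ℝ × P) × M => Φ q.1 q.2) ∧
    (∀ q z v, fderiv ℝ (Φ q) z v = 0 → v = 0) ∧
    (∀ s p z, (p, z) ∉ K → Φ (s, p) z = z) ∧ (∀ p, Φ (0, p) = φ p) ∧ ∀ p, Φ (1, p) = φ' p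

omit [FiniteDimensional ℝ M] [FiniteDimensional ℝ P] in
theorem DFam.slice {φ : P → M → M} (h : DFam φ) (p : P) : ContDiff ℝ ∞ (φ p) :=
  h.smooth.comp (contDiff_const.prodMk contDiff_id)

omit [FiniteDimensional ℝ P] in
theorem DFam.bij {φ : P → M → M} (h : DFam φ) (p : P) : Bijective (φ p) := by
  obtain ⟨K, hK, hoff⟩ := h.supp
  refine BK.bij_of_local (h.slice p) (h.inj p) (hK.image continuous_snd) fun z hz => hoff p z ?_
  exact fun h1 => hz ⟨(p, z), h1, rfl⟩

omit [FiniteDimensional ℝ M] in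
/-- the derivative of a right inverse is injective -/
theorem inj_of_right {f g : M → M} (hf : ContDiff ℝ ∞ f) (hg : ContDiff ℝ ∞ g)
    (h : ∀ z, f (g z) = z) (z v : M) (hv : fderiv ℝ g z v = 0) : v = 0 := by
  have h3 : (fun y => f (g y)) = id := funext h
  have h4 : fderiv ℝ (fun y => f (g y)) z = (fderiv ℝ f (g z)).comp (fderiv ℝ g z) :=
    fderiv_comp z (hf.differentiable (by simp) _) (hg.differentiable (by simp) z)
  rw [h3, fderiv_id] at h4
  have h5 := congrArg (fun A : M →L[ℝ] M => A v) h4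
  simp only [ContinuousLinearMap.comp_apply, hv, map_zero] at h5
  exact h5

omit [FiniteDimensional ℝ M] in
theorem inj_comp {f g : M → M} (hf : ContDiff ℝ ∞ f) (hg : ContDiff ℝ ∞ g)
    (h1 : ∀ z v, fderiv ℝ f z v = 0 → v = 0) (h2 : ∀ z v, fderiv ℝ g z v = 0 → v = 0)
    (z v : M) (hv : fderiv ℝ (fun y => f (g y)) z v = 0) : v = 0 := by
  have h4 : fderiv ℝ (fun y => f (g y)) z = (fderiv ℝ f (g z)).comp (fderiv ℝ g z) :=
    fderiv_comp z (hf.differentiable (by simp) _) (hg.differentiable (by simp) z)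
  rw [h4] at hv
  exact h2 z v (h1 _ _ hv)

theorem DFam.exists_inv {φ : P → M → M} (h : DFam φ) : ∃ ψ : P → M → M, DFam ψ ∧
    (∀ p z, ψ p (φ p z) = z) ∧ ∀ p z, φ p (ψ p z) = z := by
  obtain ⟨ψ, hψ, h1, h2⟩ := BK.inv_fam h.smooth h.inj h.bij
  obtain ⟨K, hK, hoff⟩ := h.supp
  refine ⟨ψ, ⟨hψ, fun p z v hv => inj_of_right (h.slice p)
    (hψ.comp (contDiff_const.prodMk contDiff_id)) (h2 p) z v hv, K, hK, fun p z hz => ?_⟩, h1, h2⟩
  have h3 := h1 p z
  rwa [hoff p z hz] at h3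

omit [FiniteDimensional ℝ M] [FiniteDimensional ℝ P] in
theorem DFam.comp {φ φ' : P → M → M} (h : DFam φ) (h' : DFam φ') :
    DFam fun p z => φ p (φ' p z) := by
  obtain ⟨K, hK, hoff⟩ := h.supp
  obtain ⟨K', hK', hoff'⟩ := h'.supp
  refine ⟨h.smooth.comp (contDiff_fst.prodMk h'.smooth), fun p z v hv =>
    inj_comp (h.slice p) (h'.slice p) (h.inj p) (h'.inj p) z v hv, K ∪ K', hK.union hK',
    fun p z hz => ?_⟩
  rw [mem_union, not_or] at hz
  show φ p (φ' p z) = z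
  rw [hoff' p z hz.2, hoff p z hz.1]

omit [FiniteDimensional ℝ M] [FiniteDimensional ℝ P] in
theorem DFam.id : DFam fun (_ : P) (z : M) => z := by
  refine ⟨contDiff_snd, fun p z v hv => ?_, ∅, isCompact_empty, fun _ _ _ => rfl⟩
  rw [fderiv_fun_id] at hv
  exact hv

omit [FiniteDimensional ℝ M] [FiniteDimensional ℝ P] in
/-- the slices of a homotopy -/
theorem dfam_of_htp {Φ : ℝ × P → M → M} {K : Set (P × M)} (hK : IsCompact K)
    (h1 : ContDiff ℝ ∞ (fun q : (ℝ × P) × M => Φ q.1 q.2))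
    (h2 : ∀ q z v, fderiv ℝ (Φ q) z v = 0 → v = 0)
    (h3 : ∀ s p z, (p, z) ∉ K → Φ (s, p) z = z) (s : ℝ) : DFam fun p => Φ (s, p) :=
  ⟨h1.comp ((contDiff_const.prodMk contDiff_fst).prodMk contDiff_snd), fun p => h2 (s, p), K, hK,
    h3 s⟩

end

end Pool.Agent.H822.SM
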