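import Mathlib
import Pool.Graph.R_seed8.W585.Param
import Pool.Agent.H822.BK.Had

/-!
# Smooth logarithms of families of nonvanishing functions on the plane
-/

set_option autoImplicit false

open scoped ContDiff
open Set Filter Topology Function Metric

namespace Pool.Agent.H822.SM

theorem isPreconnected_off (R : ℝ) : IsPreconnected {z : ℂ | R < ‖z‖} := by
  have h1 : {z : ℂ | R < ‖z‖} =
      (fun q : ℝ × ℝ => (q.1 : ℂ) * Complex.exp (q.2 * Complex.I)) '' (Ioi R ×ˢ univ) := by
    ext z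
    constructor
    · intro hz
      exact ⟨(‖z‖, Complex.arg z), ⟨hz, mem_univ _⟩, Complex.norm_mul_exp_arg_mul_I z⟩
    · rintro ⟨q, ⟨hq, -⟩, rfl⟩
      show R < ‖(q.1 : ℂ) * Complex.exp (q.2 * Complex.I)‖
      rw [norm_mul, Complex.norm_exp_ofReal_mul_I, mul_one, Complex.norm_real, Real.norm_eq_abs]
      exact lt_of_lt_of_le hq (le_abs_self _)
  rw [h1]
  refine ((isPreconnected_Ioi).prod isPreconnected_univ).image _ (Continuous.continuousOn ?_)
  fun_prop

section

variable {P : Type} [NormedAddCommGroup P] [NormedSpace ℝ P] [FiniteDimensional ℝ P]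

theorem exists_log {f : P → ℂ → ℂ} (hf : ContDiff ℝ ∞ (fun q : P × ℂ => f q.1 q.2))
    (hne : ∀ p z, f p z ≠ 0) {R : ℝ} (hR : 0 < R) (hoff : ∀ p z, R < ‖z‖ → f p z = 1)
    {Q : Set P} (hQ : ∀ p, p ∉ Q → ∀ z, f p z = 1) :
    ∃ F : P → ℂ → ℂ, ContDiff ℝ ∞ (fun q : P × ℂ => F q.1 q.2) ∧
      (∀ p z, Complex.exp (F p z) = f p z) ∧
      (∀ p z, R < ‖z‖ → F p z = 0) ∧ ∀ p, p ∉ Q → ∀ z, F p z = 0 := by
  have hfp : ∀ p, ContDiff ℝ ∞ (f p) := fun p => hf.comp (contDiff_const.prodMk contDiff_id)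
  let h : P → ℂ → ℂ := fun p z => fderiv ℝ (fun q : P × ℂ => f q.1 q.2) (p, z) (0, 1) * (f p z)⁻¹
  have hh : ContDiff ℝ ∞ (fun q : P × ℂ => h q.1 q.2) := by
    refine ContDiff.mul ?_ (hf.inv fun q => hne _ _)
    exact (hf.fderiv_right (m := ∞) (by simp)).clm_apply contDiff_const
  have hhe : ∀ p z, h p z = fderiv ℝ (f p) z 1 * (f p z)⁻¹ := fun p z => by
    rw [BK.fderiv_slice hf]
  let F : P → ℂ → ℂ := fun p z => ∫ t in (0 : ℝ)..1,
    ((z.re + R + 1 : ℝ) : ℂ) * h p (z - ((z.re + R + 1 : ℝ) : ℂ) + ((z.re + R + 1 : ℝ) : ℂ) * t)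
  have hF : ContDiff ℝ ∞ (fun q : P × ℂ => F q.1 q.2) := by
    have hc : ContDiff ℝ ∞ (fun x : ℝ => (x : ℂ)) := Complex.ofRealCLM.contDiff
    have hre : ContDiff ℝ ∞ (fun z : ℂ => z.re) := Complex.reCLM.contDiff
    have ha : ContDiff ℝ ∞ (fun q : (P × ℂ) × ℝ => ((q.1.2.re + R + 1 : ℝ) : ℂ)) :=
      hc.comp (((hre.comp (contDiff_snd.comp contDiff_fst)).add contDiff_const).add contDiff_const)
    refine W585.contDiff_param (E := P × ℂ) (F := fun q t => ((q.2.re + R + 1 : ℝ) : ℂ) *
      h q.1 (q.2 - ((q.2.re + R + 1 : ℝ) : ℂ) + ((q.2.re + R + 1 : ℝ) : ℂ) * t)) ?_ 0 1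
    have h1 : ContDiff ℝ ∞ (fun q : (P × ℂ) × ℝ => q.1.2 - ((q.1.2.re + R + 1 : ℝ) : ℂ) +
        ((q.1.2.re + R + 1 : ℝ) : ℂ) * (q.2 : ℂ)) :=
      ((contDiff_snd.comp contDiff_fst).sub ha).add (ha.mul (hc.comp contDiff_snd))
    have h2 : ContDiff ℝ ∞ (fun q : (P × ℂ) × ℝ => ((q.1.1, q.1.2 - ((q.1.2.re + R + 1 : ℝ) : ℂ) +
        ((q.1.2.re + R + 1 : ℝ) : ℂ) * (q.2 : ℂ)) : P × ℂ)) :=
      (contDiff_fst.comp contDiff_fst).prodMk h1
    exact ha.mul (hh.comp h2)
  have hFp : ∀ p, ContDiff ℝ ∞ (F p) := fun p => hF.comp (contDiff_const.prodMk contDiff_id)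
  have hhp : ∀ p, ContDiff ℝ ∞ (h p) := fun p => hh.comp (contDiff_const.prodMk contDiff_id)
  have hFd : ∀ p z (s : ℝ), HasDerivAt (fun s : ℝ => F p (z + s)) (h p (z + s)) s := by
    intro p z s
    set G : ℝ → ℂ := fun u => h p (z - ((z.re + R + 1 : ℝ) : ℂ) + u) with hG
    have hGc : Continuous G := (hhp p).continuous.comp (by fun_prop)
    have h1 : (fun s : ℝ => F p (z + s)) = fun s => ∫ u in (0 : ℝ)..(z.re + R + 1 + s), G u := by
      funext s
      have h2 := intervalIntegral.smul_integral_comp_mul_left (a := 0) (b := 1) G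
        (z.re + R + 1 + s)
      rw [mul_zero, mul_one] at h2
      rw [← h2, ← intervalIntegral.integral_smul]
      refine intervalIntegral.integral_congr fun t _ => ?_
      simp only [hG, Complex.real_smul]
      have e1 : (z + s).re + R + 1 = z.re + R + 1 + s := by
        simp
        ring
      rw [e1]
      congr 2
      push_cast
      ring
    rw [h1]
    have h3 : HasDerivAt (fun x : ℝ => ∫ u in (0 : ℝ)..x, G u) (G (z.re + R + 1 + s))
        (z.re + R + 1 + s) :=
      intervalIntegral.integral_hasDerivAt_right (hGc.intervalIntegrable _ _)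
        hGc.aestronglyMeasurable.stronglyMeasurableAtFilter hGc.continuousAt
    have h4 : HasDerivAt (fun s : ℝ => z.re + R + 1 + s) 1 s := (hasDerivAt_id s).const_add _
    have h5 := h3.scomp s h4
    rw [one_smul] at h5
    have h6 : G (z.re + R + 1 + s) = h p (z + s) := by
      simp only [hG]
      congr 1
      push_cast
      ring
    rw [h6] at h5
    exact h5
  have hexp : ∀ p z, Complex.exp (F p z) = f p z := by
    intro p z
    have hfd : ∀ s : ℝ, HasDerivAt (fun s : ℝ => f p (z + s)) (fderiv ℝ (f p) (z + s) 1) s := by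
      intro s
      have h1 : HasDerivAt (fun s : ℝ => z + (s : ℂ)) 1 s :=
        ((hasDerivAt_id s).ofReal_comp).const_add z
      exact ((hfp p).differentiable (by simp) (z + s)).hasFDerivAt.comp_hasDerivAt s h1
    have hD : ∀ s : ℝ, HasDerivAt (fun s : ℝ => f p (z + s) * Complex.exp (-F p (z + s))) 0 s := by
      intro s
      have h1 := (hfd s).mul ((hFd p z s).neg.cexp)
      have h2 : fderiv ℝ (f p) (z + s) 1 = f p (z + s) * h p (z + s) := by
        rw [hhe, mul_comm (fderiv ℝ (f p) (z + s) 1), mul_inv_cancel_left₀ (hne _ _)]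
      have h3 : fderiv ℝ (f p) (z + s) 1 * Complex.exp (-F p (z + s)) +
          f p (z + s) * (Complex.exp (-F p (z + s)) * -h p (z + s)) = 0 := by
        rw [h2]
        ring
      rw [← h3]
      exact h1
    have hconst := is_const_of_deriv_eq_zero (fun s => (hD s).differentiableAt)
      (fun s => (hD s).deriv) 0 (-(z.re + R + 1))
    have h4 : F p (z + ((-(z.re + R + 1) : ℝ) : ℂ)) = 0 := by
      show (∫ t in (0 : ℝ)..1, _) = _
      have : (z + ((-(z.re + R + 1) : ℝ) : ℂ)).re + R + 1 = 0 := by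
        simp
        ring
      rw [this]
      simp
    have h5 : f p (z + ((-(z.re + R + 1) : ℝ) : ℂ)) = 1 := by
      refine hoff p _ (lt_of_lt_of_le ?_ (Complex.abs_re_le_norm _))
      have : (z + ((-(z.re + R + 1) : ℝ) : ℂ)).re = -(R + 1) := by
        simp
        ring
      rw [this, abs_neg, abs_of_pos (by linarith)]
      linarith
    rw [h4, h5] at hconst
    simp only [Complex.ofReal_zero, add_zero, neg_zero, Complex.exp_zero, mul_one] at hconst
    rw [Complex.exp_neg, mul_inv_eq_one₀ (Complex.exp_ne_zero _)] at hconst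
    exact hconst.symm
  refine ⟨F, hF, hexp, fun p z hz => ?_, fun p hp z => ?_⟩
  · have hopen : IsOpen {z : ℂ | R < ‖z‖} := isOpen_lt continuous_const continuous_norm
    have h1 : {z : ℂ | R < ‖z‖}.EqOn (fderiv ℝ (F p)) 0 := by
      intro w hw
      have h2 : f p =ᶠ[𝓝 w] fun _ => 1 := by
        filter_upwards [hopen.mem_nhds hw] with y hy using hoff p y hy
      have h3 : HasFDerivAt (fun z => Complex.exp (F p z)) (Complex.exp (F p w) • fderiv ℝ (F p) w)
          w := ((hFp p).differentiable (by simp) w).hasFDerivAt.cexp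
      have h4 : (fun z => Complex.exp (F p z)) = f p := funext (hexp p)
      rw [h4] at h3
      have h5 := h3.fderiv
      rw [h2.fderiv_eq] at h5
      simp only [fderiv_fun_const, Pi.zero_apply] at h5
      exact (smul_eq_zero.1 h5.symm).resolve_left (Complex.exp_ne_zero _)
    have h6 := hopen.is_const_of_fderiv_eq_zero (isPreconnected_off R)
      ((hFp p).differentiable (by simp)).differentiableOn h1 hz
      (y := ((-(R + 1) : ℝ) : ℂ)) (by
        show R < ‖((-(R + 1) : ℝ) : ℂ)‖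
        rw [Complex.norm_real, Real.norm_eq_abs, abs_neg, abs_of_pos (by linarith)]
        linarith)
    rw [h6]
    show (∫ t in (0 : ℝ)..1, _) = _
    have : ((-(R + 1) : ℝ) : ℂ).re + R + 1 = 0 := by
      rw [Complex.ofReal_re]
      ring
    rw [this]
    simp
  · have h1 : ∀ z, h p z = 0 := by
      intro z
      have h2 : f p = fun _ => 1 := funext (hQ p hp)
      rw [hhe, h2]
      simp
    show (∫ t in (0 : ℝ)..1, _) = _
    simp [h1]

end

end Pool.Agent.H822.SM
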