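import Mathlib
import Pool.Agent.H822.EX.Flow
import Pool.Agent.H822.EX.Wave
import Pool.Agent.H822.BK.Had

/-!
# Wave maps of vector fields without bounded orbits
-/

set_option autoImplicit false

open scoped ContDiff
open Set Filter Topology Function Metric
open Pool.Agent.GR.Flow Pool.Agent.H822.Par

namespace Pool.Agent.H822.SM

/-- a linear coordinate and a vector -/
structure Dir {M : Type} [NormedAddCommGroup M] [NormedSpace ℝ M] (ξ : M →L[ℝ] ℝ) (e : M) :
    Prop where
  one : ξ e = 1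
  le : ∀ z, |ξ z| ≤ ‖z‖

/-- no bounded orbits -/
def NT {M : Type} [NormedAddCommGroup M] [NormedSpace ℝ M] (V : M → M) : Prop :=
  ∀ γ : ℝ → M, (∀ t, HasDerivAt γ (V (γ t)) t) → ¬ Bornology.IsBounded (range γ)

/-- the line through `z` misses the ball of radius `R` -/
def Tube {M : Type} [NormedAddCommGroup M] [NormedSpace ℝ M] (e : M) (R : ℝ) (z : M) : Prop :=
  ∀ r : ℝ, R < ‖z + r • e‖

section one

variable {M : Type} [NormedAddCommGroup M] [NormedSpace ℝ M] [FiniteDimensional ℝ M]
  {ξ : M →L[ℝ] ℝ} {e : M} (hd : Dir ξ e)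
  {V : M → M} {R : ℝ} {g : ℝ → M → M}
  (hs : ContDiff ℝ ∞ V) (hoff : ∀ z, R < ‖z‖ → V z = e) (hg : IsFlowOf V g)

omit [FiniteDimensional ℝ M] in
theorem Tube.add {R : ℝ} {z : M} (h : Tube e R z) (t : ℝ) : Tube e R (z + t • e) := by
  intro r
  have := h (t + r)
  rwa [add_smul, ← add_assoc] at this

omit [FiniteDimensional ℝ M] in
theorem tube_iff {R : ℝ} {z : M} (t : ℝ) : Tube e R (z + t • e) ↔ Tube e R z := by
  constructor
  · intro h
    have := h.add (-t)
    rwa [neg_smul, add_neg_cancel_right] at this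
  · exact fun h => h.add t

omit [FiniteDimensional ℝ M] in
include hd in
/-- off the tube the norm is bounded in terms of the coordinate -/
theorem norm_le_of_not_tube {R : ℝ} {z : M} {a : ℝ} (h : ¬ Tube e R z) (hz : |ξ z| ≤ a) :
    ‖z‖ ≤ R + (R + a) * ‖e‖ := by
  rw [Tube] at h
  push Not at h
  obtain ⟨r, hr⟩ := h
  have h1 := (hd.le _).trans hr
  simp only [map_add, map_smul, hd.one, smul_eq_mul, mul_one] at h1
  have h2 : |r| ≤ R + a := by
    have h3 : r = (ξ z + r) - ξ z := by ring
    calc |r| = |(ξ z + r) - ξ z| := by rw [← h3]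
      _ ≤ |ξ z + r| + |ξ z| := abs_sub _ _
      _ ≤ R + a := add_le_add h1 hz
  calc ‖z‖ = ‖(z + r • e) - r • e‖ := by rw [add_sub_cancel_right]
    _ ≤ ‖z + r • e‖ + ‖r • e‖ := norm_sub_le _ _
    _ ≤ R + (R + a) * ‖e‖ := by
        rw [norm_smul, Real.norm_eq_abs]
        gcongr

omit [FiniteDimensional ℝ M] in
include hd in
theorem norm_gt {z : M} {R : ℝ} (h : R < |ξ z|) : R < ‖z‖ := h.trans_le (hd.le z)

include hs hoff in
theorem exists_lip : ∃ C : NNReal, LipschitzWith C V := by
  have : ProperSpace M := FiniteDimensional.proper_real M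
  refine exists_lipschitz V hs (closedBall 0 R) (isCompact_closedBall _ _)
    (fderiv_off V _ isClosed_closedBall e fun z hz => hoff z ?_)
  rwa [mem_closedBall_zero_iff, not_le] at hz

include hs hoff hg in
theorem straight' {w : M} {s : ℝ} (h0 : 0 ≤ s)
    (h : ∀ r ∈ Icc (0 : ℝ) s, R < ‖w + r • e‖) : g s w = w + s • e := by
  obtain ⟨C, hC⟩ := exists_lip hs hoff
  exact Ham.straight hC hg h0 fun r hr => hoff _ (h r hr)

include hd hs hoff hg in
theorem fwd_out {z : M} (hz : R < ξ z) {t : ℝ} (ht : 0 ≤ t) :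
    g t z = z + t • e := by
  refine straight' hs hoff hg ht fun r hr => norm_gt hd (lt_of_lt_of_le ?_ (le_abs_self _))
  simp [hd.one]
  linarith [hr.1]

include hs in
theorem inv_of (hg : IsFlowOf V g) {t : ℝ} {z w : M} (h : g t z = w) :
    g (-t) w = z := by
  rw [← h, ← EX.flow_add hs hg, neg_add_cancel, hg.zero]

include hd hs hoff hg in
theorem bwd_in {z : M} (hz : ξ z < -R) {t : ℝ} (ht : 0 ≤ t) :
    g (-t) z = z - t • e := by
  refine inv_of hs hg ?_
  rw [straight' hs hoff hg ht fun r hr => norm_gt hd (lt_of_lt_of_le ?_ (neg_le_abs _))]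
  · abel
  · simp [hd.one]
    linarith [hr.2]

include hs hoff hg in
theorem tube_flow {z : M} (hz : Tube e R z) (t : ℝ) :
    g t z = z + t • e := by
  rcases le_total 0 t with ht | ht
  · exact straight' hs hoff hg ht fun r _ => hz r
  · have h1 := straight' hs hoff hg (w := z + t • e) (s := -t) (by linarith)
      fun r _ => (hz.add t) r
    have h2 := inv_of hs hg h1
    rw [neg_neg] at h2
    rw [← h2]
    congr 1
    rw [neg_smul]
    abel

/-- the wave map -/
noncomputable def wv (ξ : M →L[ℝ] ℝ) (e : M) (R : ℝ) (g : ℝ → M → M) (z : M) : M :=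
  g (ξ z + R + 1) (z - (ξ z + R + 1) • e)

include hd hs hoff hg in
theorem wv_eq {z : M} {s : ℝ} (h : ξ z + R + 1 ≤ s) : wv ξ e R g z = g s (z - s • e) := by
  have h1 : g (s - (ξ z + R + 1)) (z - s • e) = z - (ξ z + R + 1) • e := by
    rw [straight' hs hoff hg (by linarith) fun r hr => norm_gt hd
      (lt_of_lt_of_le ?_ (neg_le_abs _))]
    · rw [sub_smul]; abel
    · simp [hd.one]
      linarith [hr.2]
  rw [wv, ← h1, ← EX.flow_add hs hg]
  congr 1
  ring

include hd hs hoff hg in
theorem wv_flow (z : M) (t : ℝ) : wv ξ e R g (z + t • e) = g t (wv ξ e R g z) := by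
  obtain ⟨s, h1, h2⟩ : ∃ s, ξ z + R + 1 ≤ s ∧ ξ (z + t • e) + R + 1 ≤ s + t :=
    ⟨ξ z + R + 1, le_rfl, by simp [hd.one]; linarith⟩
  rw [wv_eq hd hs hoff hg h1, wv_eq hd hs hoff hg h2, ← EX.flow_add hs hg, add_comm t s]
  congr 1
  rw [add_smul]
  abel

include hd hs hoff hg in
theorem wv_left {z : M} (hz : ξ z < -R) : wv ξ e R g z = z := by
  have h1 : ξ z + R + 1 ≤ max 0 (ξ z + R + 1) := le_max_right _ _
  rw [wv_eq hd hs hoff hg h1, straight' hs hoff hg (le_max_left _ _) fun r hr => norm_gt hd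
      (lt_of_lt_of_le ?_ (neg_le_abs _))]
  · abel
  · simp [hd.one]
    have := hr.2
    simp only [le_sup_iff] at this
    linarith [hr.2]

include hs hoff hg in
theorem wv_tube {z : M} (hz : Tube e R z) : wv ξ e R g z = z := by
  rw [wv, tube_flow hs hoff hg (by rw [sub_eq_add_neg, ← neg_smul]; exact hz.add _)]
  abel

include hd hs hoff hg in
theorem wv_inj : Injective (wv ξ e R g) := by
  intro z z' h
  have h1 := fun t => (wv_flow hd hs hoff hg z t).trans ((congrArg (g t) h).trans
    (wv_flow hd hs hoff hg z' t).symm)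
  have h2 := h1 (-(|ξ z| + |ξ z'| + |R| + 1))
  have a1 := le_abs_self (ξ z)
  have a2 := le_abs_self (ξ z')
  have a3 := le_abs_self R
  have a4 := abs_nonneg (ξ z)
  have a5 := abs_nonneg (ξ z')
  rw [wv_left hd hs hoff hg (by simp [hd.one]; linarith),
    wv_left hd hs hoff hg (by simp [hd.one]; linarith)] at h2
  simpa using h2

include hs hg in
theorem flow_inj_deriv (s : ℝ) (z v : M) (hv : fderiv ℝ (g s) z v = 0) : v = 0 := by
  have hsm := EX.smooth_complete hs hg
  have h1 : ∀ s, ContDiff ℝ ∞ (g s) := fun s => hsm.comp (contDiff_const.prodMk contDiff_id)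
  have h2 : (fun y => g (-s) (g s y)) = id := by
    funext y
    rw [← EX.flow_add hs hg, neg_add_cancel, hg.zero]
    rfl
  have h3 : fderiv ℝ (fun y => g (-s) (g s y)) z =
      (fderiv ℝ (g (-s)) (g s z)).comp (fderiv ℝ (g s) z) :=
    fderiv_comp z ((h1 (-s)).differentiable (by simp) _) ((h1 s).differentiable (by simp) z)
  rw [h2, fderiv_id] at h3
  have h4 := congrArg (fun A : M →L[ℝ] M => A v) h3
  simp only [ContinuousLinearMap.comp_apply, hv, map_zero] at h4
  exact h4

end one

/-- the orbits of `V` are determined by their left ends -/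
theorem wave_unique {M : Type} [NormedAddCommGroup M] [NormedSpace ℝ M] [FiniteDimensional ℝ M]
    {ξ : M →L[ℝ] ℝ} {e : M} (hd : Dir ξ e) {V : M → M} (hs : ContDiff ℝ ∞ V)
    {W W' : M → M} (h : ∀ z (t : ℝ), HasDerivAt (fun t : ℝ => W (z + t • e)) (V (W (z + t • e))) t)
    (h' : ∀ z (t : ℝ), HasDerivAt (fun t : ℝ => W' (z + t • e)) (V (W' (z + t • e))) t)
    {R : ℝ} (hl : ∀ z, ξ z < -R → W z = W' z) (z : M) : W z = W' z := by
  have h1 := EX.unique_all hs (t₀ := -(|R| + |ξ z| + 1)) (h z) (h' z) (hl _ (by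
    simp only [map_add, map_smul, hd.one, smul_eq_mul, mul_one]
    linarith [le_abs_self R, le_abs_self (ξ z)])) 0
  simpa using h1

/-- A smooth family of vector fields, equal to `e` off one ball, without bounded orbits. -/
structure VFam {M P : Type} [NormedAddCommGroup M] [NormedSpace ℝ M] [NormedAddCommGroup P]
    [NormedSpace ℝ P] (e : M) (V : P → M → M) (R : ℝ) : Prop where
  pos : 0 < R
  smooth : ContDiff ℝ ∞ (fun q : P × M => V q.1 q.2)
  off : ∀ p z, R < ‖z‖ → V p z = e
  nt : ∀ p, NT (V p)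

/-- the wave maps of a family -/
structure IsWave {M P : Type} [NormedAddCommGroup M] [NormedSpace ℝ M] [NormedAddCommGroup P]
    [NormedSpace ℝ P] (ξ : M →L[ℝ] ℝ) (e : M) (V : P → M → M) (R : ℝ) (W : P → M → M) :
    Prop where
  smooth : ContDiff ℝ ∞ (fun q : P × M => W q.1 q.2)
  inj : ∀ p z v, fderiv ℝ (W p) z v = 0 → v = 0
  bij : ∀ p, Bijective (W p)
  left : ∀ p z, ξ z < -R → W p z = z
  tube : ∀ p z, Tube e R z → W p z = z
  orbit : ∀ p z (t : ℝ), HasDerivAt (fun t : ℝ => W p (z + t • e)) (V p (W p (z + t • e))) t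
  out : ∀ Q : Set P, IsCompact Q → ∃ m : ℝ, ∀ p ∈ Q, ∀ z, m ≤ ξ z → R < ξ (W p z) ∧
    ∀ r : ℝ, 0 ≤ r → W p (z + r • e) = W p z + r • e

section fam

variable {M : Type} [NormedAddCommGroup M] [NormedSpace ℝ M] [FiniteDimensional ℝ M]
  {ξ : M →L[ℝ] ℝ} {e : M} (hd : Dir ξ e)
  {P : Type} [NormedAddCommGroup P] [NormedSpace ℝ P] [FiniteDimensional ℝ P]
  {V : P → M → M} {R : ℝ}

omit [FiniteDimensional ℝ M] [FiniteDimensional ℝ P] in
theorem VFam.slice (h : VFam e V R) (p : P) : ContDiff ℝ ∞ (V p) :=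
  h.smooth.comp (contDiff_const.prodMk contDiff_id)

include hd in
/-- wave maps of families -/
theorem VFam.exists_wave (h : VFam e V R) : ∃ W : P → M → M, IsWave ξ e V R W := by
  have hproper : ProperSpace M := FiniteDimensional.proper_real M
  have hcomplete : CompleteSpace M := FiniteDimensional.complete ℝ M
  have hoffK : ∀ p z, z ∉ closedBall (0 : M) R → V p z = e := fun p z hz => h.off p z (by
    rwa [mem_closedBall_zero_iff, not_le] at hz)
  have hflow : ∀ p, ∃ g : ℝ → M → M, IsFlowOf (V p) g := fun p => by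
    obtain ⟨C, hC⟩ := exists_lip (h.slice p) (h.off p)
    obtain ⟨B, hB⟩ := Par.exists_bound (V p) (h.slice p).continuous _
      (isCompact_closedBall (0 : M) R) e (hoffK p)
    exact Par.exists_flow hC hB
  choose g hg using hflow
  have hgs : ContDiff ℝ ∞ (fun q : P × ℝ × M => g q.1 q.2.1 q.2.2) :=
    smooth_flow_param V h.smooth (closedBall 0 R) (isCompact_closedBall _ _) e hoffK g hg
  have hadd : ∀ p s t z, g p (s + t) z = g p s (g p t z) := fun p s t z =>
    EX.flow_add (h.slice p) (hg p) s t z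
  set R₁ : ℝ := R + (R + (R + 1)) * ‖e‖ with hR₁
  have hR₁0 : 0 ≤ R₁ := by
    have := h.pos
    positivity
  have hin : ∀ z, ¬ Tube e R z → |ξ z| ≤ R + 1 → ‖z‖ ≤ R₁ := fun z h1 h2 =>
    norm_le_of_not_tube hd h1 h2
  have hno : ∀ p z, ¬ ∀ t, g p t z ∈ closedBall (0 : M) R₁ := by
    intro p z hz
    refine h.nt p (fun t => g p t z) ((hg p).deriv z) ?_
    refine (isBounded_closedBall (x := (0 : M)) (r := R₁)).subset ?_
    rintro _ ⟨t, rfl⟩
    exact hz t
  refine ⟨fun p => wv ξ e R (g p), ?_, fun p z v hv => ?_, fun p => ?_,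
    fun p z hz => wv_left hd (h.slice p) (h.off p) (hg p) hz,
    fun p z hz => wv_tube (h.slice p) (h.off p) (hg p) hz, fun p z t => ?_, fun Q hQ => ?_⟩
  · have h2 : ContDiff ℝ ∞ (fun q : P × M => ξ q.2 + R + 1) :=
      ((ξ.contDiff.comp contDiff_snd).add contDiff_const).add contDiff_const
    exact hgs.comp (contDiff_fst.prodMk (h2.prodMk (contDiff_snd.sub (h2.smul contDiff_const))))
  · set s := ξ z + R + 2 with hs
    have h1 : wv ξ e R (g p) =ᶠ[𝓝 z] fun z => g p s (z - s • e) := by
      have h2 : ∀ᶠ y in 𝓝 z, ξ y < ξ z + 1 :=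
        ξ.continuous.continuousAt.eventually_lt continuousAt_const (by simp)
      filter_upwards [h2] with y hy
      exact wv_eq hd (h.slice p) (h.off p) (hg p) (by linarith)
    have h3 := fderiv_comp_sub (𝕜 := ℝ) (f := g p s) (x := z) (s • e)
    change fderiv ℝ (wv ξ e R (g p)) z v = 0 at hv
    rw [h1.fderiv_eq, h3] at hv
    exact flow_inj_deriv (h.slice p) (hg p) s _ v hv
  · refine ⟨wv_inj hd (h.slice p) (h.off p) (hg p), fun ζ => ?_⟩
    obtain ⟨T, hT, -, h2⟩ := EX.exit_pm hgs.continuous hadd (isCompact_singleton (x := p))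
      (isCompact_closedBall (0 : M) R₁) hno
    -- points which come from the left
    have key : ∀ ζ : M, ∀ t : ℝ, ξ (g p (-t) ζ) < -R → ∃ z, wv ξ e R (g p) z = ζ := by
      intro ζ t hη
      refine ⟨g p (-t) ζ + t • e, ?_⟩
      rw [wv_flow hd (h.slice p) (h.off p) (hg p), wv_left hd (h.slice p) (h.off p) (hg p) hη,
        ← hadd, add_neg_cancel, (hg p).zero]
    have key2 : ∀ ζ : M, |ξ ζ| ≤ R + 1 → ∃ z, wv ξ e R (g p) z = ζ := by
      intro ζ hζ
      by_cases hU : Tube e R ζ
      · exact ⟨ζ, wv_tube (h.slice p) (h.off p) (hg p) hU⟩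
      obtain ⟨t, ht, h3⟩ := h2 p rfl ζ (by simpa using hin ζ hU hζ)
      rw [mem_closedBall_zero_iff] at h3
      set η := g p (-t) ζ with hη
      have hback : g p t η = ζ := by rw [hη, ← hadd, add_neg_cancel, (hg p).zero]
      have hU' : ¬ Tube e R η := by
        intro hU'
        apply hU
        have h4 := tube_flow (h.slice p) (h.off p) (hg p) hU' t
        rw [hback] at h4
        rw [h4]
        exact hU'.add t
      have h4 : R + 1 < |ξ η| := by
        by_contra h4
        exact h3 (hin η hU' (not_lt.1 h4))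
      by_cases h5 : 0 ≤ ξ η
      · exfalso
        rw [abs_of_nonneg h5] at h4
        have h6 := fwd_out hd (h.slice p) (h.off p) (hg p) (z := η) (by linarith) ht.1
        rw [hback] at h6
        rw [h6] at hζ
        simp only [map_add, map_smul, hd.one, smul_eq_mul, mul_one] at hζ
        linarith [le_abs_self (ξ η + t), ht.1]
      · rw [abs_of_neg (not_le.1 h5)] at h4
        exact key ζ t (by rw [← hη]; linarith)
    by_cases h5 : |ξ ζ| ≤ R + 1
    · exact key2 ζ h5
    rw [not_le] at h5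
    by_cases h6 : 0 ≤ ξ ζ
    · rw [abs_of_nonneg h6] at h5
      set r := ξ ζ - (R + 1) with hr
      obtain ⟨z, hz⟩ := key2 (ζ - r • e) (by
        simp only [map_sub, map_smul, hd.one, smul_eq_mul, mul_one, hr]
        rw [show ξ ζ - (ξ ζ - (R + 1)) = R + 1 by ring, abs_of_nonneg (by linarith [h.pos])])
      refine ⟨z + r • e, ?_⟩
      rw [wv_flow hd (h.slice p) (h.off p) (hg p), hz,
        fwd_out hd (h.slice p) (h.off p) (hg p) (by simp [hr, hd.one]) (by linarith)]
      abel
    · rw [abs_of_neg (not_le.1 h6)] at h5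
      exact ⟨ζ, wv_left hd (h.slice p) (h.off p) (hg p) (by linarith)⟩
  · have h1 : (fun t : ℝ => wv ξ e R (g p) (z + t • e)) = fun t => g p t (wv ξ e R (g p) z) := by
      funext t
      exact wv_flow hd (h.slice p) (h.off p) (hg p) z t
    show HasDerivAt (fun t : ℝ => wv ξ e R (g p) (z + t • e)) _ t
    rw [h1]
    show HasDerivAt _ (V p (wv ξ e R (g p) (z + t • e))) t
    rw [wv_flow hd (h.slice p) (h.off p) (hg p)]
    exact (hg p).deriv _ t
  · obtain ⟨T, hT, h1, -⟩ := EX.exit_pm hgs.continuous hadd hQ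
      (isCompact_closedBall (0 : M) R₁) hno
    refine ⟨max T (R + 1), fun p hp z hz => ?_⟩
    have hz1 : T ≤ ξ z := (le_max_left _ _).trans hz
    have hz2 : R + 1 ≤ ξ z := (le_max_right _ _).trans hz
    by_cases hU : Tube e R z
    · rw [wv_tube (h.slice p) (h.off p) (hg p) hU]
      refine ⟨by linarith, fun r _ => ?_⟩
      rw [wv_tube (h.slice p) (h.off p) (hg p) (hU.add r)]
    set s := ξ z + R + 1 with hs
    set w := z - s • e with hw
    have hwc : ξ w = -(R + 1) := by
      simp only [hw, hs, map_sub, map_smul, hd.one, smul_eq_mul, mul_one]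
      ring
    have hwT : ¬ Tube e R w := by
      rw [hw, sub_eq_add_neg, ← neg_smul]
      exact fun h => hU ((tube_iff _).1 h)
    have hwK : ‖w‖ ≤ R₁ := hin w hwT (by rw [hwc, abs_neg, abs_of_nonneg (by linarith [h.pos])])
    obtain ⟨t, ht, h3⟩ := h1 p hp w (by simpa using hwK)
    have hts : t ≤ s := by linarith [ht.2, h.pos]
    rw [mem_closedBall_zero_iff] at h3
    set η := g p t w with hη
    have hback : g p (-t) η = w := by rw [hη, ← hadd, neg_add_cancel, (hg p).zero]
    have hU' : ¬ Tube e R η := by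
      intro hU'
      have h4 := tube_flow (h.slice p) (h.off p) (hg p) hU' (-t)
      rw [hback] at h4
      apply hwT
      rw [h4]
      exact hU'.add _
    have h4 : R + 1 < |ξ η| := by
      by_contra h4
      exact h3 (hin η hU' (not_lt.1 h4))
    have hηX : R + 1 < ξ η := by
      by_cases h5 : 0 ≤ ξ η
      · rwa [abs_of_nonneg h5] at h4
      · exfalso
        rw [abs_of_neg (not_le.1 h5)] at h4
        have h6 := bwd_in hd (h.slice p) (h.off p) (hg p) (z := η) (by linarith) ht.1
        rw [hback] at h6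
        rw [h6] at hwc
        simp only [map_sub, map_smul, hd.one, smul_eq_mul, mul_one] at hwc
        linarith [ht.1]
    have hWz : wv ξ e R (g p) z = η + (s - t) • e := by
      show g p s w = _
      have : s = (s - t) + t := by ring
      conv_lhs => rw [this]
      rw [hadd, ← hη, fwd_out hd (h.slice p) (h.off p) (hg p) (by linarith) (by linarith)]
    have hWX : R < ξ (wv ξ e R (g p) z) := by
      rw [hWz]
      simp only [map_add, map_smul, hd.one, smul_eq_mul, mul_one]
      linarith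
    refine ⟨hWX, fun r hr => ?_⟩
    rw [wv_flow hd (h.slice p) (h.off p) (hg p),
      fwd_out hd (h.slice p) (h.off p) (hg p) hWX hr]

end fam

end Pool.Agent.H822.SM
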