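import Mathlib
import Pool.Agent.H822.SM.Wave
import Pool.Agent.H822.SM.Log

/-!
# Nonvanishing vector fields on the plane have no bounded orbits
-/

set_option autoImplicit false

open scoped ContDiff
open Set Filter Topology Function Metric
open Pool.Agent.GR.Flow Pool.Agent.H822.Par

namespace Pool.Agent.H822.SM

section lyap

variable {M : Type} [NormedAddCommGroup M] [NormedSpace ℝ M] [FiniteDimensional ℝ M]

theorem nt_of_lyap {V V' : M → M} (hV' : ContDiff ℝ ∞ V') {g : ℝ → M → M} (hg : IsFlowOf V' g)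
    (hnt : NT V) {L : M → ℝ} (hL : ContDiff ℝ ∞ L) (hmono : ∀ z, 0 ≤ fderiv ℝ L z (V' z))
    (heq : ∀ z, fderiv ℝ L z (V' z) = 0 → V' z = V z) : NT V' := by
  intro γ hγ hb
  have hproper : ProperSpace M := FiniteDimensional.proper_real M
  obtain ⟨B, hB⟩ := hb.exists_norm_le
  have hB' : ∀ t, γ t ∈ closedBall (0 : M) B := fun t => by
    rw [mem_closedBall_zero_iff]
    exact hB _ ⟨t, rfl⟩
  have hLd : ∀ (γ : ℝ → M), (∀ t, HasDerivAt γ (V' (γ t)) t) → ∀ t,
      HasDerivAt (fun t => L (γ t)) (fderiv ℝ L (γ t) (V' (γ t))) t := fun γ hγ t =>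
    (hL.differentiable (by simp) (γ t)).hasFDerivAt.comp_hasDerivAt t (hγ t)
  have hmon : Monotone (fun t => L (γ t)) :=
    monotone_of_deriv_nonneg (fun t => (hLd γ hγ t).differentiableAt) fun t => by
      rw [(hLd γ hγ t).deriv]
      exact hmono _
  obtain ⟨C, hC⟩ := ((isCompact_closedBall (0 : M) B).image hL.continuous).isBounded.exists_norm_le
  have hbdd : BddAbove (range fun t => L (γ t)) := by
    refine ⟨C, ?_⟩
    rintro _ ⟨t, rfl⟩
    exact (le_abs_self _).trans (hC _ ⟨γ t, hB' t, rfl⟩)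
  have hlim := tendsto_atTop_ciSup hmon hbdd
  set c := ⨆ t, L (γ t) with hc
  obtain ⟨z, hz, φ, hφ, hzl⟩ := (isCompact_closedBall (0 : M) B).tendsto_subseq
    (x := fun k : ℕ => γ k) (fun k => hB' _)
  have hsm := EX.smooth_complete hV' hg
  have hgc : ∀ t, Continuous (g t) := fun t => (hsm.comp
    (contDiff_const.prodMk contDiff_id)).continuous
  have hshift : ∀ s t, γ (s + t) = g s (γ t) := by
    intro s t
    refine EX.flow_uniq hV' hg (γ := fun s => γ (s + t)) (by simp) (fun s => ?_) s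
    exact HasDerivAt.comp_add_const s t (hγ (s + t))
  have hlims : ∀ s, Tendsto (fun k => γ (s + φ k)) atTop (𝓝 (g s z)) := by
    intro s
    simp only [hshift]
    exact ((hgc s).tendsto z).comp hzl
  have hLz : ∀ s, L (g s z) = c := by
    intro s
    have h1 : Tendsto (fun k => L (γ (s + φ k))) atTop (𝓝 (L (g s z))) :=
      (hL.continuous.tendsto _).comp (hlims s)
    have h2 : Tendsto (fun k => L (γ (s + φ k))) atTop (𝓝 c) := by
      refine hlim.comp (tendsto_atTop_add_const_left _ _ ?_)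
      exact tendsto_natCast_atTop_atTop.comp hφ.tendsto_atTop
    exact tendsto_nhds_unique h1 h2
  have hzero : ∀ s, fderiv ℝ L (g s z) (V' (g s z)) = 0 := by
    intro s
    have h1 := hLd (fun s => g s z) (hg.deriv z) s
    have h2 : (fun s => L (g s z)) = fun _ => c := funext hLz
    rw [h2] at h1
    exact h1.unique (hasDerivAt_const s c)
  refine hnt (fun s => g s z) (fun s => ?_) ?_
  · rw [← heq _ (hzero s)]
    exact hg.deriv z s
  · refine (isBounded_closedBall (x := (0 : M)) (r := B)).subset ?_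
    rintro _ ⟨s, rfl⟩
    exact isClosed_closedBall.mem_of_tendsto (hlims s) (Eventually.of_forall fun k => hB' _)

end lyap

theorem dirC : Dir Complex.reCLM (1 : ℂ) :=
  ⟨by simp, fun z => Complex.abs_re_le_norm z⟩

/-- a smooth function on the plane which vanishes off a ball -/
structure Adm (R : ℝ) (F : ℂ → ℂ) : Prop where
  smooth : ContDiff ℝ ∞ F
  off : ∀ z, R < ‖z‖ → F z = 0

theorem Adm.exp_smooth {R : ℝ} {F : ℂ → ℂ} (h : Adm R F) :
    ContDiff ℝ ∞ (fun z => Complex.exp (F z)) := h.smooth.cexp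

theorem Adm.exp_off {R : ℝ} {F : ℂ → ℂ} (h : Adm R F) {z : ℂ} (hz : R < ‖z‖) :
    Complex.exp (F z) = 1 := by
  rw [h.off z hz, Complex.exp_zero]

theorem Adm.exists_flow {R : ℝ} {F : ℂ → ℂ} (h : Adm R F) :
    ∃ g : ℝ → ℂ → ℂ, IsFlowOf (fun z => Complex.exp (F z)) g := by
  obtain ⟨C, hC⟩ := exists_lip h.exp_smooth fun z hz => h.exp_off hz
  obtain ⟨B, hB⟩ := Par.exists_bound (fun z => Complex.exp (F z)) h.exp_smooth.continuous _
    (isCompact_closedBall (0 : ℂ) R) 1 (fun z hz => h.exp_off (by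
      rwa [mem_closedBall_zero_iff, not_le] at hz))
  exact Par.exists_flow hC hB

/-- a smooth family does not change sign -/
theorem pos_of_ne {A : Type} [TopologicalSpace A] [PreconnectedSpace A] {m : A → ℝ}
    (hm : Continuous m) (hne : ∀ z, m z ≠ 0) {z₀ : A} (h0 : 0 < m z₀) (z : A) : 0 < m z := by
  by_contra h
  obtain ⟨w, hw⟩ := mem_range_of_exists_le_of_exists_ge hm ⟨z, not_lt.1 h⟩ ⟨z₀, h0.le⟩
  exact hne w hw

theorem exists_lyap {R : ℝ} (hR : 0 < R) {V : ℂ → ℂ} (hV : ContDiff ℝ ∞ V)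
    (hne : ∀ z, V z ≠ 0)
    (hoff : ∀ z, R < ‖z‖ → V z = 1) (hnt : NT V) : ∃ L : ℂ → ℝ, ContDiff ℝ ∞ L ∧
      (∀ z, fderiv ℝ L z (V z) = 0) ∧ ∀ z, 0 < fderiv ℝ L z (Complex.I * V z) := by
  have hfam : VFam (P := ℝ) (1 : ℂ) (fun _ => V) R :=
    ⟨hR, hV.comp contDiff_snd, fun _ z hz => hoff z hz, fun _ => hnt⟩
  obtain ⟨W, hW⟩ := hfam.exists_wave dirC
  obtain ⟨N, hN, h1, h2⟩ := BK.inv_fam hW.smooth hW.inj hW.bij
  have hWs : ContDiff ℝ ∞ (W 0) := hW.smooth.comp (contDiff_const.prodMk contDiff_id)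
  have hNs : ContDiff ℝ ∞ (N 0) := hN.comp (contDiff_const.prodMk contDiff_id)
  have hNd : ∀ z, fderiv ℝ (N 0) z (V z) = 1 := by
    intro z
    have h3 := hW.orbit 0 (N 0 z) 0
    rw [Complex.real_smul, Complex.ofReal_zero, zero_mul, add_zero, h2] at h3
    have h4 := (hNs.differentiable (by simp) z).hasFDerivAt
    have h5 : HasDerivAt (fun t : ℝ => N 0 (W 0 (N 0 z + t • (1 : ℂ)))) (fderiv ℝ (N 0) z (V z))
        0 := by
      have h6 : W 0 (N 0 z + (0 : ℝ) • (1 : ℂ)) = z := by
        rw [zero_smul, add_zero, h2]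
      rw [← h6] at h4
      have h7 := h4.comp_hasDerivAt (0 : ℝ) h3
      rw [h6] at h7
      exact h7
    have h8 : (fun t : ℝ => N 0 (W 0 (N 0 z + t • (1 : ℂ)))) = fun t : ℝ => N 0 z + t • (1 : ℂ) := by
      funext t
      rw [h1]
    rw [h8] at h5
    have h9 : HasDerivAt (fun t : ℝ => N 0 z + t • (1 : ℂ)) ((1 : ℝ) • (1 : ℂ)) 0 :=
      ((hasDerivAt_id _).smul_const _).const_add _
    rw [one_smul] at h9
    exact h5.unique h9
  have hNi : ∀ z v, fderiv ℝ (N 0) z v = 0 → v = 0 := by
    intro z v hv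
    have h3 : (fun y => W 0 (N 0 y)) = id := funext (h2 0)
    have h4 : fderiv ℝ (fun y => W 0 (N 0 y)) z = (fderiv ℝ (W 0) (N 0 z)).comp
        (fderiv ℝ (N 0) z) :=
      fderiv_comp z (hWs.differentiable (by simp) _) (hNs.differentiable (by simp) z)
    rw [h3, fderiv_id] at h4
    have h5 := congrArg (fun A : ℂ →L[ℝ] ℂ => A v) h4
    simp only [ContinuousLinearMap.comp_apply, hv, map_zero] at h5
    exact h5
  let L : ℂ → ℝ := fun z => Complex.imCLM (N 0 z)
  have hL : ContDiff ℝ ∞ L := Complex.imCLM.contDiff.comp hNs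
  have hLd : ∀ z v, fderiv ℝ L z v = (fderiv ℝ (N 0) z v).im := by
    intro z v
    have h3 : HasFDerivAt L (Complex.imCLM.comp (fderiv ℝ (N 0) z)) z :=
      Complex.imCLM.hasFDerivAt.comp z (hNs.differentiable (by simp) z).hasFDerivAt
    rw [h3.fderiv]
    rfl
  refine ⟨L, hL, fun z => ?_, ?_⟩
  · rw [hLd, hNd, Complex.one_im]
  · have hm : Continuous (fun z => fderiv ℝ L z (Complex.I * V z)) :=
      ((hL.continuous_fderiv (by simp)).clm_apply (continuous_const.mul hV.continuous))
    refine pos_of_ne hm (fun z hz => ?_) (z₀ := ((-(R + 1) : ℝ) : ℂ)) ?_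
    · rw [hLd] at hz
      have h3 : fderiv ℝ (N 0) z (Complex.I * V z - (fderiv ℝ (N 0) z (Complex.I * V z)).re • V z)
          = 0 := by
        rw [map_sub, map_smul, hNd]
        apply Complex.ext
        · simp
        · simp [hz]
      have h4 := hNi z _ h3
      rw [Complex.real_smul, ← sub_mul] at h4
      have h5 := (mul_eq_zero.1 h4).resolve_right (hne z)
      have h6 := congrArg Complex.im h5
      simp at h6
    · rw [hLd]
      have h3 : ∀ z : ℂ, z.re < -R → N 0 z = z := by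
        intro z hz
        have := h1 0 z
        rwa [hW.left 0 z hz] at this
      have h4 : ((-(R + 1) : ℝ) : ℂ).re < -R := by
        rw [Complex.ofReal_re]
        linarith
      have h5 : N 0 =ᶠ[𝓝 ((-(R + 1) : ℝ) : ℂ)] id := by
        have : ∀ᶠ z : ℂ in 𝓝 ((-(R + 1) : ℝ) : ℂ), z.re < -R :=
          Complex.continuous_re.continuousAt.eventually_lt continuousAt_const h4
        filter_upwards [this] with z hz using h3 z hz
      rw [h5.fderiv_eq, fderiv_id, hoff]
      · simp
      · rw [Complex.norm_real, Real.norm_eq_abs, abs_neg, abs_of_pos (by linarith)]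
        linarith

/-- changing the direction by an angle of less than `π`, of fixed sign -/
theorem nt_step {R : ℝ} (hR : 0 < R) {F F' : ℂ → ℂ} (hF : Adm R F) (hF' : Adm R F')
    {δ : ℂ → ℝ} (hδ : ∀ z, F' z = F z + δ z * Complex.I)
    (hsign : (∀ z, 0 ≤ δ z ∧ δ z < Real.pi) ∨ ∀ z, -Real.pi < δ z ∧ δ z ≤ 0)
    (hnt : NT fun z => Complex.exp (F z)) : NT fun z => Complex.exp (F' z) := by
  obtain ⟨g, hg⟩ := hF'.exists_flow
  obtain ⟨L, hL, h1, h2⟩ := exists_lyap hR hF.exp_smooth (fun z => Complex.exp_ne_zero _)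
    (fun z hz => hF.exp_off hz) hnt
  have h3 : ∀ z, Complex.exp (F' z) = Real.cos (δ z) • Complex.exp (F z) +
      Real.sin (δ z) • (Complex.I * Complex.exp (F z)) := by
    intro z
    rw [hδ, Complex.exp_add, Complex.exp_mul_I, Complex.real_smul, Complex.real_smul,
      Complex.ofReal_cos, Complex.ofReal_sin]
    ring
  have h4 : ∀ z, fderiv ℝ L z (Complex.exp (F' z)) =
      Real.sin (δ z) * fderiv ℝ L z (Complex.I * Complex.exp (F z)) := by
    intro z
    rw [h3, map_add, map_smul, map_smul, h1, smul_zero, zero_add, smul_eq_mul]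
  have h5 : ∀ z, δ z = 0 → Complex.exp (F' z) = Complex.exp (F z) := by
    intro z hz
    rw [hδ, hz]
    simp
  rcases hsign with hs | hs
  · refine nt_of_lyap hF'.exp_smooth hg hnt hL (fun z => ?_) fun z hz => ?_
    · rw [h4]
      exact mul_nonneg (Real.sin_nonneg_of_nonneg_of_le_pi (hs z).1 (hs z).2.le) (h2 z).le
    · rw [h4] at hz
      have h6 := (mul_eq_zero.1 hz).resolve_right (h2 z).ne'
      refine h5 z ?_
      by_contra h7
      have h8 : 0 < δ z := lt_of_le_of_ne (hs z).1 (Ne.symm h7)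
      exact (Real.sin_pos_of_pos_of_lt_pi h8 (hs z).2).ne' h6
  · refine nt_of_lyap hF'.exp_smooth hg hnt hL.neg (fun z => ?_) fun z hz => ?_
    · rw [fderiv_fun_neg, neg_apply, h4, ← neg_mul]
      refine mul_nonneg ?_ (h2 z).le
      rw [← Real.sin_neg]
      exact Real.sin_nonneg_of_nonneg_of_le_pi (by linarith [(hs z).2]) (by linarith [(hs z).1])
    · rw [fderiv_fun_neg, neg_apply, h4, ← neg_mul] at hz
      have h6 := (mul_eq_zero.1 hz).resolve_right (h2 z).ne'
      refine h5 z ?_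
      by_contra h7
      have h8 : 0 < -δ z := by
        have := lt_of_le_of_ne (hs z).2 h7
        linarith
      rw [← Real.sin_neg] at h6
      exact (Real.sin_pos_of_pos_of_lt_pi h8 (by linarith [(hs z).1])).ne' h6

theorem nt_one : NT (fun _ : ℂ => (1 : ℂ)) := by
  intro γ hγ hb
  obtain ⟨B, hB⟩ := hb.exists_norm_le
  have h1 : ∀ t : ℝ, γ t = γ 0 + t := by
    intro t
    refine EX.unique_all (X := fun _ => (1 : ℂ)) contDiff_const (t₀ := 0)
      (γ₂ := fun t : ℝ => γ 0 + (t : ℂ)) hγ (fun t => ?_) (by simp) t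
    exact ((hasDerivAt_id t).ofReal_comp).const_add _
  have h2 := hB _ ⟨‖γ 0‖ + B + 1, rfl⟩
  rw [h1] at h2
  have h3 := norm_sub_le (γ 0 + ((‖γ 0‖ + B + 1 : ℝ) : ℂ)) (γ 0)
  rw [add_sub_cancel_left, Complex.norm_real, Real.norm_eq_abs] at h3
  have h4 := le_abs_self (‖γ 0‖ + B + 1)
  have h5 := norm_nonneg (γ 0)
  have h6 : ‖γ 0‖ + B + 1 ≤ ‖γ 0‖ + B := by linarith
  linarith

/-- **no trapping in the plane** -/
theorem nt_exp {R : ℝ} (hR : 0 < R) {F : ℂ → ℂ} (hF : Adm R F) :
    NT fun z => Complex.exp (F z) := by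
  have hc : ContDiff ℝ ∞ (fun x : ℝ => (x : ℂ)) := Complex.ofRealCLM.contDiff
  let χ : ContDiffBump (0 : ℂ) := ⟨R, R + 1, hR, by linarith⟩
  obtain ⟨C, hC⟩ := ((isCompact_closedBall (0 : ℂ) R).image hF.smooth.continuous).isBounded.exists_norm_le
  have hC' : ∀ z, |(F z).im| ≤ |C| := by
    intro z
    by_cases hz : ‖z‖ ≤ R
    · exact (Complex.abs_im_le_norm _).trans ((hC _ ⟨z, by simpa using hz, rfl⟩).trans
        (le_abs_self _))
    · rw [hF.off z (not_le.1 hz)]
      simp
  obtain ⟨N, hN⟩ := exists_nat_gt (2 * |C|)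
  have hN0 : (0 : ℝ) < N := lt_of_le_of_lt (by positivity) hN
  have hpi : (1 : ℝ) < Real.pi := by linarith [Real.pi_gt_three]
  have hre : ContDiff ℝ ∞ (fun z => (F z).re) := Complex.reCLM.contDiff.comp hF.smooth
  have him : ContDiff ℝ ∞ (fun z => (F z).im) := Complex.imCLM.contDiff.comp hF.smooth
  have hχ : ∀ z : ℂ, R + 1 < ‖z‖ → χ z = 0 := fun z hz => χ.zero_of_le_dist (by
    rw [dist_zero_right]; exact hz.le)
  have hχ1 : ∀ z : ℂ, ‖z‖ ≤ R → χ z = 1 := fun z hz => χ.one_of_mem_closedBall (by simpa using hz)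
  let G : (ℂ → ℝ) → ℂ → ℂ := fun θ z => ((F z).re : ℂ) + θ z * Complex.I
  have hG : ∀ θ : ℂ → ℝ, ContDiff ℝ ∞ θ → (∀ z, R + 1 < ‖z‖ → θ z = 0) → Adm (R + 1) (G θ) := by
    intro θ hθ h0
    refine ⟨(hc.comp hre).add ((hc.comp hθ).mul contDiff_const), fun z hz => ?_⟩
    show ((F z).re : ℂ) + θ z * Complex.I = 0
    rw [h0 z hz, hF.off z (by linarith)]
    simp
  -- the start
  have hstart : NT fun z => Complex.exp (G (fun _ => 0) z) := by
    have hadm := hG (fun _ => 0) contDiff_const (fun _ _ => rfl)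
    obtain ⟨g, hg⟩ := hadm.exists_flow
    have h1 : ∀ z, fderiv ℝ (fun z : ℂ => Complex.reCLM z) z (Complex.exp (G (fun _ => 0) z)) =
        Real.exp (F z).re := by
      intro z
      have : HasFDerivAt (fun z : ℂ => Complex.reCLM z) Complex.reCLM z :=
        Complex.reCLM.hasFDerivAt
      rw [this.fderiv]
      show (Complex.exp (((F z).re : ℂ) + ((0 : ℝ) : ℂ) * Complex.I)).re = _
      rw [Complex.ofReal_zero, zero_mul, add_zero, ← Complex.ofReal_exp, Complex.ofReal_re]
    refine nt_of_lyap hadm.exp_smooth hg nt_one (L := fun z => Complex.reCLM z)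
      Complex.reCLM.contDiff (fun z => ?_) fun z hz => ?_
    · rw [h1]
      positivity
    · rw [h1] at hz
      exact absurd hz (Real.exp_pos _).ne'
  -- going up
  have hup : ∀ k : ℕ, k ≤ N → NT fun z => Complex.exp (G (fun z => (k : ℝ) / N * (|C| * χ z)) z) := by
    intro k
    induction k with
    | zero =>
      intro _
      have : (fun z : ℂ => ((0 : ℕ) : ℝ) / N * (|C| * χ z)) = fun _ => 0 := by
        funext z
        simp
      rw [this]
      exact hstart
    | succ k ih =>
      intro hk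
      refine nt_step (R := R + 1) (by linarith) (F := G fun z => (k : ℝ) / N * (|C| * χ z))
        (hG _ (contDiff_const.mul (contDiff_const.mul χ.contDiff)) fun z hz => by
          rw [hχ z hz]; ring)
        (hG _ (contDiff_const.mul (contDiff_const.mul χ.contDiff)) fun z hz => by
          rw [hχ z hz]; ring) (δ := fun z => |C| * χ z / N) (fun z => ?_) (Or.inl fun z => ?_)
        (ih (by omega))
      · simp only [G]
        push_cast
        ring
      · have h1 : 0 ≤ |C| * χ z := mul_nonneg (abs_nonneg _) χ.nonneg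
        have h2 : |C| * χ z ≤ |C| := mul_le_of_le_one_right (abs_nonneg _) χ.le_one
        refine ⟨div_nonneg h1 hN0.le, lt_trans ?_ hpi⟩
        rw [div_lt_one hN0]
        linarith [abs_nonneg C]
  -- going down
  have hdown : ∀ k : ℕ, k ≤ N → NT fun z => Complex.exp (G (fun z => |C| * χ z +
      (k : ℝ) / N * ((F z).im - |C| * χ z)) z) := by
    intro k
    induction k with
    | zero =>
      intro _
      have h1 := hup N le_rfl
      have : (fun z : ℂ => |C| * χ z + ((0 : ℕ) : ℝ) / N * ((F z).im - |C| * χ z)) =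
          fun z => (N : ℝ) / N * (|C| * χ z) := by
        funext z
        rw [div_self hN0.ne']
        simp
      rw [this]
      exact h1
    | succ k ih =>
      intro hk
      have h0 : ∀ (k : ℕ) (z : ℂ), R + 1 < ‖z‖ → |C| * χ z +
          (k : ℝ) / N * ((F z).im - |C| * χ z) = 0 := by
        intro k z hz
        rw [hχ z hz, hF.off z (by linarith)]
        simp
      have hsm : ∀ k : ℕ, ContDiff ℝ ∞ (fun z : ℂ => |C| * χ z +
          (k : ℝ) / N * ((F z).im - |C| * χ z)) := fun k =>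
        (contDiff_const.mul χ.contDiff).add (contDiff_const.mul
          (him.sub (contDiff_const.mul χ.contDiff)))
      refine nt_step (R := R + 1) (by linarith)
        (hG _ (hsm k) (h0 k)) (hG _ (hsm (k + 1)) (h0 (k + 1)))
        (δ := fun z => ((F z).im - |C| * χ z) / N) (fun z => ?_) (Or.inr fun z => ?_)
        (ih (by omega))
      · simp only [G]
        push_cast
        ring
      · have h1 : 0 ≤ |C| * χ z := mul_nonneg (abs_nonneg _) χ.nonneg
        have h2 : |C| * χ z ≤ |C| := mul_le_of_le_one_right (abs_nonneg _) χ.le_one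
        have h3 := abs_le.1 (hC' z)
        have h4 : (F z).im ≤ |C| * χ z := by
          by_cases hz : ‖z‖ ≤ R
          · rw [hχ1 z hz, mul_one]
            exact h3.2
          · rw [hF.off z (not_le.1 hz)]
            simpa using h1
        constructor
        · rw [lt_div_iff₀ hN0]
          have h5 : -(Real.pi) * N ≤ -(1 : ℝ) * N := by nlinarith
          linarith [h3.1]
        · exact div_nonpos_of_nonpos_of_nonneg (by linarith) hN0.le
  have hfin := hdown N le_rfl
  have : (fun z => Complex.exp (G (fun z => |C| * χ z +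
      (N : ℝ) / N * ((F z).im - |C| * χ z)) z)) = fun z => Complex.exp (F z) := by
    funext z
    congr 1
    simp only [G]
    rw [div_self hN0.ne']
    have : |C| * χ z + 1 * ((F z).im - |C| * χ z) = (F z).im := by ring
    rw [this, Complex.re_add_im]
  rw [this] at hfin
  exact hfin

end Pool.Agent.H822.SM
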