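import Mathlib
import Pool.Agent.H822.SM.NT
import Pool.Agent.H822.SM.Dif
import Pool.Agent.H822.Td

/-!
# Smale's theorem: `Diff_c(ℝ²)` is weakly contractible
-/

set_option autoImplicit false

open scoped ContDiff
open Set Filter Topology Function Metric
open Pool.Agent.GR.Flow Pool.Agent.H822.Par
open Pool.Agent.H822.Td (et et_smooth et_zero et_one det_smooth det_off et_deriv)

namespace Pool.Agent.H822.SM

theorem det_bdd : ∃ C : ℝ, 0 ≤ C ∧ ∀ t, |deriv et t| ≤ C := by
  obtain ⟨C, hC⟩ := ((isCompact_Icc (a := (0 : ℝ)) (b := 1)).image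
    det_smooth.continuous).isBounded.exists_norm_le
  refine ⟨max C 0, le_max_right _ _, fun t => ?_⟩
  by_cases ht : t ∈ Icc (0 : ℝ) 1
  · exact (hC _ ⟨t, ht, rfl⟩).trans (le_max_left _ _)
  · rw [det_off ht, abs_zero]
    exact le_max_right _ _

theorem et_mem' (t : ℝ) : 0 ≤ et t ∧ et t ≤ 1 :=
  ⟨Real.smoothTransition.nonneg t, Real.smoothTransition.le_one t⟩

/-- the slow interpolation between the identity and `z + B (im z)` -/
noncomputable def bet (B : ℝ → ℂ) (ε m : ℝ) (z : ℂ) : ℂ := z + et (ε * (z.re - m)) • B z.im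

theorem bet_fderiv {B : ℝ → ℂ} (hB : ContDiff ℝ ∞ B) (ε m : ℝ) (z v : ℂ) :
    fderiv ℝ (bet B ε m) z v = v + (et (ε * (z.re - m)) • (v.im • deriv B z.im) +
      (deriv et (ε * (z.re - m)) * (ε * v.re)) • B z.im) := by
  have h0 : HasFDerivAt (fun z : ℂ => ε * (z.re - m)) (ε • Complex.reCLM) z :=
    (Complex.reCLM.hasFDerivAt.sub_const m).const_mul ε
  have h1 : HasFDerivAt (fun z : ℂ => et (ε * (z.re - m)))
      (deriv et (ε * (z.re - m)) • (ε • Complex.reCLM)) z :=
    (et_deriv (ε * (z.re - m))).comp_hasFDerivAt z h0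
  have h2 : HasFDerivAt (fun z : ℂ => B z.im)
      ((ContinuousLinearMap.toSpanSingleton ℝ (deriv B z.im)).comp Complex.imCLM) z :=
    ((hB.differentiable (by simp) z.im).hasDerivAt.hasFDerivAt).comp z Complex.imCLM.hasFDerivAt
  have h3 : HasFDerivAt (bet B ε m) _ z := (hasFDerivAt_id z).add (h1.smul h2)
  rw [h3.fderiv]
  simp [ContinuousLinearMap.smulRight_apply]

theorem exists_beta {Q : Type} [NormedAddCommGroup Q] [NormedSpace ℝ Q]
    {B : Q → ℝ → ℂ} (hB : ContDiff ℝ ∞ (fun q : Q × ℝ => B q.1 q.2)) {Q₁ : Set Q}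
    (hQ₁ : IsCompact Q₁) {R : ℝ} (hoff : ∀ q y, R < |y| → B q y = 0)
    (hred : ∀ q, (∀ y, B q y = 0) ∨ ∃ q' ∈ Q₁, B q' = B q)
    (hpos : ∀ q y, 0 < 1 + (deriv (B q) y).im) (m : ℝ) :
    ∃ ε : ℝ, 0 < ε ∧ ∀ q z v, fderiv ℝ (bet (B q) ε m) z v = 0 → v = 0 := by
  have hBq : ∀ q, ContDiff ℝ ∞ (B q) := fun q => hB.comp (contDiff_const.prodMk contDiff_id)
  have hdc : Continuous (fun q : Q × ℝ => deriv (B q.1) q.2) := by
    have h1 : (fun q : Q × ℝ => deriv (B q.1) q.2) =
        fun q => fderiv ℝ (fun q : Q × ℝ => B q.1 q.2) q (0, 1) := by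
      funext q
      rw [← fderiv_apply_one_eq_deriv, BK.fderiv_slice hB]
    rw [h1]
    exact (hB.continuous_fderiv (by simp)).clm_apply continuous_const
  have hd0 : ∀ q y, R < |y| → deriv (B q) y = 0 := by
    intro q y hy
    have h1 : B q =ᶠ[𝓝 y] fun _ => 0 := by
      have : ∀ᶠ x in 𝓝 y, R < |x| :=
        continuousAt_const.eventually_lt continuous_abs.continuousAt hy
      filter_upwards [this] with x hx using hoff q x hx
    rw [h1.deriv_eq]
    simp
  have hcomp := hQ₁.prod (isCompact_Icc (a := -R) (b := R))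
  obtain ⟨c₁, hc₁⟩ := (hcomp.image hB.continuous).isBounded.exists_norm_le
  obtain ⟨c₂, hc₂⟩ := (hcomp.image hdc).isBounded.exists_norm_le
  obtain ⟨μ₀, hμ₀, hμ⟩ := hcomp.exists_forall_le' (f := fun q : Q × ℝ =>
    1 + (deriv (B q.1) q.2).im) (a := 0) (Continuous.continuousOn (by
      exact continuous_const.add (Complex.continuous_im.comp hdc))) fun q _ => hpos _ _
  set C : ℝ := max (max c₁ c₂) 0 with hC
  have hC0 : 0 ≤ C := le_max_right _ _
  set μ : ℝ := min μ₀ 1 with hμdef
  have hμ0 : 0 < μ := lt_min hμ₀ one_pos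
  have key : ∀ q y, ‖B q y‖ ≤ C ∧ ‖deriv (B q) y‖ ≤ C ∧ μ ≤ 1 + (deriv (B q) y).im := by
    intro q y
    by_cases hy : R < |y|
    · rw [hoff q y hy, hd0 q y hy]
      simpa using ⟨hC0, min_le_right _ _⟩
    rcases hred q with h | ⟨q', hq', h⟩
    · have h1 : B q = fun _ => 0 := funext h
      rw [h1]
      simpa using ⟨hC0, min_le_right _ _⟩
    · rw [← h]
      have h2 : (q', y) ∈ Q₁ ×ˢ Icc (-R) R := ⟨hq', abs_le.1 (not_lt.1 hy)⟩
      exact ⟨(hc₁ _ ⟨(q', y), h2, rfl⟩).trans ((le_max_left _ _).trans (le_max_left _ _)),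
        (hc₂ _ ⟨(q', y), h2, rfl⟩).trans ((le_max_right _ _).trans (le_max_left _ _)),
        (min_le_left _ _).trans (hμ _ h2)⟩
  obtain ⟨D, hD0, hD⟩ := det_bdd
  have hS : 0 ≤ D * (C + C * C / μ) := by positivity
  set ε : ℝ := (1 + D * (C + C * C / μ))⁻¹ with hε
  have hε0 : 0 < ε := by positivity
  refine ⟨ε, hε0, fun q z v hv => ?_⟩
  rw [bet_fderiv (hBq q)] at hv
  set τ := et (ε * (z.re - m)) with hτ
  set τ' := deriv et (ε * (z.re - m)) * ε with hτ'
  obtain ⟨hτ0, hτ1⟩ := et_mem' (ε * (z.re - m))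
  have hτ'b : |τ'| ≤ D * ε := by
    rw [hτ', abs_mul, abs_of_pos hε0]
    exact mul_le_mul_of_nonneg_right (hD _) hε0.le
  obtain ⟨k1, k2, k3⟩ := key q z.im
  have hr := congrArg Complex.re hv
  have hi := congrArg Complex.im hv
  simp only [Complex.add_re, Complex.add_im, Complex.real_smul, Complex.mul_re, Complex.mul_im,
    Complex.ofReal_re, Complex.ofReal_im, Complex.zero_re, Complex.zero_im, zero_mul, sub_zero,
    add_zero] at hr hi
  have b1 : |(B q z.im).re| ≤ C := (Complex.abs_re_le_norm _).trans k1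
  have b2 : |(B q z.im).im| ≤ C := (Complex.abs_im_le_norm _).trans k1
  have b3 : |(deriv (B q) z.im).re| ≤ C := (Complex.abs_re_le_norm _).trans k2
  set X := (B q z.im).re with hX
  set Y := (B q z.im).im with hY
  set X' := (deriv (B q) z.im).re with hX'
  set Y' := (deriv (B q) z.im).im with hY'
  have hi' : v.im * (1 + τ * Y') = -(τ' * v.re * Y) := by rw [hτ']; linarith
  have hr' : v.re = -(τ * v.im * X') - τ' * v.re * X := by rw [hτ']; linarith
  have hlow : μ ≤ 1 + τ * Y' := by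
    have e1 : 1 + τ * Y' = (1 - τ) * 1 + τ * (1 + Y') := by ring
    rw [e1]
    have e2 : μ ≤ 1 := min_le_right _ _
    nlinarith
  have him : |v.im| ≤ D * ε * |v.re| * C / μ := by
    rw [le_div_iff₀ hμ0]
    calc |v.im| * μ ≤ |v.im| * (1 + τ * Y') := mul_le_mul_of_nonneg_left hlow (abs_nonneg _)
      _ = |v.im * (1 + τ * Y')| := by rw [abs_mul, abs_of_pos (lt_of_lt_of_le hμ0 hlow)]
      _ = |τ'| * |v.re| * |Y| := by rw [hi', abs_neg, abs_mul, abs_mul]
      _ ≤ D * ε * |v.re| * C := by gcongr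
  have hre : |v.re| ≤ |v.im| * C + D * ε * |v.re| * C := by
    calc |v.re| = |-(τ * v.im * X') - τ' * v.re * X| := by rw [← hr']
      _ ≤ |-(τ * v.im * X')| + |τ' * v.re * X| := abs_sub _ _
      _ = τ * |v.im| * |X'| + |τ'| * |v.re| * |X| := by
          rw [abs_neg, abs_mul, abs_mul, abs_mul, abs_mul, abs_of_nonneg hτ0]
      _ ≤ 1 * |v.im| * C + D * ε * |v.re| * C := by gcongr
      _ = |v.im| * C + D * ε * |v.re| * C := by ring
  have hre2 : |v.re| ≤ (D * (C + C * C / μ)) * ε * |v.re| := by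
    calc |v.re| ≤ |v.im| * C + D * ε * |v.re| * C := hre
      _ ≤ (D * ε * |v.re| * C / μ) * C + D * ε * |v.re| * C := by gcongr
      _ = (D * (C + C * C / μ)) * ε * |v.re| := by ring
  have hlt : (D * (C + C * C / μ)) * ε < 1 := by
    rw [hε, ← div_eq_mul_inv, div_lt_one (by positivity)]
    linarith
  have hv0 : |v.re| = 0 := by
    by_contra hne
    have h1 : 0 < |v.re| := lt_of_le_of_ne (abs_nonneg _) (Ne.symm hne)
    nlinarith
  rw [hv0] at him
  have hvi : |v.im| = 0 := le_antisymm (by simpa using him) (abs_nonneg _)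
  exact Complex.ext (abs_eq_zero.1 hv0) (abs_eq_zero.1 hvi)

variable {P : Type} [NormedAddCommGroup P] [NormedSpace ℝ P] [FiniteDimensional ℝ P]

theorem tubeC {R : ℝ} {z : ℂ} (h : R < |z.im|) : Tube (1 : ℂ) R z := by
  intro r
  refine lt_of_lt_of_le ?_ (Complex.abs_im_le_norm _)
  simpa using h

/-- **Smale's theorem** -/
theorem smale {φ : P → ℂ → ℂ} (h : DFam φ) : DHtp φ (fun _ z => z) := by
  obtain ⟨ψ, hψ, h1, h2⟩ := h.exists_inv
  obtain ⟨K, hK, hKoff⟩ := hψ.supp
  set Q : Set P := Prod.fst '' K with hQ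
  have hQc : IsCompact Q := hK.image continuous_fst
  obtain ⟨R₀, hR₀⟩ := (hK.image continuous_snd).isBounded.exists_norm_le
  set R : ℝ := max R₀ 1 with hR
  have hRpos : 0 < R := lt_of_lt_of_le one_pos (le_max_right _ _)
  have oQ : ∀ p, p ∉ Q → ∀ z, ψ p z = z := fun p hp z => hKoff p z fun h3 => hp ⟨_, h3, rfl⟩
  have oR : ∀ p z, R < ‖z‖ → ψ p z = z := fun p z hz => hKoff p z fun h3 => by
    have := hR₀ z ⟨_, h3, rfl⟩
    exact absurd (this.trans (le_max_left _ _)) (not_le.2 hz)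
  have oQ' : ∀ p, p ∉ Q → ∀ z, φ p z = z := fun p hp z => by
    conv_lhs => rw [← oQ p hp z]
    rw [h2]
  have oR' : ∀ p z, R < ‖z‖ → φ p z = z := fun p z hz => by
    conv_lhs => rw [← oR p z hz]
    rw [h2]
  -- the vector field
  let f : P → ℂ → ℂ := fun p z => fderiv ℝ (fun q : P × ℂ => ψ q.1 q.2) (p, φ p z) (0, 1)
  have hfe : ∀ p z, f p z = fderiv ℝ (ψ p) (φ p z) 1 := fun p z => (BK.fderiv_slice hψ.smooth ..).symm
  have hf : ContDiff ℝ ∞ (fun q : P × ℂ => f q.1 q.2) :=
    ((hψ.smooth.fderiv_right (m := ∞) (by simp)).comp (contDiff_fst.prodMk h.smooth)).clm_apply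
      contDiff_const
  have hfne : ∀ p z, f p z ≠ 0 := fun p z h0 => by
    rw [hfe] at h0
    exact one_ne_zero (hψ.inj p _ _ h0)
  have hfR : ∀ p z, R < ‖z‖ → f p z = 1 := by
    intro p z hz
    rw [hfe, oR' p z hz]
    have : ψ p =ᶠ[𝓝 z] id := by
      filter_upwards [(isOpen_lt continuous_const continuous_norm).mem_nhds hz] with y hy
      exact oR p y hy
    rw [this.fderiv_eq, fderiv_id]
    rfl
  have hfQ : ∀ p, p ∉ Q → ∀ z, f p z = 1 := by
    intro p hp z
    rw [hfe]
    have : ψ p = id := funext (oQ p hp)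
    rw [this, fderiv_id]
    rfl
  obtain ⟨F, hF, hFexp, hFR, hFQ⟩ := exists_log hf hfne hRpos hfR hfQ
  let V : ℝ × P → ℂ → ℂ := fun q z => Complex.exp (((1 - et q.1 : ℝ) : ℂ) * F q.2 z)
  have hetc : ContDiff ℝ ∞ (fun s : ℝ => ((1 - et s : ℝ) : ℂ)) :=
    Complex.ofRealCLM.contDiff.comp (contDiff_const.sub et_smooth)
  have hV : VFam (1 : ℂ) V R := by
    refine ⟨hRpos, ?_, fun q z hz => ?_, fun q => ?_⟩
    · have e1 : ContDiff ℝ ∞ (fun x : (ℝ × P) × ℂ => ((1 - et x.1.1 : ℝ) : ℂ)) :=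
        hetc.comp (contDiff_fst.comp contDiff_fst)
      have e2 : ContDiff ℝ ∞ (fun x : (ℝ × P) × ℂ => F x.1.2 x.2) :=
        hF.comp ((contDiff_snd.comp contDiff_fst).prodMk contDiff_snd)
      exact (e1.mul e2).cexp
    · show Complex.exp (((1 - et q.1 : ℝ) : ℂ) * F q.2 z) = 1
      rw [hFR _ _ hz, mul_zero, Complex.exp_zero]
    · refine nt_exp hRpos (F := fun z => ((1 - et q.1 : ℝ) : ℂ) * F q.2 z) ⟨?_, fun z hz => ?_⟩
      · exact contDiff_const.mul (hF.comp (contDiff_const.prodMk contDiff_id))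
      · show ((1 - et q.1 : ℝ) : ℂ) * F q.2 z = 0
        rw [hFR _ _ hz, mul_zero]
  obtain ⟨W, hW⟩ := hV.exists_wave dirC
  -- special values
  have hW0 : ∀ s p, s ≤ 0 → ∀ z, W (s, p) z = ψ p z := by
    intro s p hs z
    refine wave_unique dirC (hV.slice (s, p)) (hW.orbit (s, p)) (fun z t => ?_) (R := R)
      (fun z hz => ?_) z
    · have e1 : V (s, p) (ψ p (z + t • (1 : ℂ))) = fderiv ℝ (ψ p) (z + t • (1 : ℂ)) 1 := by
        show Complex.exp (((1 - et s : ℝ) : ℂ) * F p _) = _
        rw [et_zero hs, sub_zero, Complex.ofReal_one, one_mul, hFexp, hfe, h2]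
      rw [e1]
      have e2 : HasDerivAt (fun t : ℝ => z + t • (1 : ℂ)) ((1 : ℝ) • (1 : ℂ)) t :=
        ((hasDerivAt_id t).smul_const _).const_add z
      rw [one_smul] at e2
      exact ((hψ.slice p).differentiable (by simp) _).hasFDerivAt.comp_hasDerivAt t e2
    · rw [hW.left _ _ hz, oR]
      exact norm_gt dirC (lt_of_lt_of_le (by linarith) (neg_le_abs _))
  have hWline : ∀ q, (∀ z, V q z = 1) → ∀ z, W q z = z := by
    intro q hq z
    refine wave_unique dirC (hV.slice q) (hW.orbit q) (W' := fun z => z) (fun z t => ?_) (R := R)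
      (fun z hz => hW.left _ _ hz) z
    rw [hq]
    have e2 : HasDerivAt (fun t : ℝ => z + t • (1 : ℂ)) ((1 : ℝ) • (1 : ℂ)) t :=
      ((hasDerivAt_id t).smul_const _).const_add z
    rwa [one_smul] at e2
  have hW1 : ∀ s p, 1 ≤ s → ∀ z, W (s, p) z = z := by
    intro s p hs
    refine hWline _ fun z => ?_
    show Complex.exp (((1 - et s : ℝ) : ℂ) * F p _) = 1
    rw [et_one hs, sub_self, Complex.ofReal_zero, zero_mul, Complex.exp_zero]
  have hWQ : ∀ s p, p ∉ Q → ∀ z, W (s, p) z = z := by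
    intro s p hp
    refine hWline _ fun z => ?_
    show Complex.exp (((1 - et s : ℝ) : ℂ) * F p _) = 1
    rw [hFQ p hp, mul_zero, Complex.exp_zero]
  have hQ₁ : IsCompact (Icc (0 : ℝ) 1 ×ˢ Q) := isCompact_Icc.prod hQc
  have hred : ∀ q, (∀ z, W q z = z) ∨ ∃ q' ∈ Icc (0 : ℝ) 1 ×ˢ Q, W q' = W q := by
    rintro ⟨s, p⟩
    by_cases hp : p ∈ Q
    · rcases le_total s 0 with hs | hs
      · refine Or.inr ⟨(0, p), ⟨⟨le_rfl, zero_le_one⟩, hp⟩, ?_⟩
        funext z
        rw [hW0 0 p le_rfl, hW0 s p hs]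
      · rcases le_total s 1 with hs' | hs'
        · exact Or.inr ⟨(s, p), ⟨⟨hs, hs'⟩, hp⟩, rfl⟩
        · exact Or.inl (hW1 s p hs')
    · exact Or.inl (hWQ s p hp)
  obtain ⟨m₀, hm₀⟩ := hW.out _ hQ₁
  set m : ℝ := max m₀ (R + 1) with hm
  have hmR : R < m := lt_of_lt_of_le (by linarith) (le_max_right _ _)
  have hout : ∀ q z, m ≤ z.re → R < (W q z).re ∧
      ∀ r : ℝ, 0 ≤ r → W q (z + r • (1 : ℂ)) = W q z + r • (1 : ℂ) := by
    intro q z hz
    rcases hred q with h3 | ⟨q', hq', h3⟩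
    · rw [h3]
      refine ⟨by linarith, fun r _ => ?_⟩
      rw [h3]
    · rw [← h3]
      exact hm₀ q' hq' z ((le_max_left _ _).trans hz)
  have hWR : ∀ q z, R < |z.im| → W q z = z := fun q z hz => hW.tube q z (tubeC hz)
  -- the right side
  let c : ℝ → ℂ := fun y => (m : ℂ) + y * Complex.I
  have hcre : ∀ y, (c y).re = m := fun y => by simp [c]
  have hcim : ∀ y, (c y).im = y := fun y => by simp [c]
  have hcs : ContDiff ℝ ∞ c :=
    contDiff_const.add (Complex.ofRealCLM.contDiff.mul contDiff_const)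
  let B : ℝ × P → ℝ → ℂ := fun q y => W q (c y) - c y
  have hB : ContDiff ℝ ∞ (fun x : (ℝ × P) × ℝ => B x.1 x.2) :=
    (hW.smooth.comp (contDiff_fst.prodMk (hcs.comp contDiff_snd))).sub (hcs.comp contDiff_snd)
  have hWB : ∀ q z, m ≤ z.re → W q z = z + B q z.im := by
    intro q z hz
    have e1 := (hout q (c z.im) (by rw [hcre])).2 (z.re - m) (by linarith)
    have e2 : c z.im + (z.re - m) • (1 : ℂ) = z := by
      apply Complex.ext
      · simp [c]
      · simp [c]
    have e3 : (z.re - m) • (1 : ℂ) = z - c z.im := by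
      rw [← e2]
      simp [c]
    rw [e2, e3] at e1
    rw [e1]
    show W q (c z.im) + (z - c z.im) = z + (W q (c z.im) - c z.im)
    ring
  have hBoff : ∀ q y, R < |y| → B q y = 0 := fun q y hy => by
    show W q (c y) - c y = 0
    rw [hWR q _ (by rwa [hcim]), sub_self]
  have hBred : ∀ q, (∀ y, B q y = 0) ∨ ∃ q' ∈ Icc (0 : ℝ) 1 ×ˢ Q, B q' = B q := by
    intro q
    rcases hred q with h3 | ⟨q', hq', h3⟩
    · left
      intro y
      show W q (c y) - c y = 0
      rw [h3, sub_self]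
    · right
      refine ⟨q', hq', ?_⟩
      funext y
      show W q' (c y) - c y = W q (c y) - c y
      rw [h3]
  have hWs : ∀ q, ContDiff ℝ ∞ (W q) := fun q => hW.smooth.comp
    (contDiff_const.prodMk contDiff_id)
  have hBq : ∀ q, ContDiff ℝ ∞ (B q) := fun q => hB.comp (contDiff_const.prodMk contDiff_id)
  have hcd : ∀ y, HasDerivAt c Complex.I y := by
    intro y
    have e1 : HasDerivAt (fun y : ℝ => (m : ℂ) + y * Complex.I) (1 * Complex.I) y :=
      ((hasDerivAt_id y).ofReal_comp.mul_const Complex.I).const_add _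
    rwa [one_mul] at e1
  have hBd : ∀ q y, deriv (B q) y = fderiv ℝ (W q) (c y) Complex.I - Complex.I := by
    intro q y
    have e1 : HasDerivAt (fun y => W q (c y) - c y)
        (fderiv ℝ (W q) (c y) Complex.I - Complex.I) y :=
      (((hWs q).differentiable (by simp) (c y)).hasFDerivAt.comp_hasDerivAt y (hcd y)).sub (hcd y)
    exact e1.deriv
  have hW1' : ∀ q y, fderiv ℝ (W q) (c y) 1 = 1 := by
    intro q y
    have e1 := hW.orbit q (c y) 0
    rw [zero_smul, add_zero, hV.off q _ (norm_gt dirC (lt_of_lt_of_le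
      (hout q (c y) (by rw [hcre])).1 (le_abs_self _)))] at e1
    have e2 : HasDerivAt (fun t : ℝ => c y + t • (1 : ℂ)) ((1 : ℝ) • (1 : ℂ)) 0 :=
      ((hasDerivAt_id (0 : ℝ)).smul_const _).const_add (c y)
    rw [one_smul] at e2
    have e3 : HasFDerivAt (W q) (fderiv ℝ (W q) (c y)) (c y + (0 : ℝ) • (1 : ℂ)) := by
      rw [zero_smul, add_zero]
      exact ((hWs q).differentiable (by simp) (c y)).hasFDerivAt
    exact (e3.comp_hasDerivAt 0 e2).unique e1
  have hBpos : ∀ q y, 0 < 1 + (deriv (B q) y).im := by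
    intro q y
    have e1 : Continuous (fun y => 1 + (deriv (B q) y).im) :=
      continuous_const.add (Complex.continuous_im.comp ((hBq q).continuous_deriv (by simp)))
    refine pos_of_ne e1 (fun y h0 => ?_) (z₀ := R + 1) ?_ y
    · rw [hBd] at h0
      simp only [Complex.sub_im, Complex.I_im, add_sub_cancel] at h0
      have e2 : fderiv ℝ (W q) (c y) (Complex.I -
          (fderiv ℝ (W q) (c y) Complex.I).re • (1 : ℂ)) = 0 := by
        rw [map_sub, map_smul, hW1']
        apply Complex.ext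
        · simp
        · simp [h0]
      have e3 := congrArg Complex.im (hW.inj q _ _ e2)
      simp at e3
    · have e2 : B q =ᶠ[𝓝 (R + 1)] fun _ => 0 := by
        have : ∀ᶠ x in 𝓝 (R + 1), R < |x| :=
          continuousAt_const.eventually_lt continuous_abs.continuousAt (by
            rw [abs_of_pos (by linarith)]
            linarith)
        filter_upwards [this] with x hx using hBoff q x hx
      rw [e2.deriv_eq]
      simp
  obtain ⟨ε, hε, hbi⟩ := exists_beta hB hQ₁ hBoff hBred hBpos m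
  have hbs : ContDiff ℝ ∞ (fun x : (ℝ × P) × ℂ => bet (B x.1) ε m x.2) := by
    have e1 : ContDiff ℝ ∞ (fun x : (ℝ × P) × ℂ => x.2.re) :=
      Complex.reCLM.contDiff.comp contDiff_snd
    have e2 : ContDiff ℝ ∞ (fun x : (ℝ × P) × ℂ => x.2.im) :=
      Complex.imCLM.contDiff.comp contDiff_snd
    exact contDiff_snd.add ((et_smooth.comp (contDiff_const.mul (e1.sub contDiff_const))).smul
      (hB.comp (contDiff_fst.prodMk e2)))
  obtain ⟨N, hN, hN1, hN2⟩ := BK.inv_fam hW.smooth hW.inj hW.bij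
  have hNW : ∀ q z, W q z = z → N q z = z := fun q z hz => by
    have := hN1 q z
    rwa [hz] at this
  refine ⟨fun q z => N q (bet (B q) ε m z), Q ×ˢ closedBall (0 : ℂ) (R + (|m| + 1 / ε) + R),
    hQc.prod (isCompact_closedBall _ _), ?_, fun q z v hv => ?_, fun s p z hz => ?_,
    fun p => ?_, fun p => ?_⟩
  · exact hN.comp (contDiff_fst.prodMk hbs)
  · refine inj_comp (hN.comp (contDiff_const.prodMk contDiff_id))
      (hbs.comp (contDiff_const.prodMk contDiff_id))
      (fun z v hv => inj_of_right (hWs q) (hN.comp (contDiff_const.prodMk contDiff_id))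
        (hN2 q) z v hv) (hbi q) z v hv
  · show N (s, p) (bet (B (s, p)) ε m z) = z
    by_cases hp : p ∈ Q
    · have hz' : R + (|m| + 1 / ε) + R < ‖z‖ := by
        by_contra hcon
        exact hz ⟨hp, by simpa using not_lt.1 hcon⟩
      by_cases hzi : R < |z.im|
      · have e1 : bet (B (s, p)) ε m z = z := by
          rw [bet, hBoff _ _ hzi, smul_zero, add_zero]
        rw [e1]
        exact hNW _ _ (hWR _ _ hzi)
      · have e1 : R + (|m| + 1 / ε) < |z.re| := by
          have := Complex.norm_le_abs_re_add_abs_im z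
          linarith [not_lt.1 hzi]
        have hε' : 0 < 1 / ε := by positivity
        by_cases h0 : 0 ≤ z.re
        · rw [abs_of_nonneg h0] at e1
          have e2 : 1 ≤ ε * (z.re - m) := by
            have e3 : 1 / ε ≤ z.re - m := by linarith [le_abs_self m]
            rwa [div_le_iff₀' hε] at e3
          have e4 : bet (B (s, p)) ε m z = W (s, p) z := by
            rw [bet, et_one e2, one_smul, hWB]
            linarith [le_abs_self m]
          rw [e4, hN1]
        · rw [abs_of_neg (not_le.1 h0)] at e1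
          have e2 : ε * (z.re - m) ≤ 0 := by
            have : z.re - m ≤ 0 := by linarith [not_le.1 h0]
            exact mul_nonpos_of_nonneg_of_nonpos hε.le this
          have e4 : bet (B (s, p)) ε m z = z := by
            rw [bet, et_zero e2, zero_smul, add_zero]
          rw [e4]
          exact hNW _ _ (hW.left _ _ (by
            show z.re < -R
            linarith [abs_nonneg m]))
    · have e1 : bet (B (s, p)) ε m z = z := by
        have : B (s, p) z.im = 0 := by
          show W (s, p) (c z.im) - c z.im = 0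
          rw [hWQ s p hp, sub_self]
        rw [bet, this, smul_zero, add_zero]
      rw [e1]
      exact hNW _ _ (hWQ s p hp z)
  · funext z
    show N (0, p) (bet (B (0, p)) ε m z) = φ p z
    have e1 : bet (B (0, p)) ε m z = z := by
      have : B (0, p) z.im = 0 := by
        show W (0, p) (c z.im) - c z.im = 0
        rw [hW0 0 p le_rfl, oR, sub_self]
        refine norm_gt dirC (lt_of_lt_of_le ?_ (le_abs_self _))
        show R < (c z.im).re
        rwa [hcre]
      rw [bet, this, smul_zero, add_zero]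
    rw [e1]
    have e2 := hN1 (0, p) (φ p z)
    rwa [hW0 0 p le_rfl, h1] at e2
  · funext z
    show N (1, p) (bet (B (1, p)) ε m z) = z
    have e1 : bet (B (1, p)) ε m z = z := by
      have : B (1, p) z.im = 0 := by
        show W (1, p) (c z.im) - c z.im = 0
        rw [hW1 1 p le_rfl, sub_self]
      rw [bet, this, smul_zero, add_zero]
    rw [e1]
    exact hNW _ _ (hW1 1 p le_rfl z)

end Pool.Agent.H822.SM
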