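import Mathlib
import Pool.Agent.H822.SM.Smale
import Pool.Agent.H822.SM.Rinv

/-!
# Submersions `ℝ^{k+2} → ℝ^k` and diffeomorphisms
-/

set_option autoImplicit false

open scoped ContDiff
open Set Filter Topology Function Metric
open Pool.Agent.GR.Flow Pool.Agent.H822.Par
open Pool.Agent.H822.Td (et et_smooth et_zero et_one det_smooth det_off et_deriv)

namespace Pool.Agent.H822.SM

variable {A : Type} [NormedAddCommGroup A] [NormedSpace ℝ A] [FiniteDimensional ℝ A]
  {P : Type} [NormedAddCommGroup P] [NormedSpace ℝ P] [FiniteDimensional ℝ P]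

/-- a smooth family of submersions, equal to the projection off a compact set -/
structure SubFam (F : P → A × ℂ → A) : Prop where
  smooth : ContDiff ℝ ∞ (fun q : P × (A × ℂ) => F q.1 q.2)
  surj : ∀ p z, Surjective (fderiv ℝ (F p) z)
  supp : ∃ K : Set (P × (A × ℂ)), IsCompact K ∧ ∀ p z, (p, z) ∉ K → F p z = z.1

/-- homotopy of families of submersions -/
def SHtp (F F' : P → A × ℂ → A) : Prop :=
  ∃ (G : ℝ × P → A × ℂ → A) (K : Set (P × (A × ℂ))), IsCompact K ∧
    ContDiff ℝ ∞ (fun q : (ℝ × P) × (A × ℂ) => G q.1 q.2) ∧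
    (∀ q z, Surjective (fderiv ℝ (G q) z)) ∧
    (∀ s p z, (p, z) ∉ K → G (s, p) z = z.1) ∧ (∀ p, G (0, p) = F p) ∧ ∀ p, G (1, p) = F' p

omit [FiniteDimensional ℝ A] [FiniteDimensional ℝ P] in
theorem SubFam.slice {F : P → A × ℂ → A} (h : SubFam F) (p : P) : ContDiff ℝ ∞ (F p) :=
  h.smooth.comp (contDiff_const.prodMk contDiff_id)

/-! ### fibrewise maps -/

omit [FiniteDimensional ℝ A] in
theorem fib_inj {c : A → ℂ → ℂ} (hc : ContDiff ℝ ∞ (fun q : A × ℂ => c q.1 q.2))
    (hi : ∀ x h v, fderiv ℝ (c x) h v = 0 → v = 0) (z v : A × ℂ)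
    (hv : fderiv ℝ (fun q : A × ℂ => (q.1, c q.1 q.2)) z v = 0) : v = 0 := by
  have h1 : HasFDerivAt (fun q : A × ℂ => (q.1, c q.1 q.2)) ((ContinuousLinearMap.fst ℝ A ℂ).prod
      (fderiv ℝ (fun q : A × ℂ => c q.1 q.2) z)) z :=
    hasFDerivAt_fst.prodMk (hc.differentiable (by simp) z).hasFDerivAt
  rw [h1.fderiv] at hv
  obtain ⟨a, w⟩ := v
  have ha : a = 0 := congrArg Prod.fst hv
  subst ha
  have h2 : fderiv ℝ (fun q : A × ℂ => c q.1 q.2) z (0, w) = 0 := congrArg Prod.snd hv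
  rw [← BK.fderiv_slice hc (z.1) (z.2) w] at h2
  rw [hi _ _ _ h2]
  rfl

/-- **fibrewise diffeomorphisms are isotopic to the identity** -/
theorem fib_trivial {φ : P → A × ℂ → A × ℂ} (h : DFam φ) (hf : ∀ p z, (φ p z).1 = z.1) :
    DHtp φ (fun _ z => z) := by
  obtain ⟨K, hK, hoff⟩ := h.supp
  let c : P × A → ℂ → ℂ := fun q w => (φ q.1 (q.2, w)).2
  have hcs : ContDiff ℝ ∞ (fun q : (P × A) × ℂ => c q.1 q.2) :=
    contDiff_snd.comp (h.smooth.comp ((contDiff_fst.comp contDiff_fst).prodMk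
      ((contDiff_snd.comp contDiff_fst).prodMk contDiff_snd)))
  have hc : DFam c := by
    refine ⟨hcs, fun q w v hv => ?_, (fun x : P × (A × ℂ) => ((x.1, x.2.1), x.2.2)) '' K,
      hK.image (by fun_prop), fun q w hq => ?_⟩
    · have h1 : HasFDerivAt (c q) ((ContinuousLinearMap.snd ℝ A ℂ).comp
          ((fderiv ℝ (φ q.1) (q.2, w)).comp (ContinuousLinearMap.inr ℝ A ℂ))) w :=
        (ContinuousLinearMap.snd ℝ A ℂ).hasFDerivAt.comp w
          (((h.slice q.1).differentiable (by simp) (q.2, w)).hasFDerivAt.comp w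
            (hasFDerivAt_prodMk_right q.2 w))
      rw [h1.fderiv] at hv
      have h2 : HasFDerivAt (fun z => (φ q.1 z).1) ((ContinuousLinearMap.fst ℝ A ℂ).comp
          (fderiv ℝ (φ q.1) (q.2, w))) (q.2, w) :=
        (ContinuousLinearMap.fst ℝ A ℂ).hasFDerivAt.comp (q.2, w)
          ((h.slice q.1).differentiable (by simp) (q.2, w)).hasFDerivAt
      have h3 : (fun z => (φ q.1 z).1) = fun z => z.1 := funext (hf q.1)
      rw [h3] at h2
      have h4 := h2.unique hasFDerivAt_fst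
      have h5 := congrArg (fun f : A × ℂ →L[ℝ] A => f (0, v)) h4
      have h6 : fderiv ℝ (φ q.1) (q.2, w) (0, v) = 0 := Prod.ext h5 hv
      exact congrArg Prod.snd (h.inj q.1 _ _ h6)
    · have h1 : (q.1, (q.2, w)) ∉ K := fun h1 => hq ⟨_, h1, rfl⟩
      show (φ q.1 (q.2, w)).2 = w
      rw [hoff _ _ h1]
  obtain ⟨C, L, hL, h1, h2, h3, h4, h5⟩ := smale hc
  refine ⟨fun q z => (z.1, C (q.1, (q.2, z.1)) z.2),
    (fun x : (P × A) × ℂ => (x.1.1, (x.1.2, x.2))) '' L, hL.image (by fun_prop), ?_,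
    fun q z v hv => ?_, fun s p z hz => ?_, fun p => ?_, fun p => ?_⟩
  · have e1 : ContDiff ℝ ∞ (fun x : (ℝ × P) × (A × ℂ) => (((x.1.1, (x.1.2, x.2.1)), x.2.2) :
        (ℝ × (P × A)) × ℂ)) :=
      ((contDiff_fst.comp contDiff_fst).prodMk ((contDiff_snd.comp contDiff_fst).prodMk
        (contDiff_fst.comp contDiff_snd))).prodMk (contDiff_snd.comp contDiff_snd)
    exact (contDiff_fst.comp contDiff_snd).prodMk (h1.comp e1)
  · have e1 : ContDiff ℝ ∞ (fun x : A × ℂ => (((q.1, (q.2, x.1)), x.2) :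
        (ℝ × (P × A)) × ℂ)) :=
      (contDiff_const.prodMk (contDiff_const.prodMk contDiff_fst)).prodMk contDiff_snd
    exact fib_inj (c := fun x w => C (q.1, (q.2, x)) w) (h1.comp e1) (fun x w v hv => h2 _ w v hv)
      z v hv
  · show (z.1, C (s, (p, z.1)) z.2) = z
    rw [h3 s (p, z.1) z.2 fun h6 => hz ⟨_, h6, rfl⟩]
  · funext z
    show (z.1, C (0, (p, z.1)) z.2) = φ p z
    rw [h4]
    exact Prod.ext (hf p z).symm rfl
  · funext z
    show (z.1, C (1, (p, z.1)) z.2) = z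
    rw [h5]

/-! ### lifting homotopies of submersions -/

theorem lift_htp {G : ℝ × P → A × ℂ → A} {K : Set (P × (A × ℂ))} (hK : IsCompact K)
    (hG : ContDiff ℝ ∞ (fun q : (ℝ × P) × (A × ℂ) => G q.1 q.2))
    (hsurj : ∀ q z, Surjective (fderiv ℝ (G q) z))
    (hoff : ∀ s p z, (p, z) ∉ K → G (s, p) z = z.1) :
    ∃ χ : ℝ × P → A × ℂ → A × ℂ,
      ContDiff ℝ ∞ (fun q : (ℝ × P) × (A × ℂ) => χ q.1 q.2) ∧
      (∀ q z v, fderiv ℝ (χ q) z v = 0 → v = 0) ∧
      (∀ s p z, (p, z) ∉ K → χ (s, p) z = z) ∧ (∀ p z, χ (0, p) z = z) ∧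
      ∀ p z, G (1, p) (χ (1, p) z) = G (0, p) z := by
  have hproper : ProperSpace (A × ℂ) := FiniteDimensional.proper_real _
  let G' : (ℝ × P) × (A × ℂ) → A := fun x => G (et x.1.1, x.1.2) x.2
  have hG' : ContDiff ℝ ∞ G' :=
    hG.comp (((et_smooth.comp (contDiff_fst.comp contDiff_fst)).prodMk
      (contDiff_snd.comp contDiff_fst)).prodMk contDiff_snd)
  let D : (ℝ × P) × (A × ℂ) → (A × ℂ →L[ℝ] A) := fun x =>
    (fderiv ℝ G' x).comp (ContinuousLinearMap.inr ℝ (ℝ × P) (A × ℂ))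
  have hD : ContDiff ℝ ∞ D := (hG'.fderiv_right (m := ∞) (by simp)).clm_comp contDiff_const
  have hDe : ∀ q z v, D (q, z) v = fderiv ℝ (G (et q.1, q.2)) z v := by
    intro q z v
    have := BK.fderiv_slice (Φ := fun (q : ℝ × P) z => G' (q, z)) hG' q z v
    exact this.symm
  have hDs : ∀ x, Surjective (D x) := by
    rintro ⟨q, z⟩ a
    obtain ⟨v, hv⟩ := hsurj (et q.1, q.2) z a
    exact ⟨v, (hDe q z v).trans hv⟩
  obtain ⟨S, hS, hDS⟩ := exists_rinv hD hDs
  let d : (ℝ × P) × (A × ℂ) → A := fun x => fderiv ℝ G' x ((1, 0), 0)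
  have hd : ContDiff ℝ ∞ d := (hG'.fderiv_right (m := ∞) (by simp)).clm_apply contDiff_const
  have hdd : ∀ s p z, HasDerivAt (fun s => G' ((s, p), z)) (d ((s, p), z)) s := by
    intro s p z
    have h1 : HasDerivAt (fun s : ℝ => (((s, p), z) : (ℝ × P) × (A × ℂ))) ((1, 0), 0) s :=
      ((hasDerivAt_id s).prodMk (hasDerivAt_const s p)).prodMk (hasDerivAt_const s z)
    exact (hG'.differentiable (by simp) ((s, p), z)).hasFDerivAt.comp_hasDerivAt s h1
  have hd0 : ∀ s p z, (p, z) ∉ K → d ((s, p), z) = 0 := by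
    intro s p z hz
    have h1 : (fun s => G' ((s, p), z)) = fun _ => z.1 := funext fun s => hoff _ p z hz
    have h2 := hdd s p z
    rw [h1] at h2
    exact h2.unique (hasDerivAt_const s z.1)
  have hd1 : ∀ s p z, s ∉ Icc (0 : ℝ) 1 → d ((s, p), z) = 0 := by
    intro s p z hs
    have h1 : HasDerivAt (fun s => G' ((s, p), z))
        (deriv et s • fderiv ℝ (fun s => G (s, p) z) (et s) 1) s := by
      have e1 : ContDiff ℝ ∞ (fun s => G (s, p) z) :=
        hG.comp ((contDiff_id.prodMk contDiff_const).prodMk contDiff_const)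
      have e2 : HasDerivAt (fun s => G (s, p) z) (fderiv ℝ (fun s => G (s, p) z) (et s) 1)
          (et s) := by
        rw [fderiv_apply_one_eq_deriv]
        exact (e1.differentiable (by simp) _).hasDerivAt
      exact e2.scomp s (et_deriv s)
    rw [det_off hs, zero_smul] at h1
    exact (hdd s p z).unique h1
  let V : P → ℝ → A × ℂ → A × ℂ := fun p s z => - S ((s, p), z) (d ((s, p), z))
  have hV : ContDiff ℝ ∞ (fun q : P × ℝ × (A × ℂ) => V q.1 q.2.1 q.2.2) := by
    have e1 : ContDiff ℝ ∞ (fun q : P × ℝ × (A × ℂ) => (((q.2.1, q.1), q.2.2) :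
        (ℝ × P) × (A × ℂ))) :=
      ((contDiff_fst.comp contDiff_snd).prodMk contDiff_fst).prodMk
        (contDiff_snd.comp contDiff_snd)
    exact ((hS.comp e1).clm_apply (hd.comp e1)).neg
  have hV0 : ∀ p s z, (p, z) ∉ K → V p s z = 0 := by
    intro p s z hz
    show - S ((s, p), z) (d ((s, p), z)) = 0
    rw [hd0 s p z hz, map_zero, neg_zero]
  have hb : ∀ p, ∃ B : ℝ, ∀ s z, ‖V p s z‖ ≤ B := by
    intro p
    have hc : Continuous (fun x : ℝ × (A × ℂ) => V p x.1 x.2) :=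
      hV.continuous.comp (continuous_const.prodMk continuous_id)
    obtain ⟨B, hB⟩ := ((isCompact_Icc (a := (0 : ℝ)) (b := 1)).prod
      (hK.image continuous_snd)).image hc |>.isBounded.exists_norm_le
    refine ⟨max B 0, fun s z => ?_⟩
    by_cases hs : s ∈ Icc (0 : ℝ) 1
    · by_cases hz : (p, z) ∈ K
      · exact (hB _ ⟨(s, z), ⟨hs, (p, z), hz, rfl⟩, rfl⟩).trans (le_max_left _ _)
      · rw [hV0 p s z hz, norm_zero]
        exact le_max_right _ _
    · have : V p s z = 0 := by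
        show - S ((s, p), z) (d ((s, p), z)) = 0
        rw [hd1 s p z hs, map_zero, neg_zero]
      rw [this, norm_zero]
      exact le_max_right _ _
  obtain ⟨C, hC⟩ := EX.exists_td hV hb 0
  have hVp : ∀ p, ContDiff ℝ ∞ (fun q : ℝ × (A × ℂ) => V p q.1 q.2) := fun p =>
    hV.comp (contDiff_const.prodMk contDiff_id)
  have hCs : ContDiff ℝ ∞ (fun q : (ℝ × P) × (A × ℂ) => C q.1.2 q.1.1 q.2) :=
    hC.smooth.comp ((contDiff_snd.comp contDiff_fst).prodMk
      ((contDiff_fst.comp contDiff_fst).prodMk contDiff_snd))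
  refine ⟨fun q => C q.2 q.1, hCs, fun q z v hv => ?_, fun s p z hz => ?_,
    fun p z => hC.zero p z, fun p z => ?_⟩
  · obtain ⟨C', hC'⟩ := EX.exists_td hV hb q.1
    refine inj_of_right (f := C' q.2 0) (g := C q.2 q.1)
      (hC'.smooth.comp (contDiff_const.prodMk (contDiff_const.prodMk contDiff_id)))
      (hCs.comp (contDiff_const.prodMk contDiff_id)) (fun z => ?_) z v hv
    have h1 := EX.td_uniq (hVp q.2) (hC'.deriv q.2 · (C q.2 q.1 z)) (hC.deriv q.2 · z)
      (t₀ := q.1) (hC'.zero _ _) 0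
    rw [h1, hC.zero]
  · have h1 := EX.td_uniq (hVp p) (hC.deriv p · z) (γ₂ := fun _ => z) (t₀ := 0) (fun s => by
      rw [hV0 p s z hz]
      exact hasDerivAt_const s z) (hC.zero p z) s
    exact h1
  · have h1 : ∀ s, HasDerivAt (fun s => G' ((s, p), C p s z)) 0 s := by
      intro s
      have e1 : HasDerivAt (fun s : ℝ => (((s, p), C p s z) : (ℝ × P) × (A × ℂ)))
          ((1, 0), V p s (C p s z)) s :=
        ((hasDerivAt_id s).prodMk (hasDerivAt_const s p)).prodMk (hC.deriv p s z)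
      have e2 := (hG'.differentiable (by simp) ((s, p), C p s z)).hasFDerivAt.comp_hasDerivAt s e1
      have e3 : fderiv ℝ G' ((s, p), C p s z) ((1, 0), V p s (C p s z)) = 0 := by
        have e4 : (((1, 0), V p s (C p s z)) : (ℝ × P) × (A × ℂ)) =
            ((1, 0), 0) + ContinuousLinearMap.inr ℝ (ℝ × P) (A × ℂ) (V p s (C p s z)) := by
          simp
        rw [e4, map_add]
        show d ((s, p), C p s z) + D ((s, p), C p s z) (V p s (C p s z)) = 0
        show _ + D ((s, p), C p s z) (- S ((s, p), C p s z) (d ((s, p), C p s z))) = 0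
        rw [map_neg, hDS, add_neg_cancel]
      rw [e3] at e2
      exact e2
    have h2 := is_const_of_deriv_eq_zero (fun s => (h1 s).differentiableAt)
      (fun s => (h1 s).deriv) 1 0
    simp only [hC.zero] at h2
    have h3 : G (et 1, p) (C p 1 z) = G (et 0, p) z := h2
    rwa [et_one le_rfl, et_zero le_rfl] at h3

end Pool.Agent.H822.SM
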