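import Mathlib
import Pool.Agent.H822.SM.Sub

/-!
# Each submersion is the projection up to a diffeomorphism
-/

set_option autoImplicit false

open scoped ContDiff
open Set Filter Topology Function Metric
open Pool.Agent.GR.Flow Pool.Agent.H822.Par
open Pool.Agent.H822.Td (et et_smooth et_zero et_one det_smooth det_off et_deriv)

namespace Pool.Agent.H822.SM

variable {A : Type} [NormedAddCommGroup A] [NormedSpace ℝ A] [FiniteDimensional ℝ A]
  {P : Type} [NormedAddCommGroup P] [NormedSpace ℝ P] [FiniteDimensional ℝ P]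

/-- the vector field of a family of submersions -/
theorem exists_field {e : A} {F : P → A × ℂ → A} (hF : SubFam F) :
    ∃ (V : P → A × ℂ → A × ℂ) (R : ℝ), 0 < R ∧
      ContDiff ℝ ∞ (fun q : P × (A × ℂ) => V q.1 q.2) ∧
      (∀ p z, fderiv ℝ (F p) z (V p z) = e) ∧ (∀ p z, R < ‖z‖ → V p z = (e, 0)) ∧
      (∀ p z, R < ‖p‖ → V p z = (e, 0)) ∧ ∀ p z, R < ‖z‖ → F p z = z.1 := by
  obtain ⟨K, hK, hoff⟩ := hF.supp
  let F' : P × (A × ℂ) → A := fun q => F q.1 q.2
  have hF' : ContDiff ℝ ∞ F' := hF.smooth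
  let D : P × (A × ℂ) → (A × ℂ →L[ℝ] A) := fun x =>
    (fderiv ℝ F' x).comp (ContinuousLinearMap.inr ℝ P (A × ℂ))
  have hD : ContDiff ℝ ∞ D := (hF'.fderiv_right (m := ∞) (by simp)).clm_comp contDiff_const
  have hDe : ∀ q z v, D (q, z) v = fderiv ℝ (F q) z v := by
    intro q z v
    exact (BK.fderiv_slice hF.smooth q z v).symm
  have hDs : ∀ x, Surjective (D x) := by
    rintro ⟨q, z⟩ a
    obtain ⟨v, hv⟩ := hF.surj q z a
    exact ⟨v, (hDe q z v).trans hv⟩
  obtain ⟨S, hS, hDS⟩ := exists_rinv hD hDs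
  obtain ⟨ρ₀, hρ₀⟩ := hK.isBounded.exists_norm_le
  set ρ : ℝ := max ρ₀ 1 with hρ
  have hρ1 : 0 < ρ := lt_of_lt_of_le one_pos (le_max_right _ _)
  have hKρ : ∀ x ∈ K, ‖x‖ ≤ ρ := fun x hx => (hρ₀ x hx).trans (le_max_left _ _)
  let χ : ContDiffBump (0 : P × (A × ℂ)) := ⟨ρ, ρ + 1, hρ1, by linarith⟩
  have hχ0 : ∀ x : P × (A × ℂ), ρ + 1 < ‖x‖ → χ x = 0 := fun x hx => χ.zero_of_le_dist (by
    rw [dist_zero_right]; exact hx.le)
  have hχ1 : ∀ x ∈ K, χ x = 1 := fun x hx => χ.one_of_mem_closedBall (by simpa using hKρ x hx)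
  have hDoff : ∀ p z, (p, z) ∉ K → fderiv ℝ (F p) z (e, 0) = e := by
    intro p z hz
    have h1 : F p =ᶠ[𝓝 z] fun z => z.1 := by
      have h2 : ∀ᶠ w in 𝓝 z, (p, w) ∉ K :=
        (Continuous.tendsto (by fun_prop : Continuous fun w : A × ℂ => (p, w)) z).eventually
          (hK.isClosed.isOpen_compl.mem_nhds hz)
      filter_upwards [h2] with w hw using hoff p w hw
    rw [h1.fderiv_eq]
    have h2 : HasFDerivAt (fun z : A × ℂ => z.1) (ContinuousLinearMap.fst ℝ A ℂ) z := hasFDerivAt_fst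
    rw [h2.fderiv]
    rfl
  refine ⟨fun p z => χ (p, z) • S (p, z) e + (1 - χ (p, z)) • (e, 0), ρ + 1, by linarith,
    ?_, fun p z => ?_, fun p z hz => ?_, fun p z hz => ?_, fun p z hz => ?_⟩
  · exact (χ.contDiff.smul (hS.clm_apply contDiff_const)).add
      ((contDiff_const.sub χ.contDiff).smul contDiff_const)
  · rw [map_add, map_smul, map_smul]
    have h1 : fderiv ℝ (F p) z (S (p, z) e) = e := (hDe p z _).symm.trans (hDS (p, z) e)
    rw [h1]
    by_cases hz : (p, z) ∈ K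
    · rw [hχ1 _ hz]
      simp
    · rw [hDoff p z hz, ← add_smul]
      simp
  · have h1 : ρ + 1 < ‖(p, z)‖ := lt_of_lt_of_le hz (norm_snd_le (p, z))
    simp [hχ0 _ h1]
  · have h1 : ρ + 1 < ‖(p, z)‖ := lt_of_lt_of_le hz (norm_fst_le (p, z))
    simp [hχ0 _ h1]
  · refine hoff p z fun h1 => ?_
    have h2 := hKρ _ h1
    have h3 := norm_snd_le (p, z)
    linarith

theorem realize_aux {ξ : A →L[ℝ] ℝ} {e : A} (hd : Dir ξ e) {F : P → A × ℂ → A} (hF : SubFam F) :
    ∃ φ : P → A × ℂ → A × ℂ, DFam φ ∧ ∀ p z, F p (φ p z) = z.1 := by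
  obtain ⟨V, R, hR, hVs, hVF, hVz, hVp, hFR⟩ := exists_field (e := e) hF
  set ξ' : A × ℂ →L[ℝ] ℝ := ξ.comp (ContinuousLinearMap.fst ℝ A ℂ) with hξ'
  have hξe : ∀ z : A × ℂ, ξ' z = ξ z.1 := fun z => rfl
  set e' : A × ℂ := (e, 0) with he'
  have hd' : Dir ξ' e' := ⟨hd.one, fun z => (hd.le z.1).trans (norm_fst_le z)⟩
  have hfam : VFam e' V R := by
    refine ⟨hR, hVs, hVz, fun p γ hγ hb => ?_⟩
    have hproper : ProperSpace (A × ℂ) := FiniteDimensional.proper_real _
    obtain ⟨B, hB⟩ := hb.exists_norm_le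
    obtain ⟨C, hC⟩ := ((isCompact_closedBall (0 : A × ℂ) B).image
      (hF.slice p).continuous).isBounded.exists_norm_le
    have h1 : ∀ t, HasDerivAt (fun t => ξ (F p (γ t))) 1 t := by
      intro t
      have e1 := ((hF.slice p).differentiable (by simp) (γ t)).hasFDerivAt.comp_hasDerivAt t (hγ t)
      have e2 := ξ.hasFDerivAt.comp_hasDerivAt t e1
      rw [hVF, hd.one] at e2
      exact e2
    have h2 : ∀ t, ξ (F p (γ t)) = ξ (F p (γ 0)) + t := by
      intro t
      exact EX.unique_all (X := fun _ => (1 : ℝ)) contDiff_const (t₀ := 0)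
        (γ₂ := fun t : ℝ => ξ (F p (γ 0)) + t) h1 (fun t => (hasDerivAt_id t).const_add _)
        (by simp) t
    have h3 : ∀ t, |ξ (F p (γ t))| ≤ C := fun t => (hd.le _).trans (hC _ ⟨γ t, by
      simpa using hB _ ⟨t, rfl⟩, rfl⟩)
    have h4 := abs_le.1 (h3 (2 * C + 1))
    have h5 := abs_le.1 (h3 0)
    rw [h2] at h4
    linarith [h4.2, h5.1]
  obtain ⟨W, hW⟩ := hfam.exists_wave hd'
  have hWs : ∀ p, ContDiff ℝ ∞ (W p) := fun p => hW.smooth.comp
    (contDiff_const.prodMk contDiff_id)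
  have hline : ∀ z : A × ℂ, ∀ t : ℝ, HasDerivAt (fun t : ℝ => z + t • e') e' t := by
    intro z t
    have := ((hasDerivAt_id t).smul_const e').const_add z
    rwa [one_smul] at this
  -- `F ∘ W` is the projection
  have hFW : ∀ p z, F p (W p z) = z.1 := by
    intro p z
    have h1 : ∀ t : ℝ, HasDerivAt (fun t : ℝ => F p (W p (z + t • e')) - (z + t • e').1) 0 t := by
      intro t
      have e1 := ((hF.slice p).differentiable (by simp) (W p (z + t • e'))).hasFDerivAt.comp_hasDerivAt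
        t (hW.orbit p z t)
      rw [hVF] at e1
      have e2 := (ContinuousLinearMap.fst ℝ A ℂ).hasFDerivAt.comp_hasDerivAt t (hline z t)
      have e3 := e1.sub e2
      have e4 : e - (ContinuousLinearMap.fst ℝ A ℂ) e' = 0 := sub_self e
      rw [e4] at e3
      exact e3
    have h2 := is_const_of_deriv_eq_zero (fun t => (h1 t).differentiableAt)
      (fun t => (h1 t).deriv) 0 (-(R + |ξ z.1| + 1))
    have h3 : ξ' (z + (-(R + |ξ z.1| + 1)) • e') < -R := by
      rw [map_add, map_smul, hd'.one, hξe, smul_eq_mul, mul_one]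
      linarith [le_abs_self (ξ z.1)]
    have h4 : F p (z + (-(R + |ξ z.1| + 1)) • e') = (z + (-(R + |ξ z.1| + 1)) • e').1 :=
      hFR p _ (norm_gt hd' (lt_of_lt_of_le (by linarith) (neg_le_abs _)))
    rw [hW.left p _ h3, h4, sub_self, zero_smul, add_zero, sub_eq_zero] at h2
    exact h2
  have hWline : ∀ p, (∀ z, V p z = e') → ∀ z, W p z = z := by
    intro p hp z
    refine wave_unique hd' (hfam.slice p) (hW.orbit p) (W' := fun z => z) (fun z t => ?_) (R := R)
      (fun z hz => hW.left _ _ hz) z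
    rw [hp]
    exact hline z t
  have hWp : ∀ p, R < ‖p‖ → ∀ z, W p z = z := fun p hp => hWline p fun z => hVp p z hp
  have hproperP : ProperSpace P := FiniteDimensional.proper_real _
  obtain ⟨m₀, hm₀⟩ := hW.out _ (isCompact_closedBall (0 : P) R)
  set m : ℝ := max m₀ (R + 1) with hm
  have hmR : R < m := lt_of_lt_of_le (by linarith) (le_max_right _ _)
  have hout : ∀ p (z : A × ℂ), m ≤ ξ z.1 → R < ξ (W p z).1 ∧
      ∀ r : ℝ, 0 ≤ r → W p (z + r • e') = W p z + r • e' := by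
    intro p z hz
    by_cases hp : ‖p‖ ≤ R
    · exact hm₀ p (by simpa using hp) z ((le_max_left _ _).trans hz)
    · rw [hWp p (not_le.1 hp)]
      refine ⟨by linarith, fun r _ => ?_⟩
      rw [hWp p (not_le.1 hp)]
  have hW1 : ∀ p (z : A × ℂ), m ≤ ξ z.1 → (W p z).1 = z.1 := by
    intro p z hz
    have e1 := hFW p z
    rwa [hFR p _ (norm_gt hd' (lt_of_lt_of_le (hout p z hz).1 (le_abs_self _)))] at e1
  -- the projection to the kernel
  let kr : Submodule ℝ A := LinearMap.ker (ξ : A →ₗ[ℝ] ℝ)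
  let pr : A →L[ℝ] kr := (ContinuousLinearMap.id ℝ A - ξ.smulRight e).codRestrict kr (by
    intro x
    show ξ (x - ξ x • e) = 0
    rw [map_sub, map_smul, hd.one, smul_eq_mul, mul_one, sub_self])
  have hpr : ∀ x, ((pr x : kr) : A) = x - ξ x • e := fun x => rfl
  have hker : ∀ y : kr, ξ (y : A) = 0 := fun y => y.2
  have hprm : ∀ y : kr, pr ((y : A) + m • e) = y := by
    intro y
    apply Subtype.ext
    rw [hpr, map_add, map_smul, hker, hd.one, smul_eq_mul, mul_one, zero_add, add_sub_cancel_right]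
  let b : P × kr → ℂ → ℂ := fun q w => (W q.1 ((q.2 : A) + m • e, w)).2
  have hins : ContDiff ℝ ∞ (fun x : (P × kr) × ℂ => ((x.1.1, ((x.1.2 : A) + m • e, x.2)) :
      P × (A × ℂ))) := by
    have e1 : ContDiff ℝ ∞ (fun x : (P × kr) × ℂ => (x.1.2 : A)) :=
      kr.subtypeL.contDiff.comp (contDiff_snd.comp contDiff_fst)
    exact (contDiff_fst.comp contDiff_fst).prodMk ((e1.add contDiff_const).prodMk contDiff_snd)
  have hξm : ∀ y : kr, ξ ((y : A) + m • e) = m := by
    intro y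
    rw [map_add, map_smul, hker, hd.one, smul_eq_mul, mul_one, zero_add]
  have hWb : ∀ p (y : kr) w, W p ((y : A) + m • e, w) = ((y : A) + m • e, b (p, y) w) := by
    intro p y w
    exact Prod.ext (hW1 p ((y : A) + m • e, w) (hξm y).ge) rfl
  have hWb' : ∀ p (x : A) w, m ≤ ξ x → W p (x, w) = (x, b (p, pr x) w) := by
    intro p x w hx
    have e1 := (hout p ((pr x : A) + m • e, w) (hξm _).ge).2 (ξ x - m) (by linarith)
    have e2 : ((pr x : A) + m • e, w) + (ξ x - m) • e' = (x, w) := by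
      rw [he', hpr]
      apply Prod.ext
      · show x - ξ x • e + m • e + (ξ x - m) • e = x
        rw [sub_smul]
        abel
      · show w + (ξ x - m) • (0 : ℂ) = w
        rw [smul_zero, add_zero]
    rw [e2, hWb] at e1
    rw [e1, he', hpr]
    apply Prod.ext
    · show x - ξ x • e + m • e + (ξ x - m) • e = x
      rw [sub_smul]
      abel
    · show b (p, pr x) w + (ξ x - m) • (0 : ℂ) = b (p, pr x) w
      rw [smul_zero, add_zero]
  have hTube1 : ∀ (x : A) (w : ℂ), R < ‖w‖ → Tube e' R (x, w) := by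
    intro x w hw r
    refine lt_of_lt_of_le hw ?_
    have h1 := norm_snd_le ((x, w) + r • e')
    have h2 : ((x, w) + r • e').2 = w := by simp [he']
    rwa [h2] at h1
  have hTube2 : ∀ (x : A) (w : ℂ), R + R * ‖e‖ < ‖pr x‖ → Tube e' R (x, w) := by
    intro x w hx r
    by_contra hcon
    rw [not_lt] at hcon
    have h1 : ‖x + r • e‖ ≤ R := (norm_fst_le ((x, w) + r • e')).trans hcon
    have h2 : |ξ (x + r • e)| ≤ R := (hd.le _).trans h1
    have h3 : ((pr x : kr) : A) = (x + r • e) - ξ (x + r • e) • e := by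
      rw [hpr, map_add, map_smul, hd.one, smul_eq_mul, mul_one, add_smul]
      abel
    have h4 : ‖pr x‖ ≤ R + R * ‖e‖ := by
      show ‖((pr x : kr) : A)‖ ≤ _
      rw [h3]
      refine (norm_sub_le _ _).trans ?_
      rw [norm_smul, Real.norm_eq_abs]
      gcongr
    linarith
  have hb : DFam b := by
    refine ⟨contDiff_snd.comp (hW.smooth.comp hins), fun q w v hv => ?_,
      closedBall (0 : (P × kr) × ℂ) (R + R * ‖e‖), ?_, fun q w hq => ?_⟩
    · set z : A × ℂ := ((q.2 : A) + m • e, w) with hz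
      have h1 : HasFDerivAt (b q) ((ContinuousLinearMap.snd ℝ A ℂ).comp
          ((fderiv ℝ (W q.1) z).comp (ContinuousLinearMap.inr ℝ A ℂ))) w :=
        (ContinuousLinearMap.snd ℝ A ℂ).hasFDerivAt.comp w
          (((hWs q.1).differentiable (by simp) z).hasFDerivAt.comp w
            (hasFDerivAt_prodMk_right _ w))
      rw [h1.fderiv] at hv
      have h2 : HasFDerivAt (fun z => (W q.1 z).1) ((ContinuousLinearMap.fst ℝ A ℂ).comp
          (fderiv ℝ (W q.1) z)) z :=
        (ContinuousLinearMap.fst ℝ A ℂ).hasFDerivAt.comp z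
          ((hWs q.1).differentiable (by simp) z).hasFDerivAt
      have h3 : (fun z => (W q.1 z).1) =ᶠ[𝓝 z] fun z => z.1 := by
        have h4 : ∀ᶠ z' in 𝓝 z, R < ξ (W q.1 z').1 :=
          continuousAt_const.eventually_lt
            (ξ.continuous.comp (continuous_fst.comp (hWs q.1).continuous)).continuousAt
            (hout q.1 z (hξm _).ge).1
        filter_upwards [h4] with z' hz'
        have h5 := hFW q.1 z'
        rwa [hFR _ _ (norm_gt hd' (lt_of_lt_of_le hz' (le_abs_self _)))] at h5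
      have h4 := (h2.congr_of_eventuallyEq h3.symm).unique hasFDerivAt_fst
      have h5 := congrArg (fun f : A × ℂ →L[ℝ] A => f (0, v)) h4
      have h6 : fderiv ℝ (W q.1) z (0, v) = 0 := Prod.ext h5 hv
      exact congrArg Prod.snd (hW.inj q.1 _ _ h6)
    · have : ProperSpace ((P × kr) × ℂ) := FiniteDimensional.proper_real _
      exact isCompact_closedBall _ _
    · rw [mem_closedBall_zero_iff, not_le, Prod.norm_def, Prod.norm_def, lt_max_iff,
        lt_max_iff] at hq
      have hRe : R ≤ R + R * ‖e‖ := by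
        have := mul_nonneg hR.le (norm_nonneg e)
        linarith
      show (W q.1 ((q.2 : A) + m • e, w)).2 = w
      rcases hq with (hq | hq) | hq
      · rw [hWp _ (lt_of_le_of_lt hRe hq)]
      · rw [hW.tube _ _ (hTube2 _ w (by rw [hprm]; exact hq))]
      · rw [hW.tube _ _ (hTube1 _ w (lt_of_le_of_lt hRe hq))]
  obtain ⟨b', hb', hbb1, hbb2⟩ := hb.exists_inv
  obtain ⟨B, L, hL, hB1, hB2, hB3, hB4, hB5⟩ := smale hb'
  obtain ⟨ρ, hρ⟩ := hL.isBounded.exists_norm_le
  let c : P → A → ℂ → ℂ := fun p x w => B (1 - et (ξ x - m), (p, pr x)) w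
  have hcs : ContDiff ℝ ∞ (fun x : P × (A × ℂ) => c x.1 x.2.1 x.2.2) := by
    have e1 : ContDiff ℝ ∞ (fun x : P × (A × ℂ) => 1 - et (ξ x.2.1 - m)) :=
      contDiff_const.sub (et_smooth.comp ((ξ.contDiff.comp
        (contDiff_fst.comp contDiff_snd)).sub contDiff_const))
    have e2 : ContDiff ℝ ∞ (fun x : P × (A × ℂ) => pr x.2.1) :=
      pr.contDiff.comp (contDiff_fst.comp contDiff_snd)
    exact hB1.comp ((e1.prodMk (contDiff_fst.prodMk e2)).prodMk (contDiff_snd.comp contDiff_snd))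
  have hc1 : ∀ p x w, ρ < ‖p‖ ∨ ρ < ‖pr x‖ ∨ ρ < ‖w‖ → c p x w = w := by
    intro p x w h
    refine hB3 _ _ _ fun h1 => ?_
    have h2 := hρ _ h1
    rw [Prod.norm_def, Prod.norm_def] at h2
    simp only [sup_le_iff] at h2
    rcases h with h | h | h <;> linarith [h2.1.1, h2.1.2, h2.2]
  have hc2 : ∀ p x w, ξ x ≤ m → c p x w = w := by
    intro p x w h
    show B (1 - et (ξ x - m), (p, pr x)) w = w
    rw [et_zero (by linarith), sub_zero]
    exact congrFun (hB5 (p, pr x)) w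
  have hc3 : ∀ p x w, m + 1 ≤ ξ x → c p x w = b' (p, pr x) w := by
    intro p x w h
    show B (1 - et (ξ x - m), (p, pr x)) w = _
    rw [et_one (by linarith), sub_self]
    exact congrFun (hB4 (p, pr x)) w
  let T₁ : ℝ := R + R * ‖e‖ + |ρ|
  let T : ℝ := T₁ + (R + |m| + 1) * ‖e‖
  have hT1 : R ≤ T₁ := by
    have := mul_nonneg hR.le (norm_nonneg e)
    have := abs_nonneg ρ
    simp only [T₁]
    linarith
  have hT2 : R + R * ‖e‖ ≤ T₁ := by
    have := abs_nonneg ρ
    simp only [T₁]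
    linarith
  have hT3 : ρ ≤ T₁ := by
    have := mul_nonneg hR.le (norm_nonneg e)
    have := le_abs_self ρ
    simp only [T₁]
    linarith
  have hT4 : T₁ ≤ T := by
    have : 0 ≤ (R + |m| + 1) * ‖e‖ := by positivity
    simp only [T]
    linarith
  refine ⟨fun p z => W p (z.1, c p z.1 z.2), ⟨?_, fun p z v hv => ?_,
    closedBall (0 : P × (A × ℂ)) T, ?_, fun p z hz => ?_⟩, fun p z => hFW p _⟩
  · exact hW.smooth.comp (contDiff_fst.prodMk ((contDiff_fst.comp contDiff_snd).prodMk hcs))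
  · have e1 : ContDiff ℝ ∞ (fun x : A × ℂ => c p x.1 x.2) :=
      hcs.comp (contDiff_const.prodMk contDiff_id)
    refine inj_comp (g := fun z : A × ℂ => (z.1, c p z.1 z.2)) (hWs p) (contDiff_fst.prodMk e1)
      (hW.inj p) (fun z v hv => ?_) z v hv
    exact fib_inj (c := c p) e1 (fun x w v hv => hB2 _ w v hv) z v hv
  · have : ProperSpace (P × (A × ℂ)) := FiniteDimensional.proper_real _
    exact isCompact_closedBall _ _
  · obtain ⟨x, w⟩ := z
    show W p (x, c p x w) = (x, w)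
    rw [mem_closedBall_zero_iff, not_le, Prod.norm_def, Prod.norm_def, lt_max_iff,
      lt_max_iff] at hz
    by_cases h1 : T₁ < ‖p‖
    · rw [hc1 p x w (Or.inl (lt_of_le_of_lt hT3 h1)), hWp p (lt_of_le_of_lt hT1 h1)]
    by_cases h2 : T₁ < ‖w‖
    · rw [hc1 p x w (Or.inr (Or.inr (lt_of_le_of_lt hT3 h2))),
        hW.tube _ _ (hTube1 x w (lt_of_le_of_lt hT1 h2))]
    by_cases h3 : T₁ < ‖pr x‖
    · rw [hc1 p x w (Or.inr (Or.inl (lt_of_le_of_lt hT3 h3))),
        hW.tube _ _ (hTube2 x w (lt_of_le_of_lt hT2 h3))]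
    rw [not_lt] at h1 h2 h3
    have hx : T < ‖x‖ := by
      rcases hz with hz | hz | hz
      · exact absurd (lt_of_le_of_lt hT4 hz) (not_lt.2 h1)
      · exact hz
      · exact absurd (lt_of_le_of_lt hT4 hz) (not_lt.2 h2)
    have h4 : R + |m| + 1 < |ξ x| := by
      by_contra hcon
      rw [not_lt] at hcon
      have h5 : x = ((pr x : kr) : A) + ξ x • e := by
        rw [hpr, sub_add_cancel]
      have h6 : ‖x‖ ≤ T := by
        calc ‖x‖ = ‖((pr x : kr) : A) + ξ x • e‖ := by rw [← h5]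
          _ ≤ ‖((pr x : kr) : A)‖ + ‖ξ x • e‖ := norm_add_le _ _
          _ ≤ T₁ + (R + |m| + 1) * ‖e‖ := by
              rw [norm_smul, Real.norm_eq_abs]
              gcongr
              exact h3
      linarith
    by_cases h5 : 0 ≤ ξ x
    · rw [abs_of_nonneg h5] at h4
      have h6 : m + 1 ≤ ξ x := by linarith [le_abs_self m]
      rw [hc3 p x w h6, hWb' p x _ (by linarith), hbb2]
    · rw [abs_of_neg (not_le.1 h5)] at h4
      rw [hc2 p x w (by linarith [not_le.1 h5])]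
      exact hW.left _ _ (by
        show ξ x < -R
        linarith [abs_nonneg m])

theorem exists_dir (A : Type) [NormedAddCommGroup A] [NormedSpace ℝ A] [Nontrivial A] :
    ∃ (ξ : A →L[ℝ] ℝ) (e : A), Dir ξ e := by
  obtain ⟨x, hx⟩ := exists_ne (0 : A)
  obtain ⟨g, hg1, hg2⟩ := exists_dual_vector ℝ x (norm_ne_zero_iff.2 hx)
  refine ⟨g, ‖x‖⁻¹ • x, ?_, fun z => ?_⟩
  · rw [map_smul, hg2, smul_eq_mul]
    exact inv_mul_cancel₀ (norm_ne_zero_iff.2 hx)
  · have := g.le_opNorm z
    rwa [hg1, one_mul] at this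

/-- **realisation** -/
theorem realize {F : P → A × ℂ → A} (hF : SubFam F) :
    ∃ φ : P → A × ℂ → A × ℂ, DFam φ ∧ ∀ p z, F p (φ p z) = z.1 := by
  rcases subsingleton_or_nontrivial A with h | h
  · exact ⟨fun _ z => z, DFam.id, fun p z => Subsingleton.elim _ _⟩
  · obtain ⟨ξ, e, hd⟩ := exists_dir A
    exact realize_aux hd hF

end Pool.Agent.H822.SM
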