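import Mathlib
import Pool.Agent.H822.SM.Real

/-!
# Diffeomorphisms of `ℝ^{k+2}` and submersions to `ℝ^k`
-/

set_option autoImplicit false

open scoped ContDiff
open Set Filter Topology Function Metric
open Pool.Agent.H822.Td (et et_smooth et_zero et_one det_smooth det_off et_deriv)

namespace Pool.Agent.H822.SM

variable {A : Type} [NormedAddCommGroup A] [NormedSpace ℝ A] [FiniteDimensional ℝ A]
  {P : Type} [NormedAddCommGroup P] [NormedSpace ℝ P] [FiniteDimensional ℝ P]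

theorem surj_of_inj {M : Type} [NormedAddCommGroup M] [NormedSpace ℝ M] [FiniteDimensional ℝ M]
    {f : M →L[ℝ] M} (h : ∀ v, f v = 0 → v = 0) : Surjective f := by
  have : Surjective (f : M →ₗ[ℝ] M) :=
    LinearMap.surjective_of_injective ((injective_iff_map_eq_zero _).2 h)
  exact this

/-- the projection composed with a diffeomorphism is a submersion -/
theorem fst_surj {f : A × ℂ → A × ℂ} (hf : ContDiff ℝ ∞ f)
    (hi : ∀ z v, fderiv ℝ f z v = 0 → v = 0) (z : A × ℂ) :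
    Surjective (fderiv ℝ (fun z => (f z).1) z) := by
  intro a
  obtain ⟨v, hv⟩ := surj_of_inj (hi z) (a, 0)
  refine ⟨v, ?_⟩
  have h2 : HasFDerivAt (fun z => (f z).1) ((ContinuousLinearMap.fst ℝ A ℂ).comp
      (fderiv ℝ f z)) z :=
    (ContinuousLinearMap.fst ℝ A ℂ).hasFDerivAt.comp z
      (hf.differentiable (by simp) z).hasFDerivAt
  rw [h2.fderiv]
  show (fderiv ℝ f z v).1 = a
  rw [hv]

omit [FiniteDimensional ℝ P] in
theorem sub_of_dif {φ : P → A × ℂ → A × ℂ} (h : DFam φ) : SubFam fun p z => (φ p z).1 := by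
  obtain ⟨K, hK, hoff⟩ := h.supp
  refine ⟨contDiff_fst.comp h.smooth, fun p z => fst_surj (h.slice p) (h.inj p) z, K, hK,
    fun p z hz => ?_⟩
  show (φ p z).1 = z.1
  rw [hoff p z hz]

/-- inverses of homotopies -/
theorem htp_inv {M : Type} [NormedAddCommGroup M] [NormedSpace ℝ M] [FiniteDimensional ℝ M]
    {Φ : ℝ × P → M → M} {K : Set (P × M)} (hK : IsCompact K)
    (h1 : ContDiff ℝ ∞ (fun q : (ℝ × P) × M => Φ q.1 q.2))
    (h2 : ∀ q z v, fderiv ℝ (Φ q) z v = 0 → v = 0)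
    (h3 : ∀ s p z, (p, z) ∉ K → Φ (s, p) z = z) :
    ∃ Ψ : ℝ × P → M → M, ContDiff ℝ ∞ (fun q : (ℝ × P) × M => Ψ q.1 q.2) ∧
      (∀ q z v, fderiv ℝ (Ψ q) z v = 0 → v = 0) ∧ (∀ s p z, (p, z) ∉ K → Ψ (s, p) z = z) ∧
      (∀ q z, Ψ q (Φ q z) = z) ∧ ∀ q z, Φ q (Ψ q z) = z := by
  have hb : ∀ q, Bijective (Φ q) := fun q => (dfam_of_htp hK h1 h2 h3 q.1).bij q.2
  obtain ⟨Ψ, hΨ, e1, e2⟩ := BK.inv_fam h1 h2 hb
  refine ⟨Ψ, hΨ, fun q z v hv => inj_of_right (h1.comp (contDiff_const.prodMk contDiff_id))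
    (hΨ.comp (contDiff_const.prodMk contDiff_id)) (e2 q) z v hv, fun s p z hz => ?_, e1, e2⟩
  have e3 := e1 (s, p) z
  rwa [h3 s p z hz] at e3

/-- homotopic diffeomorphisms give homotopic submersions -/
theorem shtp_of_dhtp {φ φ' ψ ψ' : P → A × ℂ → A × ℂ} (hφ : DFam φ) (hφ' : DFam φ')
    (h1 : ∀ p z, ψ p (φ p z) = z) (h1' : ∀ p z, ψ' p (φ' p z) = z) (h : DHtp φ φ') :
    SHtp (fun p z => (ψ p z).1) (fun p z => (ψ' p z).1) := by
  obtain ⟨Φ, K, hK, e1, e2, e3, e4, e5⟩ := h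
  obtain ⟨Ψ, g1, g2, g3, g4, g5⟩ := htp_inv hK e1 e2 e3
  refine ⟨fun q z => (Ψ q z).1, K, hK, contDiff_fst.comp g1, fun q z =>
    fst_surj (g1.comp (contDiff_const.prodMk contDiff_id)) (g2 q) z, fun s p z hz => ?_,
    fun p => ?_, fun p => ?_⟩
  · show (Ψ (s, p) z).1 = z.1
    rw [g3 s p z hz]
  · funext z
    obtain ⟨y, rfl⟩ := (hφ.bij p).2 z
    show (Ψ (0, p) (φ p y)).1 = (ψ p (φ p y)).1
    rw [h1, ← e4, g4]
  · funext z
    obtain ⟨y, rfl⟩ := (hφ'.bij p).2 z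
    show (Ψ (1, p) (φ' p y)).1 = (ψ' p (φ' p y)).1
    rw [h1', ← e5, g4]

/-- homotopic submersions come from homotopic diffeomorphisms -/
theorem dhtp_of_shtp {φ φ' ψ ψ' : P → A × ℂ → A × ℂ} (hφ : DFam φ) (hφ' : DFam φ')
    (hψ' : DFam ψ') (h1 : ∀ p z, ψ p (φ p z) = z)
    (h2' : ∀ p z, φ' p (ψ' p z) = z)
    (h : SHtp (fun p z => (ψ p z).1) (fun p z => (ψ' p z).1)) : DHtp φ φ' := by
  obtain ⟨G, K, hK, e1, e2, e3, e4, e5⟩ := h
  obtain ⟨χ, c1, c2, c3, c4, c5⟩ := lift_htp hK e1 e2 e3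
  have hχ1 : DFam fun p => χ (1, p) := dfam_of_htp hK c1 c2 c3 1
  have hθ : DFam fun p z => ψ' p (χ (1, p) (φ p z)) := hψ'.comp (hχ1.comp hφ)
  have hfib : ∀ p z, (ψ' p (χ (1, p) (φ p z))).1 = z.1 := by
    intro p z
    have g1 := c5 p (φ p z)
    rw [e5, e4] at g1
    have g2 : (ψ' p (χ (1, p) (φ p z))).1 = (ψ p (φ p z)).1 := g1
    rw [g2, h1]
  obtain ⟨Θ, L, hL, t1, t2, t3, t4, t5⟩ := fib_trivial hθ hfib
  obtain ⟨κ, k1, k2, k3, k4, k5⟩ := htp_inv hK c1 c2 c3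
  obtain ⟨K', hK', hoff'⟩ := hφ'.supp
  have hφ's : ContDiff ℝ ∞ (fun q : P × (A × ℂ) => φ' q.1 q.2) := hφ'.smooth
  have hrev : ContDiff ℝ ∞ (fun q : (ℝ × P) × (A × ℂ) => (((1 - q.1.1, q.1.2), q.2) :
      (ℝ × P) × (A × ℂ))) :=
    ((contDiff_const.sub (contDiff_fst.comp contDiff_fst)).prodMk
      (contDiff_snd.comp contDiff_fst)).prodMk contDiff_snd
  have s2 : ContDiff ℝ ∞ (fun q : (ℝ × P) × (A × ℂ) => φ' q.1.2 (Θ q.1 q.2)) :=
    hφ's.comp ((contDiff_snd.comp contDiff_fst).prodMk t1)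
  have s3 : ContDiff ℝ ∞ (fun q : (ℝ × P) × (A × ℂ) => κ (1 - q.1.1, q.1.2) q.2) :=
    k1.comp hrev
  refine ⟨fun q z => κ (1 - q.1, q.2) (φ' q.2 (Θ q z)), K ∪ (K' ∪ L), hK.union (hK'.union hL),
    ?_, fun q z v hv => ?_, fun s p z hz => ?_, fun p => ?_, fun p => ?_⟩
  · exact s3.comp (contDiff_fst.prodMk s2)
  · refine inj_comp (f := κ (1 - q.1, q.2)) (g := fun z => φ' q.2 (Θ q z))
      (k1.comp (contDiff_const.prodMk contDiff_id)) (s2.comp (contDiff_const.prodMk contDiff_id))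
      (k2 _) (fun z v hv => ?_) z v hv
    exact inj_comp (f := φ' q.2) (g := Θ q) (hφ'.slice q.2)
      (t1.comp (contDiff_const.prodMk contDiff_id)) (hφ'.inj q.2) (t2 q) z v hv
  · rw [mem_union, mem_union, not_or, not_or] at hz
    show κ (1 - s, p) (φ' p (Θ (s, p) z)) = z
    rw [t3 s p z hz.2.2, hoff' p z hz.2.1, k3 _ p z hz.1]
  · funext z
    show κ (1 - 0, p) (φ' p (Θ (0, p) z)) = φ p z
    rw [t4, h2', sub_zero, k4]
  · funext z
    show κ (1 - 1, p) (φ' p (Θ (1, p) z)) = φ' p z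
    rw [t5, sub_self]
    have := k4 (0, p) (φ' p z)
    rwa [c4] at this

/-- **the criterion** -/
theorem criterion {φ φ' : P → A × ℂ → A × ℂ} (hφ : DFam φ) (hφ' : DFam φ')
    (h : ∀ p z (w : A →L[ℝ] ℝ) (t : ℝ), 0 ≤ t →
      fderiv ℝ (fun z => w (φ p z).1) z = -(t • fderiv ℝ (fun z => w (φ' p z).1) z) → w = 0) :
    DHtp φ φ' := by
  obtain ⟨ψ, hψ, h1, h2⟩ := hφ.exists_inv
  obtain ⟨ψ', hψ', h1', h2'⟩ := hφ'.exists_inv
  obtain ⟨K, hK, hoff⟩ := hφ.supp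
  obtain ⟨K', hK', hoff'⟩ := hφ'.supp
  have hd : ∀ (f : A × ℂ → A × ℂ), ContDiff ℝ ∞ f → ∀ z, HasFDerivAt (fun z => (f z).1)
      ((ContinuousLinearMap.fst ℝ A ℂ).comp (fderiv ℝ f z)) z := fun f hf z =>
    (ContinuousLinearMap.fst ℝ A ℂ).hasFDerivAt.comp z
      (hf.differentiable (by simp) z).hasFDerivAt
  have hsh : SHtp (fun p z => (φ p z).1) (fun p z => (φ' p z).1) := by
    refine ⟨fun q z => (1 - et q.1) • (φ q.2 z).1 + et q.1 • (φ' q.2 z).1, K ∪ K',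
      hK.union hK', ?_, fun q z => ?_, fun s p z hz => ?_, fun p => ?_, fun p => ?_⟩
    · have e0 : ContDiff ℝ ∞ (fun x : (ℝ × P) × (A × ℂ) => ((x.1.2, x.2) : P × (A × ℂ))) :=
        (contDiff_snd.comp contDiff_fst).prodMk contDiff_snd
      have e1 : ContDiff ℝ ∞ (fun x : (ℝ × P) × (A × ℂ) => (φ x.1.2 x.2).1) :=
        contDiff_fst.comp (hφ.smooth.comp e0)
      have e2 : ContDiff ℝ ∞ (fun x : (ℝ × P) × (A × ℂ) => (φ' x.1.2 x.2).1) :=
        contDiff_fst.comp (hφ'.smooth.comp e0)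
      have e3 : ContDiff ℝ ∞ (fun x : (ℝ × P) × (A × ℂ) => et x.1.1) :=
        et_smooth.comp (contDiff_fst.comp contDiff_fst)
      exact ((contDiff_const.sub e3).smul e1).add (e3.smul e2)
    · obtain ⟨ht0, ht1⟩ := SM.et_mem' q.1
      set τ := et q.1 with hτ
      have e1 := hd (φ q.2) (hφ.slice q.2) z
      have e2 := hd (φ' q.2) (hφ'.slice q.2) z
      have e3 : HasFDerivAt (fun z => (1 - τ) • (φ q.2 z).1 + τ • (φ' q.2 z).1)
          ((1 - τ) • ((ContinuousLinearMap.fst ℝ A ℂ).comp (fderiv ℝ (φ q.2) z)) +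
            τ • ((ContinuousLinearMap.fst ℝ A ℂ).comp (fderiv ℝ (φ' q.2) z))) z :=
        (e1.const_smul (1 - τ)).add (e2.const_smul τ)
      rw [e3.fderiv]
      set D := (1 - τ) • ((ContinuousLinearMap.fst ℝ A ℂ).comp (fderiv ℝ (φ q.2) z)) +
            τ • ((ContinuousLinearMap.fst ℝ A ℂ).comp (fderiv ℝ (φ' q.2) z)) with hD
      by_contra hns
      -- a functional which vanishes on the range
      have hr : LinearMap.range (D : A × ℂ →ₗ[ℝ] A) < ⊤ := by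
        rw [lt_top_iff_ne_top]
        intro htop
        exact hns (LinearMap.range_eq_top.1 htop)
      obtain ⟨w₀, hw₀, hw₀'⟩ := Submodule.exists_le_ker_of_lt_top _ hr
      let w : A →L[ℝ] ℝ := LinearMap.toContinuousLinearMap w₀
      have hw0 : w ≠ 0 := by
        intro h0
        apply hw₀
        ext a
        exact congrArg (fun f : A →L[ℝ] ℝ => f a) h0
      have hwD : ∀ v, w (D v) = 0 := fun v => hw₀' ⟨v, rfl⟩
      have g1 : fderiv ℝ (fun z => w (φ q.2 z).1) z =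
          w.comp ((ContinuousLinearMap.fst ℝ A ℂ).comp (fderiv ℝ (φ q.2) z)) :=
        (w.hasFDerivAt.comp z e1).fderiv
      have g2 : fderiv ℝ (fun z => w (φ' q.2 z).1) z =
          w.comp ((ContinuousLinearMap.fst ℝ A ℂ).comp (fderiv ℝ (φ' q.2) z)) :=
        (w.hasFDerivAt.comp z e2).fderiv
      have g3 : ∀ v, (1 - τ) * w (fderiv ℝ (φ q.2) z v).1 +
          τ * w (fderiv ℝ (φ' q.2) z v).1 = 0 := by
        intro v
        have := hwD v
        rw [hD] at this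
        simpa using this
      by_cases hτ1 : τ = 1
      · apply hw0
        ext a
        obtain ⟨v, hv⟩ := surj_of_inj (hφ'.inj q.2 z) (a, 0)
        have := g3 v
        rw [hτ1, hv] at this
        simpa using this
      · have h1τ : 0 < 1 - τ := by
          have := lt_of_le_of_ne ht1 hτ1
          linarith
        apply hw0
        refine h q.2 z w (τ / (1 - τ)) (div_nonneg ht0 h1τ.le) ?_
        rw [g1, g2]
        refine ContinuousLinearMap.ext fun v => ?_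
        show w (fderiv ℝ (φ q.2) z v).1 = -(τ / (1 - τ) * w (fderiv ℝ (φ' q.2) z v).1)
        have := g3 v
        field_simp
        linarith
    · rw [mem_union, not_or] at hz
      show (1 - et s) • (φ p z).1 + et s • (φ' p z).1 = z.1
      rw [hoff p z hz.1, hoff' p z hz.2, ← add_smul]
      simp
    · funext z
      show (1 - et 0) • (φ p z).1 + et 0 • (φ' p z).1 = (φ p z).1
      rw [et_zero le_rfl]
      simp
    · funext z
      show (1 - et 1) • (φ p z).1 + et 1 • (φ' p z).1 = (φ' p z).1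
      rw [et_one le_rfl]
      simp
  -- the inverses are homotopic
  have hinv : DHtp ψ ψ' := dhtp_of_shtp (ψ := φ) (ψ' := φ') hψ hψ' hφ' h2 h1' hsh
  obtain ⟨Φ, L, hL, e1, e2, e3, e4, e5⟩ := hinv
  obtain ⟨Ψ, g1, g2, g3, g4, g5⟩ := htp_inv hL e1 e2 e3
  refine ⟨Ψ, L, hL, g1, g2, g3, fun p => ?_, fun p => ?_⟩
  · funext z
    obtain ⟨y, rfl⟩ := (hψ.bij p).2 z
    rw [h2, ← e4, g4]
  · funext z
    obtain ⟨y, rfl⟩ := (hψ'.bij p).2 z
    rw [h2', ← e5, g4]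

end Pool.Agent.H822.SM
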