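import Mathlib
import Pool.Agent.H822.SM.Main

/-!
# Families of diffeomorphisms which move the points parallel to a line or to a plane
-/

set_option autoImplicit false

open scoped ContDiff
open Set Filter Topology Function Metric
open Pool.Agent.H822.Td (et et_smooth et_zero et_one det_smooth det_off et_deriv)

namespace Pool.Agent.H822.SM

section defs

variable {E : Type} [NormedAddCommGroup E] [NormedSpace ℝ E]
  {P : Type} [NormedAddCommGroup P] [NormedSpace ℝ P]

/-- homotopies to the identity through maps with the property `A` -/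
def NHtp (A : (E → E) → Prop) (φ : P → E → E) : Prop :=
  ∃ (Φ : ℝ × P → E → E) (K : Set (P × E)), IsCompact K ∧
    ContDiff ℝ ∞ (fun q : (ℝ × P) × E => Φ q.1 q.2) ∧
    (∀ q z v, fderiv ℝ (Φ q) z v = 0 → v = 0) ∧
    (∀ s p z, (p, z) ∉ K → Φ (s, p) z = z) ∧ (∀ p, Φ (0, p) = φ p) ∧
    (∀ p, Φ (1, p) = fun z => z) ∧ ∀ q, A (Φ q)

/-- the points are moved parallel to `V` -/
def ParM (V : Submodule ℝ E) (g : E → E) : Prop := ∀ x, g x - x ∈ V

end defs

section fib

variable {A : Type} [NormedAddCommGroup A] [NormedSpace ℝ A] [FiniteDimensional ℝ A]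
  {P : Type} [NormedAddCommGroup P] [NormedSpace ℝ P] [FiniteDimensional ℝ P]

/-- fibrewise diffeomorphisms are isotopic to the identity, through fibrewise diffeomorphisms -/
theorem fib_trivial' {φ : P → A × ℂ → A × ℂ} (h : DFam φ) (hf : ∀ p z, (φ p z).1 = z.1) :
    NHtp (fun g => ∀ z : A × ℂ, (g z).1 = z.1) φ := by
  obtain ⟨K, hK, hoff⟩ := h.supp
  let c : P × A → ℂ → ℂ := fun q w => (φ q.1 (q.2, w)).2
  have hcs : ContDiff ℝ ∞ (fun q : (P × A) × ℂ => c q.1 q.2) :=
    contDiff_snd.comp (h.smooth.comp ((contDiff_fst.comp contDiff_fst).prodMk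
      ((contDiff_snd.comp contDiff_fst).prodMk contDiff_snd)))
  have hc : DFam c := by
    refine ⟨hcs, fun q w v hv => ?_, (fun x : P × (A × ℂ) => ((x.1, x.2.1), x.2.2)) '' K,
      hK.image (by fun_prop), fun q w hq => ?_⟩
    · have h1 : HasFDerivAt (c q) ((ContinuousLinearMap.snd ℝ A ℂ).comp
          ((fderiv ℝ (φ q.1) (q.2, w)).comp (ContinuousLinearMap.inr ℝ A ℂ))) w :=
        (ContinuousLinearMap.snd ℝ A ℂ).hasFDerivAt.comp w
          (((h.slice q.1).differentiable (by simp) (q.2, w)).hasFDerivAt.comp w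
            (hasFDerivAt_prodMk_right q.2 w))
      rw [h1.fderiv] at hv
      have h2 : HasFDerivAt (fun z => (φ q.1 z).1) ((ContinuousLinearMap.fst ℝ A ℂ).comp
          (fderiv ℝ (φ q.1) (q.2, w))) (q.2, w) :=
        (ContinuousLinearMap.fst ℝ A ℂ).hasFDerivAt.comp (q.2, w)
          ((h.slice q.1).differentiable (by simp) (q.2, w)).hasFDerivAt
      have h3 : (fun z => (φ q.1 z).1) = fun z => z.1 := funext (hf q.1)
      rw [h3] at h2
      have h4 := h2.unique hasFDerivAt_fst
      have h5 := congrArg (fun f : A × ℂ →L[ℝ] A => f (0, v)) h4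
      have h6 : fderiv ℝ (φ q.1) (q.2, w) (0, v) = 0 := Prod.ext h5 hv
      exact congrArg Prod.snd (h.inj q.1 _ _ h6)
    · have h1 : (q.1, (q.2, w)) ∉ K := fun h1 => hq ⟨_, h1, rfl⟩
      show (φ q.1 (q.2, w)).2 = w
      rw [hoff _ _ h1]
  obtain ⟨C, L, hL, h1, h2, h3, h4, h5⟩ := smale hc
  refine ⟨fun q z => (z.1, C (q.1, (q.2, z.1)) z.2),
    (fun x : (P × A) × ℂ => (x.1.1, (x.1.2, x.2))) '' L, hL.image (by fun_prop), ?_,
    fun q z v hv => ?_, fun s p z hz => ?_, fun p => ?_, fun p => ?_, fun q z => rfl⟩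
  · have e1 : ContDiff ℝ ∞ (fun x : (ℝ × P) × (A × ℂ) => (((x.1.1, (x.1.2, x.2.1)), x.2.2) :
        (ℝ × (P × A)) × ℂ)) :=
      ((contDiff_fst.comp contDiff_fst).prodMk ((contDiff_snd.comp contDiff_fst).prodMk
        (contDiff_fst.comp contDiff_snd))).prodMk (contDiff_snd.comp contDiff_snd)
    exact (contDiff_fst.comp contDiff_snd).prodMk (h1.comp e1)
  · have e1 : ContDiff ℝ ∞ (fun x : A × ℂ => (((q.1, (q.2, x.1)), x.2) :
        (ℝ × (P × A)) × ℂ)) :=
      (contDiff_const.prodMk (contDiff_const.prodMk contDiff_fst)).prodMk contDiff_snd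
    exact fib_inj (c := fun x w => C (q.1, (q.2, x)) w) (h1.comp e1) (fun x w v hv => h2 _ w v hv)
      z v hv
  · show (z.1, C (s, (p, z.1)) z.2) = z
    rw [h3 s (p, z.1) z.2 fun h6 => hz ⟨_, h6, rfl⟩]
  · funext z
    show (z.1, C (0, (p, z.1)) z.2) = φ p z
    rw [h4]
    exact Prod.ext (hf p z).symm rfl
  · funext z
    show (z.1, C (1, (p, z.1)) z.2) = z
    rw [h5]

end fib

section par

variable {E : Type} [NormedAddCommGroup E] [NormedSpace ℝ E] [FiniteDimensional ℝ E]
  {P : Type} [NormedAddCommGroup P] [NormedSpace ℝ P] [FiniteDimensional ℝ P]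

omit [FiniteDimensional ℝ E] in
theorem conj_fderiv {A : Type} [NormedAddCommGroup A] [NormedSpace ℝ A] (e : A ≃L[ℝ] E)
    {f : E → E} (hf : ContDiff ℝ ∞ f) (z v : A) :
    fderiv ℝ (fun z => e.symm (f (e z))) z v = e.symm (fderiv ℝ f (e z) (e v)) := by
  have h1 : HasFDerivAt (fun z => e.symm (f (e z)))
      ((e.symm : E →L[ℝ] A).comp ((fderiv ℝ f (e z)).comp (e : A →L[ℝ] E))) z :=
    e.symm.hasFDerivAt.comp z
      ((hf.differentiable (by simp) (e z)).hasFDerivAt.comp z e.hasFDerivAt)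
  rw [h1.fderiv]
  rfl

omit [FiniteDimensional ℝ E] in
theorem plane_trivial {A : Type} [NormedAddCommGroup A] [NormedSpace ℝ A] [FiniteDimensional ℝ A]
    (e : (A × ℂ) ≃L[ℝ] E) {V : Submodule ℝ E} (hV : ∀ x, x ∈ V ↔ (e.symm x).1 = 0)
    {φ : P → E → E} (h : DFam φ) (hp : ∀ p, ParM V (φ p)) : NHtp (ParM V) φ := by
  obtain ⟨K, hK, hoff⟩ := h.supp
  have hφ' : DFam fun p z => e.symm (φ p (e z)) := by
    refine ⟨e.symm.contDiff.comp (h.smooth.comp (contDiff_fst.prodMk
      (e.contDiff.comp contDiff_snd))), fun p z v hv => ?_,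
      (fun x : P × E => (x.1, e.symm x.2)) '' K, hK.image (by fun_prop), fun p z hz => ?_⟩
    · rw [conj_fderiv e (h.slice p)] at hv
      have h1 : fderiv ℝ (φ p) (e z) (e v) = 0 := by simpa using hv
      simpa using h.inj p _ _ h1
    · have h1 : (p, e z) ∉ K := fun h1 => hz ⟨_, h1, by simp⟩
      show e.symm (φ p (e z)) = z
      rw [hoff _ _ h1, e.symm_apply_apply]
  have hf : ∀ p z, (e.symm (φ p (e z))).1 = z.1 := by
    intro p z
    have h1 := (hV _).1 (hp p (e z))
    rw [map_sub, e.symm_apply_apply, Prod.fst_sub, sub_eq_zero] at h1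
    exact h1
  obtain ⟨Φ, L, hL, h1, h2, h3, h4, h5, h6⟩ := fib_trivial' hφ' hf
  refine ⟨fun q x => e (Φ q (e.symm x)), (fun x : P × (A × ℂ) => (x.1, e x.2)) '' L,
    hL.image (by fun_prop), ?_, fun q z v hv => ?_, fun s p z hz => ?_, fun p => ?_, fun p => ?_,
    fun q x => ?_⟩
  · exact e.contDiff.comp (h1.comp (contDiff_fst.prodMk (e.symm.contDiff.comp contDiff_snd)))
  · have e1 := conj_fderiv e.symm (f := Φ q) (h1.comp (contDiff_const.prodMk contDiff_id)) z v
    simp only [ContinuousLinearEquiv.symm_symm] at e1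
    rw [e1] at hv
    have e2 : fderiv ℝ (Φ q) (e.symm z) (e.symm v) = 0 := by simpa using hv
    simpa using h2 q _ _ e2
  · show e (Φ (s, p) (e.symm z)) = z
    rw [h3 s p _ fun h7 => hz ⟨_, h7, by simp⟩, e.apply_symm_apply]
  · funext z
    show e (Φ (0, p) (e.symm z)) = φ p z
    rw [h4]
    simp
  · funext z
    show e (Φ (1, p) (e.symm z)) = z
    rw [h5]
    simp
  · show e (Φ q (e.symm x)) - x ∈ V
    rw [hV, map_sub, e.symm_apply_apply, Prod.fst_sub, h6, sub_self]

/-- the straight line homotopy, for parallel maps along a line -/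
theorem line_trivial {V : Submodule ℝ E} (e : E) (he : ∀ w ∈ V, ∃ c : ℝ, w = c • e)
    {φ : P → E → E} (h : DFam φ) (hp : ∀ p, ParM V (φ p)) : NHtp (ParM V) φ := by
  obtain ⟨K, hK, hoff⟩ := h.supp
  have hs : ∀ τ : ℝ, ∀ p x v, fderiv ℝ (fun x => x + (1 - τ) • (φ p x - x)) x v =
      v + (1 - τ) • (fderiv ℝ (φ p) x v - v) := by
    intro τ p x v
    have h1 : HasFDerivAt (fun x => x + (1 - τ) • (φ p x - x)) (ContinuousLinearMap.id ℝ E +
        (1 - τ) • (fderiv ℝ (φ p) x - ContinuousLinearMap.id ℝ E)) x :=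
      (hasFDerivAt_id x).add ((((h.slice p).differentiable (by simp) x).hasFDerivAt.sub
        (hasFDerivAt_id x)).const_smul (1 - τ))
    rw [h1.fderiv]
    rfl
  have hV : ∀ p x v, fderiv ℝ (φ p) x v - v ∈ V := by
    intro p x v
    have hcl : IsClosed (V : Set E) := Submodule.closed_of_finiteDimensional V
    have h1 : HasDerivAt (fun t : ℝ => φ p (x + t • v) - (x + t • v))
        (fderiv ℝ (φ p) x v - v) 0 := by
      have e1 : HasDerivAt (fun t : ℝ => x + t • v) v 0 := by
        have := ((hasDerivAt_id (0 : ℝ)).smul_const v).const_add x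
        rwa [one_smul] at this
      have e2 : HasFDerivAt (φ p) (fderiv ℝ (φ p) x) (x + (0 : ℝ) • v) := by
        rw [zero_smul, add_zero]
        exact ((h.slice p).differentiable (by simp) x).hasFDerivAt
      exact (e2.comp_hasDerivAt (0 : ℝ) e1).sub e1
    have h2 := hasDerivAt_iff_tendsto_slope.1 h1
    refine hcl.mem_of_tendsto h2 (Eventually.of_forall fun t => ?_)
    rw [slope_def_module]
    exact V.smul_mem _ (V.sub_mem (hp p _) (hp p _))
  have key : ∀ τ : ℝ, 0 ≤ τ → τ ≤ 1 → ∀ p x v,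
      v + (1 - τ) • (fderiv ℝ (φ p) x v - v) = 0 → v = 0 := by
    intro τ h0 h1 p x v hv
    by_cases hez : e = 0
    · obtain ⟨c, hc⟩ := he _ (hV p x v)
      rw [hc, hez, smul_zero, smul_zero, add_zero] at hv
      exact hv
    have : Nontrivial E := ⟨⟨e, 0, hez⟩⟩
    have hnc : NoncompactSpace E := NormedSpace.noncompactSpace ℝ E
    obtain ⟨ρ, hρ⟩ := SeparatingDual.exists_eq_one (R := ℝ) hez
    have hvV : v ∈ V := by
      have : v = -((1 - τ) • (fderiv ℝ (φ p) x v - v)) := eq_neg_of_add_eq_zero_left hv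
      rw [this]
      exact V.neg_mem (V.smul_mem _ (hV p x v))
    obtain ⟨c, hc⟩ := he v hvV
    by_cases hc0 : c = 0
    · rw [hc, hc0, zero_smul]
    have heV : e ∈ V := by
      have : e = c⁻¹ • v := by rw [hc, smul_smul, inv_mul_cancel₀ hc0, one_smul]
      rw [this]
      exact V.smul_mem _ hvV
    let lam : E → ℝ := fun y => ρ (fderiv ℝ (φ p) y e)
    have hlam : ∀ y, fderiv ℝ (φ p) y e = lam y • e := by
      intro y
      obtain ⟨d, hd⟩ := he _ (V.add_mem (hV p y e) heV)
      rw [sub_add_cancel] at hd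
      have : lam y = d := by
        show ρ (fderiv ℝ (φ p) y e) = d
        rw [hd, map_smul, hρ, smul_eq_mul, mul_one]
      rw [this, hd]
    have hlc : Continuous lam :=
      ρ.continuous.comp (((h.slice p).continuous_fderiv (by simp)).clm_apply continuous_const)
    have hl0 : ∀ y, lam y ≠ 0 := by
      intro y hy
      have h2 := hlam y
      rw [hy, zero_smul] at h2
      exact hez (h.inj p y e h2)
    obtain ⟨y₀, hy₀⟩ : ∃ y₀, y₀ ∉ closure (Prod.snd '' K) := by
      by_contra hcon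
      simp only [not_exists, not_not] at hcon
      have : closure (Prod.snd '' K) = univ := eq_univ_of_forall hcon
      exact noncompact_univ E (this ▸ (hK.image continuous_snd).closure)
    have hl1 : lam y₀ = 1 := by
      have h2 : φ p =ᶠ[𝓝 y₀] fun y => y := by
        filter_upwards [isClosed_closure.isOpen_compl.mem_nhds hy₀] with y hy
        exact hoff p y fun h3 => hy (subset_closure ⟨_, h3, rfl⟩)
      show ρ (fderiv ℝ (φ p) y₀ e) = 1
      rw [h2.fderiv_eq, fderiv_fun_id]
      exact hρ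
    have hpos : 0 < lam x := by
      by_contra hneg
      obtain ⟨y, hy⟩ := mem_range_of_exists_le_of_exists_ge hlc ⟨x, not_lt.1 hneg⟩
        ⟨y₀, by rw [hl1]; exact zero_le_one⟩
      exact hl0 y hy
    have h2 : fderiv ℝ (φ p) x v = (c * lam x) • e := by
      rw [hc, map_smul, hlam, smul_smul]
    rw [h2, hc, ← sub_smul, smul_smul, ← add_smul, smul_eq_zero] at hv
    rcases hv with hv | hv
    · have h3 : c * (τ + (1 - τ) * lam x) = 0 := by linear_combination hv
      rcases mul_eq_zero.1 h3 with h4 | h4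
      · exact absurd h4 hc0
      · exfalso
        rcases h0.eq_or_lt with h5 | h5
        · rw [← h5] at h4
          linarith
        · have : 0 ≤ (1 - τ) * lam x := mul_nonneg (by linarith) hpos.le
          linarith
    · exact absurd hv hez
  refine ⟨fun q x => x + (1 - et q.1) • (φ q.2 x - x), K, hK, ?_, fun q x v hv => ?_,
    fun s p x hx => ?_, fun p => ?_, fun p => ?_, fun q x => ?_⟩
  · have h1 : ContDiff ℝ ∞ (fun q : (ℝ × P) × E => φ q.1.2 q.2) :=
      h.smooth.comp ((contDiff_snd.comp contDiff_fst).prodMk contDiff_snd)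
    exact contDiff_snd.add ((contDiff_const.sub (et_smooth.comp
      (contDiff_fst.comp contDiff_fst))).smul (h1.sub contDiff_snd))
  · rw [hs (et q.1) q.2] at hv
    exact key _ (et_mem' q.1).1 (et_mem' q.1).2 q.2 x v hv
  · show x + (1 - et s) • (φ p x - x) = x
    rw [hoff p x hx, sub_self, smul_zero, add_zero]
  · funext x
    show x + (1 - et 0) • (φ p x - x) = φ p x
    rw [et_zero le_rfl, sub_zero, one_smul, add_sub_cancel]
  · funext x
    show x + (1 - et 1) • (φ p x - x) = x
    rw [et_one le_rfl, sub_self, zero_smul, add_zero]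
  · show x + (1 - et q.1) • (φ q.2 x - x) - x ∈ V
    rw [add_sub_cancel_left]
    exact V.smul_mem _ (hp q.2 x)

/-- **families moving the points parallel to a line or to a plane are contractible** -/
theorem par_trivial {V : Submodule ℝ E} (hV : Module.finrank ℝ V ≤ 2) {φ : P → E → E}
    (h : DFam φ) (hp : ∀ p, ParM V (φ p)) : NHtp (ParM V) φ := by
  rcases hV.lt_or_eq with h1 | h1
  · obtain ⟨v, hv⟩ := finrank_le_one_iff.1 (Nat.lt_succ_iff.1 h1)
    refine line_trivial (v : E) (fun w hw => ?_) h hp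
    obtain ⟨c, hc⟩ := hv ⟨w, hw⟩
    exact ⟨c, by simpa using (congrArg Subtype.val hc).symm⟩
  · obtain ⟨U, hU⟩ := V.exists_isCompl
    have e0 : ℂ ≃ₗ[ℝ] V := LinearEquiv.ofFinrankEq _ _ (by rw [Complex.finrank_real_complex, h1])
    let e1 : (U × ℂ) ≃ₗ[ℝ] E := ((LinearEquiv.refl ℝ U).prodCongr e0).trans
      (Submodule.prodEquivOfIsCompl U V hU.symm)
    refine plane_trivial e1.toContinuousLinearEquiv (fun x => ?_) h hp
    have e2 : (e1.toContinuousLinearEquiv.symm x).1 =
        ((Submodule.prodEquivOfIsCompl U V hU.symm).symm x).1 := rfl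
    rw [e2, Submodule.prodEquivOfIsCompl_symm_apply_fst_eq_zero]

end par

end Pool.Agent.H822.SM
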