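import Mathlib
import Pool.Agent.H822.SM.NT
import Pool.Agent.H822.EX.MainP

/-!
# The plane as `E (0 + 1)`
-/

set_option autoImplicit false

open scoped ContDiff
open Set Filter Topology Function Metric
open Q170.SC Pool.Agent.H822.Ham Pool.Agent.H822.Pairs Pool.Agent.H822.PairsMain
open Pool.Agent.GR.Flow Pool.Agent.H822.Par Pool.Agent.Q191.SY Pool.Agent.H822.EX
open Pool.Agent.H822.Td (et et_smooth et_zero et_one det_smooth det_off et_deriv)

namespace Pool.Agent.H822.SM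

instance instSubE0 : Subsingleton (E 0) := by
  show Subsingleton ((Fin 0 → ℝ) × (Fin 0 → ℝ))
  infer_instance

/-- `ℂ` as `E (0 + 1)` -/
noncomputable def toE : ℂ →L[ℝ] E (0 + 1) :=
  ptL.comp (Complex.reCLM.prod (Complex.imCLM.prod (0 : ℂ →L[ℝ] E 0)))

/-- `E (0 + 1)` as `ℂ` -/
noncomputable def toC : E (0 + 1) →L[ℝ] ℂ :=
  Complex.equivRealProdCLM.symm.toContinuousLinearMap.comp
    ((cX : E (0 + 1) →L[ℝ] ℝ).prod (cY : E (0 + 1) →L[ℝ] ℝ))

theorem toE_apply (z : ℂ) : toE z = pt z.re z.im 0 := rfl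

theorem toC_re (z : E (0 + 1)) : (toC z).re = (cX : E (0 + 1) →L[ℝ] ℝ) z := rfl
theorem toC_im (z : E (0 + 1)) : (toC z).im = (cY : E (0 + 1) →L[ℝ] ℝ) z := rfl

theorem toC_toE (z : ℂ) : toC (toE z) = z := by
  apply Complex.ext
  · rw [toC_re]
    rfl
  · rw [toC_im]
    rfl

theorem toE_toC (z : E (0 + 1)) : toE (toC z) = z := by
  refine ext_co (n := 0) ?_ ?_ (Subsingleton.elim _ _)
  · rfl
  · rfl

theorem toC_e0 : toC e0 = 1 := by
  apply Complex.ext
  · rfl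
  · rfl

theorem toE_one : toE 1 = e0 := by
  rw [← toC_e0, toE_toC]

theorem norm_le_toC (z : E (0 + 1)) : ‖z‖ ≤ ‖toC z‖ := by
  refine norm_le_of (n := 0) ?_ ?_ ?_
  · rw [← toC_re]
    exact Complex.abs_re_le_norm _
  · rw [← toC_im]
    exact Complex.abs_im_le_norm _
  · rw [Subsingleton.elim (tl z) 0, norm_zero]
    exact norm_nonneg _

theorem norm_toC_le (z : E (0 + 1)) : ‖toC z‖ ≤ 2 * ‖z‖ := by
  have h1 := Complex.norm_le_abs_re_add_abs_im (toC z)
  rw [toC_re, toC_im] at h1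
  have h2 := abs_cX_le (n := 0) z
  have h3 := abs_cY_le (n := 0) z
  linarith

theorem norm_toE_gt {R : ℝ} {z : ℂ} (h : 2 * R < ‖z‖) : R < ‖toE z‖ := by
  have := norm_toC_le (toE z)
  rw [toC_toE] at this
  linarith

/-- nonvanishing fields, standard off a ball, have no bounded orbits -/
theorem nt_E {V : E (0 + 1) → E (0 + 1)} (hV : ContDiff ℝ ∞ V) (hne : ∀ z, V z ≠ 0) {R : ℝ} (hR : 0 < R)
    (hoff : ∀ z, R < ‖z‖ → V z = e0) : NT V := by
  let f : ℝ → ℂ → ℂ := fun _ z => toC (V (toE z))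
  have hf : ContDiff ℝ ∞ (fun q : ℝ × ℂ => f q.1 q.2) :=
    toC.contDiff.comp (hV.comp (toE.contDiff.comp contDiff_snd))
  have hfne : ∀ p z, f p z ≠ 0 := by
    intro p z h0
    apply hne (toE z)
    rw [← toE_toC (V (toE z))]
    show toE (f p z) = 0
    rw [h0, map_zero]
  have hfo : ∀ p z, 2 * R < ‖z‖ → f p z = 1 := by
    intro p z hz
    show toC (V (toE z)) = 1
    rw [hoff _ (norm_toE_gt hz), toC_e0]
  obtain ⟨F, hF, h1, h2, -⟩ := exists_log (Q := univ) hf hfne (R := 2 * R) (by linarith) hfo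
    (fun p hp => absurd (mem_univ p) hp)
  have hadm : Adm (2 * R) (F 0) :=
    ⟨hF.comp (contDiff_const.prodMk contDiff_id), fun z hz => h2 0 z hz⟩
  have hnt := nt_exp (by linarith) hadm
  intro γ hγ hb
  refine hnt (fun t => toC (γ t)) (fun t => ?_) ?_
  · have e1 := toC.hasFDerivAt.comp_hasDerivAt t (hγ t)
    have e2 : Complex.exp (F 0 (toC (γ t))) = toC (V (γ t)) := by
      rw [h1]
      show toC (V (toE (toC (γ t)))) = _
      rw [toE_toC]
    show HasDerivAt (fun t => toC (γ t)) (Complex.exp (F 0 (toC (γ t)))) t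
    rw [e2]
    exact e1
  · obtain ⟨B, hB⟩ := hb.exists_norm_le
    rw [isBounded_iff_forall_norm_le]
    refine ⟨2 * B, ?_⟩
    rintro _ ⟨t, rfl⟩
    have := hB _ ⟨t, rfl⟩
    exact (norm_toC_le _).trans (by linarith)

/-- homotopies of nonvanishing families of fields -/
theorem exists_fields {P : Type} [NormedAddCommGroup P] [NormedSpace ℝ P] [FiniteDimensional ℝ P]
    {V : P → E (0 + 1) → E (0 + 1)} (hV : ContDiff ℝ ∞ (fun q : P × E (0 + 1) => V q.1 q.2))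
    (hne : ∀ p z, V p z ≠ 0) {R : ℝ} (hR : 0 < R)
    (hoff : ∀ p z, R < ‖z‖ → V p z = e0) {Q : Set P}
    (hQ : ∀ p, p ∉ Q → ∀ z, V p z = e0) :
    ∃ U : ℝ × P → E (0 + 1) → E (0 + 1), VFam e0 U (2 * R) ∧
      (∀ s p z, s ≤ 0 → U (s, p) z = V p z) ∧
      (∀ s p z, 1 ≤ s → U (s, p) z = e0) ∧
      (∀ s p, p ∉ Q → ∀ z, U (s, p) z = e0) ∧ ∀ q z, U q z ≠ 0 := by
  let f : P → ℂ → ℂ := fun p z => toC (V p (toE z))
  have hf : ContDiff ℝ ∞ (fun q : P × ℂ => f q.1 q.2) :=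
    toC.contDiff.comp (hV.comp (contDiff_fst.prodMk (toE.contDiff.comp contDiff_snd)))
  have hfne : ∀ p z, f p z ≠ 0 := by
    intro p z h0
    apply hne p (toE z)
    rw [← toE_toC (V p (toE z))]
    show toE (f p z) = 0
    rw [h0, map_zero]
  have hfo : ∀ p z, 2 * R < ‖z‖ → f p z = 1 := by
    intro p z hz
    show toC (V p (toE z)) = 1
    rw [hoff _ _ (norm_toE_gt hz), toC_e0]
  have hfQ : ∀ p, p ∉ Q → ∀ z, f p z = 1 := by
    intro p hp z
    show toC (V p (toE z)) = 1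
    rw [hQ p hp, toC_e0]
  obtain ⟨F, hF, h1, h2, h3⟩ := exists_log hf hfne (R := 2 * R) (by linarith) hfo hfQ
  have hetc : ContDiff ℝ ∞ (fun s : ℝ => ((1 - et s : ℝ) : ℂ)) :=
    Complex.ofRealCLM.contDiff.comp (contDiff_const.sub et_smooth)
  let U : ℝ × P → E (0 + 1) → E (0 + 1) := fun q z =>
    toE (Complex.exp (((1 - et q.1 : ℝ) : ℂ) * F q.2 (toC z)))
  have hU : ContDiff ℝ ∞ (fun q : (ℝ × P) × E (0 + 1) => U q.1 q.2) := by
    have e1 : ContDiff ℝ ∞ (fun x : (ℝ × P) × E (0 + 1) => ((1 - et x.1.1 : ℝ) : ℂ)) :=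
      hetc.comp (contDiff_fst.comp contDiff_fst)
    have e2 : ContDiff ℝ ∞ (fun x : (ℝ × P) × E (0 + 1) => F x.1.2 (toC x.2)) :=
      hF.comp ((contDiff_snd.comp contDiff_fst).prodMk (toC.contDiff.comp contDiff_snd))
    exact toE.contDiff.comp (e1.mul e2).cexp
  have hUne : ∀ q z, U q z ≠ 0 := by
    intro q z h0
    have e1 := congrArg toC h0
    rw [map_zero] at e1
    have e2 : toC (U q z) = Complex.exp (((1 - et q.1 : ℝ) : ℂ) * F q.2 (toC z)) := toC_toE _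
    rw [e2] at e1
    exact Complex.exp_ne_zero _ e1
  have hUo : ∀ q z, 2 * R < ‖z‖ → U q z = e0 := by
    intro q z hz
    show toE (Complex.exp (((1 - et q.1 : ℝ) : ℂ) * F q.2 (toC z))) = _
    rw [h2 _ _ (lt_of_lt_of_le hz (norm_le_toC z)), mul_zero, Complex.exp_zero, toE_one]
  have hUe : ∀ s p z, U (s, p) z = toE (Complex.exp (((1 - et s : ℝ) : ℂ) * F p (toC z))) :=
    fun _ _ _ => rfl
  have c1 : ∀ s p z, s ≤ 0 → U (s, p) z = V p z := by
    intro s p z hs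
    have e1 : f p (toC z) = toC (V p z) := by
      show toC (V p (toE (toC z))) = _
      rw [toE_toC]
    rw [hUe, et_zero hs, sub_zero, Complex.ofReal_one, one_mul, h1, e1, toE_toC]
  have c2 : ∀ s p z, 1 ≤ s → U (s, p) z = e0 := by
    intro s p z hs
    rw [hUe, et_one hs, sub_self, Complex.ofReal_zero, zero_mul, Complex.exp_zero, toE_one]
  have c3 : ∀ s p, p ∉ Q → ∀ z, U (s, p) z = e0 := by
    intro s p hp z
    rw [hUe, h3 p hp, mul_zero, Complex.exp_zero, toE_one]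
  have hR2 : 0 < 2 * R := by linarith
  clear hUe
  clear_value U
  have c4 : VFam e0 U (2 * R) := by
    refine ⟨hR2, hU, hUo, fun q => ?_⟩
    have e1 : ContDiff ℝ ∞ (U q) := hU.comp (contDiff_const.prodMk contDiff_id)
    exact nt_E e1 (hUne q) hR2 (hUo q)
  exact ⟨U, c4, c1, c2, c3, hUne⟩

end Pool.Agent.H822.SM
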