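import Mathlib
import Pool.Agent.H822.SM.PlaneE
import Pool.Agent.H822.SM.Smale

/-!
# Functions on the plane without critical points
-/

set_option autoImplicit false

open scoped ContDiff
open Set Filter Topology Function Metric
open Q170.SC Pool.Agent.H822.Ham Pool.Agent.H822.Pairs Pool.Agent.H822.PairsMain
open Pool.Agent.GR.Flow Pool.Agent.H822.Par Pool.Agent.Q191.SY Pool.Agent.H822.EX
open Pool.Agent.H822.Td (et et_smooth et_zero et_one det_smooth det_off et_deriv)

namespace Pool.Agent.H822.SM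

variable {P : Type} [NormedAddCommGroup P] [NormedSpace ℝ P] [FiniteDimensional ℝ P]

theorem dirE {n : ℕ} : Dir (cX : E (n + 1) →L[ℝ] ℝ) (e0 : E (n + 1)) :=
  ⟨cX_e0, abs_cX_le⟩

theorem tubeE {R : ℝ} {z : E (0 + 1)} (h : R < |cY z|) : Tube (e0 : E (0 + 1)) R z := by
  intro r
  refine lt_of_lt_of_le ?_ (abs_cY_le _)
  simpa using h

theorem fderiv_cX {n : ℕ} (z : E (n + 1)) : fderiv ℝ (cX : E (n + 1) → ℝ) z = cX :=
  ContinuousLinearMap.fderiv cX

theorem fderiv_cY {n : ℕ} (z : E (n + 1)) : fderiv ℝ (cY : E (n + 1) → ℝ) z = cY :=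
  ContinuousLinearMap.fderiv cY

theorem ham_zero_iff {m : ℕ} {L : E m → ℝ} {z : E m} : ham L z = 0 ↔ fderiv ℝ L z = 0 := by
  refine ⟨fun h => ?_, fun h => ?_⟩
  · exact fderiv_zero_of_ham h
  · rw [ham, h]
    exact (dualL m).map_zero

/-- the corrected function -/
noncomputable def corr (T : ℝ) (M : E (0 + 1) → ℝ) (z : E (0 + 1)) : ℝ :=
  (1 - et (cX z - T)) * M z + et (cX z - T) * cY z

theorem corr_smooth {Q : Type} [NormedAddCommGroup Q] [NormedSpace ℝ Q] {M : Q → E (0 + 1) → ℝ}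
    (hM : ContDiff ℝ ∞ (fun q : Q × E (0 + 1) => M q.1 q.2)) (T : ℝ) :
    ContDiff ℝ ∞ (fun q : Q × E (0 + 1) => corr T (M q.1) q.2) := by
  have h1 : ContDiff ℝ ∞ (fun q : Q × E (0 + 1) => et (cX q.2 - T)) :=
    et_smooth.comp (((cX : E (0 + 1) →L[ℝ] ℝ).contDiff.comp contDiff_snd).sub contDiff_const)
  exact ((contDiff_const.sub h1).mul hM).add
    (h1.mul ((cY : E (0 + 1) →L[ℝ] ℝ).contDiff.comp contDiff_snd))

theorem corr_slice {M : E (0 + 1) → ℝ} (hM : ContDiff ℝ ∞ M) (T : ℝ) :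
    ContDiff ℝ ∞ (corr T M) := by
  have h1 : ContDiff ℝ ∞ (fun q : E (0 + 1) => et (cX q - T)) :=
    et_smooth.comp ((cX : E (0 + 1) →L[ℝ] ℝ).contDiff.sub contDiff_const)
  exact ((contDiff_const.sub h1).mul hM).add (h1.mul (cY : E (0 + 1) →L[ℝ] ℝ).contDiff)

/-- the derivative of the corrected function in the direction of `Y` -/
theorem corr_fderiv {M : E (0 + 1) → ℝ} (hM : ContDiff ℝ ∞ M) (T : ℝ) (z : E (0 + 1)) :
    fderiv ℝ (corr T M) z f0 = (1 - et (cX z - T)) * fderiv ℝ M z f0 + et (cX z - T) := by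
  have h0 : HasFDerivAt (fun z : E (0 + 1) => cX z - T) (cX : E (0 + 1) →L[ℝ] ℝ) z :=
    (cX : E (0 + 1) →L[ℝ] ℝ).hasFDerivAt.sub_const T
  have h1 : HasFDerivAt (fun z : E (0 + 1) => et (cX z - T))
      (deriv et (cX z - T) • (cX : E (0 + 1) →L[ℝ] ℝ)) z :=
    (et_deriv (cX z - T)).comp_hasFDerivAt z h0
  have h2 := (hM.differentiable (by simp) z).hasFDerivAt
  have h3 : HasFDerivAt (corr T M) _ z :=
    ((h1.const_sub 1).mul h2).add (h1.mul (cY : E (0 + 1) →L[ℝ] ℝ).hasFDerivAt)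
  rw [h3.fderiv]
  simp

theorem cont_pt (x : ℝ) : Continuous (fun y : ℝ => (pt x y 0 : E (0 + 1))) := by
  have h1 : (fun y : ℝ => (pt x y 0 : E (0 + 1))) = fun y => ptL (x, y, (0 : E 0)) := rfl
  rw [h1]
  exact ptL.continuous.comp (continuous_const.prodMk (continuous_id.prodMk continuous_const))

theorem eta0 (z : E (0 + 1)) : pt (cX z) (cY z) (0 : E 0) = z := by
  conv_rhs => rw [← pt_eta z]
  rw [Subsingleton.elim (tl z) 0]

theorem dec0 (v : E (0 + 1)) : v = cX v • e0 + cY v • f0 := by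
  refine ext_co ?_ ?_ (Subsingleton.elim _ _) <;> simp

theorem exists_L {b : P → SympCt (0 + 1)} (hb : Fam b) :
    ∃ (L : ℝ × P → E (0 + 1) → ℝ) (R : ℝ), TFam L R ∧
      (∀ s p z, s ≤ 0 → L (s, p) ((b p).map z) = cY z) ∧
      (∀ s p z, 1 ≤ s → L (s, p) z = cY z) ∧
      (∀ s p, R < ‖p‖ → ∀ z, L (s, p) z = cY z) ∧
      (∀ p z, R < ‖z‖ → (b p).map z = z) ∧ ∀ p, R < ‖p‖ → b p = 1 := by
  obtain ⟨r, hr, hr1, hr2⟩ := fam_radius hb
  have hbs : ∀ p, ContDiff ℝ ∞ ((b p).map) := fun p =>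
    hb.smooth.comp (contDiff_const.prodMk contDiff_id)
  have his : ContDiff ℝ ∞ (fun q : P × E (0 + 1) => ((b q.1)⁻¹).map q.2) := inv_smooth hb.smooth
  have hfp : ∀ p z, r < ‖z‖ → ((b p)⁻¹).map z = z := fun p z hz => by
    conv_lhs => rw [← hr1 p z hz]
    exact inv_map_map _ _
  -- the field
  let V : P → E (0 + 1) → E (0 + 1) := fun p z =>
    fderiv ℝ (fun q : P × E (0 + 1) => (b q.1).map q.2) (p, ((b p)⁻¹).map z) (0, e0)
  have hVe : ∀ p z, V p z = fderiv ℝ ((b p).map) (((b p)⁻¹).map z) e0 := fun p z =>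
    (BK.fderiv_slice (Φ := fun p z => (b p).map z) hb.smooth _ _ _).symm
  have hV : ContDiff ℝ ∞ (fun q : P × E (0 + 1) => V q.1 q.2) :=
    ((hb.smooth.fderiv_right (m := ∞) (by simp)).comp (contDiff_fst.prodMk his)).clm_apply
      contDiff_const
  have hVne : ∀ p z, V p z ≠ 0 := fun p z h0 => by
    rw [hVe] at h0
    have h1 := inj_of_symp (fun z u v => (b p).2.1.form z u v) _ _ h0
    have h2 := congrArg (cX : E (0 + 1) →L[ℝ] ℝ) h1
    simp at h2
  have hVo : ∀ p z, r < ‖z‖ → V p z = e0 := by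
    intro p z hz
    rw [hVe, hfp p z hz]
    have h1 : (b p).map =ᶠ[𝓝 z] id := by
      filter_upwards [(isOpen_lt continuous_const continuous_norm).mem_nhds hz] with y hy
      exact hr1 p y hy
    rw [h1.fderiv_eq, fderiv_id]
    rfl
  have hVQ : ∀ p, p ∉ closedBall (0 : P) r → ∀ z, V p z = e0 := by
    intro p hp z
    rw [mem_closedBall_zero_iff, not_le] at hp
    rw [hVe]
    have h1 : (b p).map = id := by
      rw [hr2 p hp]
      rfl
    rw [h1, fderiv_id]
    rfl
  clear_value V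
  obtain ⟨U, hU, hU0, hU1, hUQ, hUne⟩ := exists_fields hV hVne hr hVo hVQ
  obtain ⟨W, hW⟩ := hU.exists_wave dirE
  set R : ℝ := 2 * r with hR
  have hRpos : 0 < R := hU.pos
  have hline : ∀ z : E (0 + 1), ∀ t : ℝ, HasDerivAt (fun t : ℝ => z + t • e0) e0 t := by
    intro z t
    have := ((hasDerivAt_id t).smul_const (e0 : E (0 + 1))).const_add z
    rwa [one_smul] at this
  have hW0 : ∀ s p, s ≤ 0 → ∀ z, W (s, p) z = (b p).map z := by
    intro s p hs z
    refine SM.wave_unique dirE (hU.slice (s, p)) (hW.orbit (s, p)) (fun z t => ?_) (R := R)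
      (fun z hz => ?_) z
    · have e1 : U (s, p) ((b p).map (z + t • e0)) = fderiv ℝ ((b p).map) (z + t • e0) e0 := by
        rw [hU0 s p _ hs, hVe]
        congr 2
        exact inv_map_map _ _
      rw [e1]
      exact ((hbs p).differentiable (by simp) _).hasFDerivAt.comp_hasDerivAt t (hline z t)
    · rw [hW.left _ _ hz, hr1]
      refine norm_gt dirE (lt_of_lt_of_le ?_ (neg_le_abs _))
      linarith
  have hWl : ∀ q, (∀ z, U q z = e0) → ∀ z, W q z = z := by
    intro q hq z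
    refine SM.wave_unique dirE (hU.slice q) (hW.orbit q) (W' := fun z => z) (fun z t => ?_)
      (R := R) (fun z hz => hW.left _ _ hz) z
    rw [hq]
    exact hline z t
  have hW1 : ∀ s p, 1 ≤ s → ∀ z, W (s, p) z = z := fun s p hs =>
    hWl _ fun z => hU1 s p z hs
  have hWQ : ∀ s p, r < ‖p‖ → ∀ z, W (s, p) z = z := fun s p hp =>
    hWl _ (hUQ s p (by rwa [mem_closedBall_zero_iff, not_le]))
  obtain ⟨N, hN, hN1, hN2⟩ := BK.inv_fam hW.smooth hW.inj hW.bij
  have hWs : ∀ q, ContDiff ℝ ∞ (W q) := fun q => hW.smooth.comp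
    (contDiff_const.prodMk contDiff_id)
  have hNs : ∀ q, ContDiff ℝ ∞ (N q) := fun q => hN.comp (contDiff_const.prodMk contDiff_id)
  have hNi : ∀ q z v, fderiv ℝ (N q) z v = 0 → v = 0 := fun q z v hv =>
    inj_of_right (hWs q) (hNs q) (hN2 q) z v hv
  have hNW : ∀ q z, W q z = z → N q z = z := fun q z hz => by
    have := hN1 q z
    rwa [hz] at this
  -- the function
  let M : ℝ × P → E (0 + 1) → ℝ := fun q z => cY (N q z)
  have hM : ContDiff ℝ ∞ (fun x : (ℝ × P) × E (0 + 1) => M x.1 x.2) :=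
    (cY : E (0 + 1) →L[ℝ] ℝ).contDiff.comp hN
  have hMs : ∀ q, ContDiff ℝ ∞ (M q) := fun q =>
    (cY : E (0 + 1) →L[ℝ] ℝ).contDiff.comp (hNs q)
  have hMd : ∀ q z v, fderiv ℝ (M q) z v = cY (fderiv ℝ (N q) z v) := by
    intro q z v
    have h3 : HasFDerivAt (M q) ((cY : E (0 + 1) →L[ℝ] ℝ).comp (fderiv ℝ (N q) z)) z :=
      (cY : E (0 + 1) →L[ℝ] ℝ).hasFDerivAt.comp z ((hNs q).differentiable (by simp) z).hasFDerivAt
    rw [h3.fderiv]
    rfl
  have hNU : ∀ q z, fderiv ℝ (N q) z (U q z) = e0 := by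
    intro q z
    have h3 := hW.orbit q (N q z) 0
    rw [zero_smul, add_zero, hN2] at h3
    have h4 : HasFDerivAt (N q) (fderiv ℝ (N q) z) (W q (N q z + (0 : ℝ) • e0)) := by
      rw [zero_smul, add_zero, hN2]
      exact ((hNs q).differentiable (by simp) z).hasFDerivAt
    have h5 := h4.comp_hasDerivAt (0 : ℝ) h3
    have h6 : (N q ∘ fun t : ℝ => W q (N q z + t • e0)) = fun t : ℝ => N q z + t • e0 := by
      funext t
      exact hN1 q _
    rw [h6] at h5
    exact h5.unique (hline _ 0)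
  have hM0 : ∀ q z, fderiv ℝ (M q) z (U q z) = 0 := fun q z => by
    rw [hMd, hNU, cY_e0]
  have hMne : ∀ q z, fderiv ℝ (M q) z ≠ 0 := by
    intro q z h0
    obtain ⟨v, hv⟩ := (LinearMap.surjective_of_injective ((injective_iff_map_eq_zero
      (fderiv ℝ (N q) z : E (0 + 1) →ₗ[ℝ] E (0 + 1))).2 (hNi q z))) f0
    have h1 := hMd q z v
    rw [h0] at h1
    have h2 : fderiv ℝ (N q) z v = f0 := hv
    rw [h2, cY_f0] at h1
    exact zero_ne_one h1
  have hMl : ∀ q z, cX z < -R → M q z = cY z := fun q z hz => by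
    show cY (N q z) = cY z
    rw [hNW q z (hW.left q z hz)]
  have hMt : ∀ q z, R < |cY z| → M q z = cY z := fun q z hz => by
    show cY (N q z) = cY z
    rw [hNW q z (hW.tube q z (tubeE hz))]
  -- on the right
  have hMe : ∀ q z, R < cX z → fderiv ℝ (M q) z e0 = 0 := by
    intro q z hz
    have := hM0 q z
    rwa [hU.off q z (norm_gt dirE (lt_of_lt_of_le hz (le_abs_self _)))] at this
  have hMf : ∀ q z, R < cX z → 0 < fderiv ℝ (M q) z f0 := by
    intro q z hz
    have h1 : Continuous (fun y : ℝ => fderiv ℝ (M q) (pt (cX z) y 0) f0) :=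
      (((hMs q).continuous_fderiv (by simp)).comp (cont_pt _)).clm_apply continuous_const
    have h2 := pos_of_ne h1 (fun y h0 => ?_) (z₀ := R + 1) ?_ (cY z)
    · rwa [eta0] at h2
    · apply hMne q (pt (cX z) y 0)
      refine ContinuousLinearMap.ext fun v => ?_
      rw [dec0 v, map_add, map_smul, map_smul, hMe q _ (by simpa using hz), h0]
      simp
    · have h3 : M q =ᶠ[𝓝 (pt (cX z) (R + 1) 0)] cY := by
        have : ∀ᶠ y : E (0 + 1) in 𝓝 (pt (cX z) (R + 1) 0), R < |cY y| :=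
          continuousAt_const.eventually_lt
            (cY : E (0 + 1) →L[ℝ] ℝ).continuous.abs.continuousAt (by
              rw [cY_pt, abs_of_pos (by linarith)]
              linarith)
        filter_upwards [this] with y hy using hMt q y hy
      rw [h3.fderiv_eq, fderiv_cY, cY_f0]
      exact one_pos
  have hM00 : ∀ s p, s ≤ 0 → ∀ z, M (s, p) ((b p).map z) = cY z := by
    intro s p hs z
    show cY (N (s, p) ((b p).map z)) = cY z
    rw [← hW0 s p hs, hN1]
  have hM1 : ∀ s p, 1 ≤ s → ∀ z, M (s, p) z = cY z := fun s p hs z => by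
    show cY (N (s, p) z) = cY z
    rw [hNW _ _ (hW1 s p hs z)]
  have hMQ : ∀ s p, r < ‖p‖ → ∀ z, M (s, p) z = cY z := fun s p hs z => by
    show cY (N (s, p) z) = cY z
    rw [hNW _ _ (hWQ s p hs z)]
  clear_value M
  -- the corrected function
  have hcne : ∀ q z, fderiv ℝ (corr (R + 1) (M q)) z ≠ 0 := by
    intro q z
    by_cases hz : R < cX z
    · intro h0
      have h1 := corr_fderiv (hMs q) (R + 1) z
      rw [h0] at h1
      obtain ⟨h2, h3⟩ := et_mem' (cX z - (R + 1))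
      have h4 := hMf q z hz
      have h5 : (0 : E (0 + 1) →L[ℝ] ℝ) f0 = 0 := rfl
      rw [h5] at h1
      have h6 : 0 ≤ (1 - et (cX z - (R + 1))) * fderiv ℝ (M q) z f0 :=
        mul_nonneg (by linarith) h4.le
      have h7 : et (cX z - (R + 1)) = 0 := by linarith
      rw [h7] at h1
      linarith
    · have h1 : corr (R + 1) (M q) =ᶠ[𝓝 z] M q := by
        have : ∀ᶠ y : E (0 + 1) in 𝓝 z, cX y < R + 1 :=
          (cX : E (0 + 1) →L[ℝ] ℝ).continuous.continuousAt.eventually_lt continuousAt_const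
            (by linarith [not_lt.1 hz])
        filter_upwards [this] with y hy
        rw [corr, et_zero (by linarith)]
        ring
      rw [h1.fderiv_eq]
      exact hMne q z
  have hcoff : ∀ q z, R + 2 < ‖z‖ → corr (R + 1) (M q) z = cY z := by
    intro q z hz
    have h1 : R + 2 < |cX z| ∨ R + 2 < |cY z| := by
      by_contra hcon
      rw [not_or, not_lt, not_lt] at hcon
      refine absurd hz (not_lt.2 (norm_le_of hcon.1 hcon.2 ?_))
      rw [Subsingleton.elim (tl z) 0, norm_zero]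
      linarith
    rcases h1 with h1 | h1
    · rcases lt_abs.1 h1 with h2 | h2
      · rw [corr, et_one (by linarith)]
        ring
      · rw [corr, et_zero (by linarith), hMl q z (by linarith)]
        ring
    · rw [corr, hMt q z (by linarith)]
      ring
  have hLs := corr_smooth hM (R + 1)
  have hcoff' : ∀ q z, R + 2 < ‖z‖ → ham (corr (R + 1) (M q)) z = e0 := fun q z hz =>
    ham_out (hcoff q) hz
  refine ⟨fun q => corr (R + 1) (M q), R + 2, ⟨by linarith, hLs, hcoff, fun q => ?_⟩,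
    fun s p z hs => ?_, fun s p z hs => ?_, fun s p hp z => ?_, fun p z hz => hr1 p z (by linarith),
    fun p hp => hr2 p (by linarith)⟩
  · have e1 : ContDiff ℝ ∞ (corr (R + 1) (M q)) := corr_slice (hMs q) (R + 1)
    exact nt_E (ham_smooth e1) (fun z h0 => hcne q z (ham_zero_iff.1 h0)) (R := R + 2)
      (by linarith) (hcoff' q)
  · show corr (R + 1) (M (s, p)) ((b p).map z) = cY z
    by_cases hz : r < ‖(b p).map z‖
    · have h1 : (b p).map z = z := by
        have h2 := hfp p _ hz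
        rw [inv_map_map] at h2
        exact h2.symm
      have h3 := hM00 s p hs z
      rw [h1] at h3 ⊢
      rw [corr, h3]
      ring
    · have h1 : cX ((b p).map z) ≤ r :=
        (le_abs_self _).trans ((abs_cX_le _).trans (not_lt.1 hz))
      rw [corr, et_zero (by linarith), hM00 s p hs]
      ring
  · show corr (R + 1) (M (s, p)) z = cY z
    rw [corr, hM1 s p hs]
    ring
  · show corr (R + 1) (M (s, p)) z = cY z
    rw [corr, hMQ s p (by linarith)]
    ring

end Pool.Agent.H822.SM
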