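import Mathlib
import Pool.Agent.H822.SM.Func

/-!
# `Symp_ct(ℝ²)` is weakly contractible
-/

set_option autoImplicit false

open scoped ContDiff
open Set Filter Topology Function Metric
open Q170.SC Pool.Agent.H822.Ham Pool.Agent.H822.Pairs Pool.Agent.H822.PairsMain
open Pool.Agent.GR.Flow Pool.Agent.H822.Par Pool.Agent.Q191.SY Pool.Agent.H822.EX
open Pool.Agent.H822.Td (et et_smooth et_zero et_one det_smooth det_off et_deriv)

namespace Pool.Agent.H822.SM

theorem omega_plane (u v : E (0 + 1)) : omega u v = cX u * cY v - cY u * cX v := by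
  rw [omega_co]
  have : omega (tl u) (tl v) = 0 := by
    rw [Subsingleton.elim (tl u) 0]
    exact omega_zero_left _
  rw [this, add_zero]

/-- primitives of `W^* λ - λ` for `λ = X dY` -/
theorem exists_action {Q : Type} [NormedAddCommGroup Q] [NormedSpace ℝ Q] [FiniteDimensional ℝ Q]
    {W : Q → E (0 + 1) → E (0 + 1)} (hW : SFam W) :
    ∃ H : Q → E (0 + 1) → ℝ, ContDiff ℝ ∞ (fun q : Q × E (0 + 1) => H q.1 q.2) ∧
      ∀ q z v, fderiv ℝ (H q) z v = cX (W q z) * cY (fderiv ℝ (W q) z v) - cX z * cY v := by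
  let α : Q → E (0 + 1) → (E (0 + 1) →L[ℝ] ℝ) := fun q z =>
    cX (W q z) • (cY : E (0 + 1) →L[ℝ] ℝ).comp (fderiv ℝ (W q) z) - cX z • cY
  have hα : ∀ q z v, α q z v = cX (W q z) * cY (fderiv ℝ (W q) z v) - cX z * cY v :=
    fun _ _ _ => rfl
  have hfd : ContDiff ℝ ∞ (fun q : Q × E (0 + 1) => fderiv ℝ (W q.1) q.2) := by
    refine ContDiff.fderiv (m := ∞) (n := ∞) ?_ contDiff_snd (by simp)
    exact hW.smooth.comp ((contDiff_fst.comp contDiff_fst).prodMk contDiff_snd)
  have hαs : ContDiff ℝ ∞ (fun q : Q × E (0 + 1) => α q.1 q.2) :=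
    ((((cX : E (0 + 1) →L[ℝ] ℝ).contDiff.comp hW.smooth).smul
      (contDiff_const.clm_comp hfd))).sub
      (((cX : E (0 + 1) →L[ℝ] ℝ).contDiff.comp contDiff_snd).smul contDiff_const)
  have hαq : ∀ q, ContDiff ℝ ∞ (α q) := fun q => hαs.comp (contDiff_const.prodMk contDiff_id)
  -- the derivative of `α`
  have hd : ∀ q z u v, fderiv ℝ (α q) z u v = cX (fderiv ℝ (W q) z u) * cY (fderiv ℝ (W q) z v) +
      cX (W q z) * cY (fderiv ℝ (fderiv ℝ (W q)) z u v) - cX u * cY v := by
    intro q z u v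
    have h1 : HasFDerivAt (fun z => α q z v) ((ContinuousLinearMap.apply ℝ ℝ v).comp
        (fderiv ℝ (α q) z)) z :=
      (ContinuousLinearMap.apply ℝ ℝ v).hasFDerivAt.comp z
        ((hαq q).differentiable (by simp) z).hasFDerivAt
    have h2 : HasFDerivAt (fun z => cX (W q z)) ((cX : E (0 + 1) →L[ℝ] ℝ).comp
        (fderiv ℝ (W q) z)) z :=
      (cX : E (0 + 1) →L[ℝ] ℝ).hasFDerivAt.comp z
        (((hW.slice q).differentiable (by simp)) z).hasFDerivAt
    have h3s : ContDiff ℝ ∞ (fderiv ℝ (W q)) := (hW.slice q).fderiv_right (m := ∞) (by simp)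
    have h3 : HasFDerivAt (fun z => cY (fderiv ℝ (W q) z v)) ((cY : E (0 + 1) →L[ℝ] ℝ).comp
        ((ContinuousLinearMap.apply ℝ (E (0 + 1)) v).comp (fderiv ℝ (fderiv ℝ (W q)) z))) z :=
      (cY : E (0 + 1) →L[ℝ] ℝ).hasFDerivAt.comp z
        ((ContinuousLinearMap.apply ℝ (E (0 + 1)) v).hasFDerivAt.comp z
          (h3s.differentiable (by simp) z).hasFDerivAt)
    have h4 : HasFDerivAt (fun z : E (0 + 1) => cX z * cY v)
        ((cY v) • (cX : E (0 + 1) →L[ℝ] ℝ)) z :=
      (cX : E (0 + 1) →L[ℝ] ℝ).hasFDerivAt.mul_const (cY v)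
    have h5 := (h2.mul h3).sub h4
    have h6 := h1.unique h5
    have h7 := congrArg (fun f : E (0 + 1) →L[ℝ] ℝ => f u) h6
    simp only [ContinuousLinearMap.comp_apply, ContinuousLinearMap.apply_apply, _root_.sub_apply,
      _root_.add_apply, _root_.smul_apply, smul_eq_mul] at h7
    rw [h7]
    ring
  have hsym : ∀ q z u v, fderiv ℝ (α q) z u v = fderiv ℝ (α q) z v u := by
    intro q z u v
    have h1 : IsSymmSndFDerivAt ℝ (W q) z := ((hW.slice q).contDiffAt).isSymmSndFDerivAt (by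
      rw [minSmoothness_of_isRCLikeNormedField]
      have : ((2 : ℕ∞) : WithTop ℕ∞) ≤ ((⊤ : ℕ∞) : WithTop ℕ∞) := WithTop.coe_le_coe.2 le_top
      exact this)
    have h2 := hW.symp q z u v
    rw [omega_plane, omega_plane] at h2
    rw [hd, hd, h1.eq u v]
    linarith
  let V : Q → E (0 + 1) → E (0 + 1) := fun q z => dualL (0 + 1) (α q z)
  have hVs : ContDiff ℝ ∞ (fun q : Q × E (0 + 1) => V q.1 q.2) := (dualL (0 + 1)).contDiff.comp hαs
  have hVd : ∀ q z u, fderiv ℝ (V q) z u = dual (fderiv ℝ (α q) z u) := by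
    intro q z u
    have h1 : HasFDerivAt (V q) ((dualL (0 + 1)).comp (fderiv ℝ (α q) z)) z :=
      (dualL (0 + 1)).hasFDerivAt.comp z ((hαq q).differentiable (by simp) z).hasFDerivAt
    rw [h1.fderiv]
    rfl
  obtain ⟨H, hH, hHV⟩ := exists_primitive V hVs (fun q z u v => by
    rw [hVd, hVd, omega_swap u, omega_dual, omega_dual, hsym q z u v]
    ring)
  refine ⟨H, hH, fun q z v => ?_⟩
  rw [← omega_ham, hHV, ← hα]
  exact omega_dual _ _

theorem hasDerivAt_pt (x y : ℝ) :
    HasDerivAt (fun y : ℝ => (pt x y 0 : E (0 + 1))) f0 y := by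
  have h1 : HasDerivAt (fun y : ℝ => ((x, y, (0 : E 0)) : ℝ × ℝ × E 0)) (0, 1, 0) y :=
    (hasDerivAt_const y x).prodMk ((hasDerivAt_id y).prodMk (hasDerivAt_const y (0 : E 0)))
  exact (ptL (n := 0)).hasFDerivAt.comp_hasDerivAt y h1

variable {P : Type} [NormedAddCommGroup P] [NormedSpace ℝ P] [FiniteDimensional ℝ P]

/-- the flow of `et'(s) β(X) S(Y)` on the right -/
theorem shear_flow {Q : Type} [NormedAddCommGroup Q] [NormedSpace ℝ Q]
    {S c : Q → ℝ → ℝ} (hS : ContDiff ℝ ∞ (fun q : Q × ℝ => S q.1 q.2))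
    (hd : ∀ q y, HasDerivAt (S q) (c q y) y) {R : ℝ}
    (hK : KFam (fun (q : Q) (s y : ℝ) (_ : E 0) => deriv et s * S q y) R)
    {β : Q → ℝ → ℝ} {B : ℝ} (hβ : BetaFam β B) {C : Q → ℝ → E (0 + 1) → E (0 + 1)} (hR : 0 < R)
    (hC : TD (fun q s z => ham (cut β (fun (q : Q) (s y : ℝ) (_ : E 0) => deriv et s * S q y) q s)
      z) (-R - 1) C) (q : Q) (z : E (0 + 1)) (hz : B + |c q (cY z)| < cX z) (s : ℝ) :
    C q s z = z + (et s * c q (cY z)) • e0 := by
  set K : Q → ℝ → ℝ → E 0 → ℝ := fun (q : Q) (s y : ℝ) (_ : E 0) => deriv et s * S q y with hKdef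
  have hF : ContDiff ℝ ∞ (fun x : ℝ × E (0 + 1) => ham (cut β K q x.1) x.2) :=
    ham_smooth_param (L := fun s : ℝ => cut β K q s) ((cut_smooth hK hβ).comp
      ((contDiff_const.prodMk contDiff_fst).prodMk contDiff_snd))
  refine td_uniq hF (t₀ := -R - 1) (hC.deriv q · z)
    (γ₂ := fun s => z + (et s * c q (cY z)) • e0) (fun s => ?_) ?_ s
  · have h1 : B < cX (z + (et s * c q (cY z)) • e0) := by
      simp only [map_add, map_smul, cX_e0, smul_eq_mul, mul_one]
      obtain ⟨t0, t1⟩ := et_mem' s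
      have h2 : |et s * c q (cY z)| ≤ |c q (cY z)| := by
        rw [abs_mul, abs_of_nonneg t0]
        exact mul_le_of_le_one_left (abs_nonneg _) t1
      linarith [neg_abs_le (et s * c q (cY z))]
    have h2 : ham (lift K q s) (z + (et s * c q (cY z)) • e0) =
        (deriv et s * c q (cY z)) • e0 := by
      rw [lift_inv]
      have h3 : HasFDerivAt (fun z : E (0 + 1) => S q (cY z))
          (c q (cY z) • (cY : E (0 + 1) →L[ℝ] ℝ)) z :=
        (hd q (cY z)).comp_hasFDerivAt z (cY : E (0 + 1) →L[ℝ] ℝ).hasFDerivAt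
      have h4 : HasFDerivAt (lift K q s)
          (deriv et s • (c q (cY z) • (cY : E (0 + 1) →L[ℝ] ℝ))) z := h3.const_mul (deriv et s)
      rw [ham, h4.fderiv, ← dualL_apply, map_smul, map_smul, dualL_apply, dual_cY, smul_smul]
    show HasDerivAt _ (ham (cut β K q s) (z + (et s * c q (cY z)) • e0)) s
    rw [cut_right hβ h1, h2]
    exact (((et_deriv s).mul_const _).smul_const _).const_add z
  · rw [hC.zero, et_zero (by linarith)]
    simp

/-- **`Symp_ct(ℝ²)` is weakly contractible** -/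
theorem symp_trivial {b : P → SympCt (0 + 1)} (hb : Fam b) : Htp b (fun _ => 1) := by
  obtain ⟨L, R, hT, hL0, hL1, hLQ, hbz, hbp⟩ := exists_L hb
  obtain ⟨W, hW, hLW⟩ := hT.exists_wave
  have hR := hT.pos
  have hWs : ∀ q, ContDiff ℝ ∞ (W q) := hW.fam.slice
  have hbs : ∀ p, ContDiff ℝ ∞ ((b p).map) := fun p =>
    hb.smooth.comp (contDiff_const.prodMk contDiff_id)
  have hW0 : ∀ s p, s ≤ 0 → ∀ z, W (s, p) z = (b p).map z := by
    intro s p hs z
    refine EX.wave_unique (hWs _) (hW.fam.symp _) (hbs p) (fun z u v => (b p).2.1.form z u v)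
      (hT.slice (s, p)) (hLW _) (fun z => hL0 s p z hs) (hW.left _) (R' := R) (fun z hz => ?_) z
    exact hbz p z (norm_gt_of_cX (lt_of_lt_of_le (by linarith) (neg_le_abs _)))
  have hWl : ∀ q, (∀ z, L q z = cY z) → ∀ z, W q z = z := by
    intro q hq z
    refine EX.wave_unique (hWs _) (hW.fam.symp _) (W' := fun z => z) contDiff_id
      (fun z u v => by rw [fderiv_fun_id]; rfl)
      (hT.slice q) (hLW _) (fun z => hq z) (hW.left _) (R' := R) (fun z hz => rfl) z
  have hW1 : ∀ s p, 1 ≤ s → ∀ z, W (s, p) z = z := fun s p hs =>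
    hWl _ fun z => hL1 s p z hs
  have hWQ : ∀ s p, R < ‖p‖ → ∀ z, W (s, p) z = z := fun s p hp => hWl _ (hLQ s p hp)
  have hproper : ProperSpace P := FiniteDimensional.proper_real P
  have hQ₁ : IsCompact (Icc (0 : ℝ) 1 ×ˢ closedBall (0 : P) R) :=
    isCompact_Icc.prod (isCompact_closedBall _ _)
  have hred : ∀ q, (∀ z, W q z = z) ∨ ∃ q' ∈ Icc (0 : ℝ) 1 ×ˢ closedBall (0 : P) R,
      W q' = W q := by
    rintro ⟨s, p⟩
    by_cases hp : p ∈ closedBall (0 : P) R
    · rcases le_total s 0 with hs | hs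
      · refine Or.inr ⟨(0, p), ⟨⟨le_rfl, zero_le_one⟩, hp⟩, ?_⟩
        funext z
        rw [hW0 0 p le_rfl, hW0 s p hs]
      · rcases le_total s 1 with hs' | hs'
        · exact Or.inr ⟨(s, p), ⟨⟨hs, hs'⟩, hp⟩, rfl⟩
        · exact Or.inl (hW1 s p hs')
    · rw [mem_closedBall_zero_iff, not_le] at hp
      exact Or.inl (hWQ s p hp)
  obtain ⟨m₀, hm₀⟩ := hW.out _ hQ₁
  set m : ℝ := max m₀ (R + 1) with hm
  have hmR : R + 1 ≤ m := le_max_right _ _
  have hout : ∀ q z, m ≤ cX z → cY (W q z) = cY z ∧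
      ∀ r : ℝ, 0 ≤ r → W q (z + r • e0) = W q z + r • e0 := by
    intro q z hz
    rcases hred q with h3 | ⟨q', hq', h3⟩
    · rw [h3]
      refine ⟨rfl, fun r _ => ?_⟩
      rw [h3]
    · rw [← h3]
      exact hm₀ q' hq' z ((le_max_left _ _).trans hz)
  let c : ℝ × P → ℝ → ℝ := fun q y => cX (W q (pt m y 0)) - m
  have hptc : ContDiff ℝ ∞ (fun y : ℝ => (pt m y 0 : E (0 + 1))) := by
    have h1 : (fun y : ℝ => (pt m y 0 : E (0 + 1))) = fun y => ptL (m, y, (0 : E 0)) := rfl
    rw [h1]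
    exact ptL.contDiff.comp (contDiff_const.prodMk (contDiff_id.prodMk contDiff_const))
  have hcs : ContDiff ℝ ∞ (fun x : (ℝ × P) × ℝ => c x.1 x.2) :=
    ((cX : E (0 + 1) →L[ℝ] ℝ).contDiff.comp (hW.fam.smooth.comp
      (contDiff_fst.prodMk (hptc.comp contDiff_snd)))).sub contDiff_const
  have hWc : ∀ q z, m ≤ cX z → W q z = z + c q (cY z) • e0 := by
    intro q z hz
    have h1 := (hout q (pt m (cY z) 0) (by simp)).2 (cX z - m) (by linarith)
    have h2 : (pt m (cY z) 0 : E (0 + 1)) + (cX z - m) • e0 = z := by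
      refine ext_co ?_ ?_ (Subsingleton.elim _ _) <;> simp
    rw [h2] at h1
    have h3 := (hout q (pt m (cY z) 0) (by simp)).1
    rw [h1]
    refine ext_co ?_ ?_ (Subsingleton.elim _ _)
    · simp only [map_add, map_smul, cX_e0, smul_eq_mul, mul_one, c]
      ring
    · simp only [map_add, map_smul, cY_e0, smul_eq_mul, mul_zero, add_zero]
      rw [h3, cY_pt]
  have hc0 : ∀ q, (∀ z, W q z = z) → ∀ y, c q y = 0 := by
    intro q hq y
    show cX (W q (pt m y 0)) - m = 0
    rw [hq, cX_pt, sub_self]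
  have hct : ∀ q y, R < |y| → c q y = 0 := by
    intro q y hy
    show cX (W q (pt m y 0)) - m = 0
    rw [hW.tube q _ (Or.inl (by simpa using hy)), cX_pt, sub_self]
  have hcr : ∀ q q', W q' = W q → c q' = c q := by
    intro q q' h
    funext y
    show cX (W q' (pt m y 0)) - m = cX (W q (pt m y 0)) - m
    rw [h]
  obtain ⟨c₀, hc₀⟩ : ∃ c₀ : ℝ, ∀ q y, |c q y| ≤ c₀ := by
    obtain ⟨a, ha⟩ := ((hQ₁.prod (isCompact_Icc (a := -R) (b := R))).image
      hcs.continuous).isBounded.exists_norm_le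
    refine ⟨max a 0, fun q y => ?_⟩
    by_cases hy : R < |y|
    · rw [hct q y hy, abs_zero]
      exact le_max_right _ _
    · rcases hred q with h3 | ⟨q', hq', h3⟩
      · rw [hc0 q h3, abs_zero]
        exact le_max_right _ _
      · rw [← hcr q q' h3]
        exact (ha _ ⟨(q', y), ⟨hq', abs_le.1 (not_lt.1 hy)⟩, rfl⟩).trans (le_max_left _ _)
  -- the action
  obtain ⟨H, hH, hHd⟩ := exists_action hW.fam
  have hHq : ∀ q, ContDiff ℝ ∞ (H q) := fun q => hH.comp (contDiff_const.prodMk contDiff_id)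
  have hH0 : ∀ q z, (cX z < -R ∨ R < |cY z|) → ham (H q) z = 0 := by
    intro q z hz
    rw [ham_zero_iff]
    refine ContinuousLinearMap.ext fun v => ?_
    have h1 : W q =ᶠ[𝓝 z] id := by
      rcases hz with hz | hz
      · filter_upwards [(cX : E (0 + 1) →L[ℝ] ℝ).continuous.continuousAt.eventually_lt
          continuousAt_const hz] with y hy
        exact hW.left q y hy
      · filter_upwards [continuousAt_const.eventually_lt
          (cY : E (0 + 1) →L[ℝ] ℝ).continuous.abs.continuousAt hz] with y hy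
        exact hW.tube q y (Or.inl hy)
    rw [hHd, h1.fderiv_eq, fderiv_id, h1.self_of_nhds]
    simp
  let S : ℝ × P → ℝ → ℝ := fun q y => H q (pt (m + 1) y 0) - H q (pt (-R - 1) 0 0)
  have hpt1 : ContDiff ℝ ∞ (fun y : ℝ => (pt (m + 1) y 0 : E (0 + 1))) := by
    have h1 : (fun y : ℝ => (pt (m + 1) y 0 : E (0 + 1))) =
        fun y => ptL (m + 1, y, (0 : E 0)) := rfl
    rw [h1]
    exact ptL.contDiff.comp (contDiff_const.prodMk (contDiff_id.prodMk contDiff_const))
  have hSs : ContDiff ℝ ∞ (fun x : (ℝ × P) × ℝ => S x.1 x.2) :=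
    (hH.comp (contDiff_fst.prodMk (hpt1.comp contDiff_snd))).sub
      (hH.comp (contDiff_fst.prodMk contDiff_const))
  have hSd : ∀ q y, HasDerivAt (S q) (c q y) y := by
    intro q y
    set z : E (0 + 1) := pt (m + 1) y 0 with hz
    have h1 := (((hHq q).differentiable (by simp) z).hasFDerivAt.comp_hasDerivAt y
      (hasDerivAt_pt (m + 1) y)).sub_const (H q (pt (-R - 1) 0 0))
    have h2 : fderiv ℝ (H q) z f0 = c q y := by
      rw [hHd, hWc q z (by rw [hz, cX_pt]; linarith)]
      have h3 : HasFDerivAt (fun z => cY (W q z)) ((cY : E (0 + 1) →L[ℝ] ℝ).comp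
          (fderiv ℝ (W q) z)) z :=
        (cY : E (0 + 1) →L[ℝ] ℝ).hasFDerivAt.comp z
          ((hWs q).differentiable (by simp) z).hasFDerivAt
      have h4 : (fun z => cY (W q z)) =ᶠ[𝓝 z] cY := by
        filter_upwards [continuousAt_const.eventually_lt
          (cX : E (0 + 1) →L[ℝ] ℝ).continuous.continuousAt
          (show m < cX z by rw [hz, cX_pt]; linarith)] with z' hz'
        exact (hout q z' hz'.le).1
      have h5 := (h3.congr_of_eventuallyEq h4.symm).unique
        (cY : E (0 + 1) →L[ℝ] ℝ).hasFDerivAt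
      have h6 := congrArg (fun f : E (0 + 1) →L[ℝ] ℝ => f f0) h5
      have h7 : cY (fderiv ℝ (W q) z f0) = 1 := h6
      rw [h7, hz]
      simp
    rw [h2] at h1
    exact h1
  have hseg : ∀ q, ∀ a a' : E (0 + 1), (∀ z ∈ segment ℝ a a', cX z < -R ∨ R < |cY z|) →
      H q a' = H q a := fun q a a' h => const_segment (hHq q) fun z hz => hH0 q z (h z hz)
  have hS0 : ∀ q y, R < |y| → S q y = 0 := by
    intro q y hy
    have h1 := hseg q (pt (-R - 1) y 0) (pt (m + 1) y 0) (by
      rintro z ⟨r, s, -, -, hrs, rfl⟩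
      right
      simp only [map_add, map_smul, cY_pt, smul_eq_mul]
      rwa [← add_mul, hrs, one_mul])
    have h2 := hseg q (pt (-R - 1) 0 0) (pt (-R - 1) y 0) (by
      rintro z ⟨r, s, -, -, hrs, rfl⟩
      left
      simp only [map_add, map_smul, cX_pt, smul_eq_mul]
      rw [← add_mul, hrs, one_mul]
      linarith)
    show H q (pt (m + 1) y 0) - H q (pt (-R - 1) 0 0) = 0
    rw [h1, h2, sub_self]
  have hSz : ∀ q, (∀ y, c q y = 0) → ∀ y, S q y = 0 := by
    intro q hq y
    have h1 := is_const_of_deriv_eq_zero (fun y => (hSd q y).differentiableAt)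
      (fun y => by rw [(hSd q y).deriv, hq]) y (R + 1)
    rw [h1]
    exact hS0 q _ (by rw [abs_of_pos (by linarith)]; linarith)
  clear_value S
  -- the shear
  set R₃ : ℝ := max R 1 with hR₃
  have hR₃0 : 0 < R₃ := lt_max_of_lt_left hR
  have hK : KFam (fun (q : ℝ × P) (s y : ℝ) (_ : E 0) => deriv et s * S q y) R₃ := by
    refine ⟨?_, fun q s y w h => ?_⟩
    · have h1 : ContDiff ℝ ∞ (fun x : (ℝ × P) × ℝ × ℝ × E 0 => deriv et x.2.1) :=
        det_smooth.comp (contDiff_fst.comp contDiff_snd)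
      have h2 : ContDiff ℝ ∞ (fun x : (ℝ × P) × ℝ × ℝ × E 0 => S x.1 x.2.2.1) :=
        hSs.comp (contDiff_fst.prodMk (contDiff_fst.comp (contDiff_snd.comp contDiff_snd)))
      exact h1.mul h2
    · rcases h with h | h | h
      · have : s ∉ Icc (0 : ℝ) 1 := by
          intro hs
          rw [abs_of_nonneg hs.1] at h
          linarith [hs.2, le_max_right R 1]
        show deriv et s * S q y = 0
        rw [det_off this, zero_mul]
      · show deriv et s * S q y = 0
        rw [hS0 q y (lt_of_le_of_lt (le_max_left _ _) h), mul_zero]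
      · exfalso
        rw [Subsingleton.elim w 0, norm_zero] at h
        linarith
  have hβ : BetaFam (fun (_ : ℝ × P) (x : ℝ) => et x) 1 :=
    ⟨et_smooth.comp contDiff_snd, fun _ x hx => et_zero (by linarith),
      fun _ x hx => et_one hx.le⟩
  obtain ⟨C, hC, hCS, -⟩ := exists_C (n := 0) hR₃0 hK hβ (b := fun _ _ => 1)
    (fun q s y w => by
      have h1 : ∀ v : E 0, HasDerivAt (fun _ : ℝ => v) (0 : E 0) s := fun v =>
        hasDerivAt_const s v
      have h2 := h1 w
      have h3 : ham ((fun (q : ℝ × P) (s y : ℝ) (_ : E 0) => deriv et s * S q y) q s y)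
          (((1 : SympCt 0)).map w) = 0 := Subsingleton.elim _ _
      rw [h3]
      exact h2) (fun _ _ => rfl)
  have hC1 : SFam (fun q : ℝ × P => C q 1) :=
    ⟨hCS.fam.smooth.comp ((contDiff_fst.prodMk contDiff_const).prodMk contDiff_snd),
      fun q => hCS.fam.symp (q, 1), fun q => hCS.fam.bij (q, 1)⟩
  have hCr : ∀ q z, 1 + c₀ < cX z → C q 1 z = z + c q (cY z) • e0 := by
    intro q z hz
    have h1 := shear_flow hSs hSd hK hβ hR₃0 hC q z (by linarith [hc₀ q (cY z)]) 1
    rwa [et_one le_rfl, one_mul] at h1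
  have hCz : ∀ q, (∀ y, c q y = 0) → ∀ z, C q 1 z = z := by
    intro q hq z
    have hF : ContDiff ℝ ∞ (fun x : ℝ × E (0 + 1) => ham (cut (fun (_ : ℝ × P) (x : ℝ) => et x)
        (fun (q : ℝ × P) (s y : ℝ) (_ : E 0) => deriv et s * S q y) q x.1) x.2) :=
      ham_smooth_param (L := fun s : ℝ => cut (fun (_ : ℝ × P) (x : ℝ) => et x)
        (fun (q : ℝ × P) (s y : ℝ) (_ : E 0) => deriv et s * S q y) q s)
        ((cut_smooth hK hβ).comp ((contDiff_const.prodMk contDiff_fst).prodMk contDiff_snd))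
    refine td_uniq hF (t₀ := -R₃ - 1) (hC.deriv q · z) (γ₂ := fun _ => z) (fun s => ?_)
      (hC.zero q z) 1
    have h1 : ham (cut (fun (_ : ℝ × P) (x : ℝ) => et x)
        (fun (q : ℝ × P) (s y : ℝ) (_ : E 0) => deriv et s * S q y) q s) z = 0 := by
      refine ham_zero_of_ev (Eventually.of_forall fun y => ?_)
      show et (cX y) * (deriv et s * S q (cY y)) = 0
      rw [hSz q hq, mul_zero, mul_zero]
    rw [h1]
    exact hasDerivAt_const s z
  -- the quotient
  set T : ℝ := max (max R₃ 1) (max m (1 + |c₀| + 1)) with hT'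
  have hTR : R₃ ≤ T := (le_max_left _ _).trans (le_max_left _ _)
  have hT1 : max R₃ 1 ≤ T := le_max_left _ _
  have hTm : m ≤ T := (le_max_left _ _).trans (le_max_right _ _)
  have hTc : 1 + |c₀| + 1 ≤ T := (le_max_right _ _).trans (le_max_right _ _)
  have hRR : R ≤ R₃ := le_max_left _ _
  have hagree : ∀ q z, z ∉ closedBall (0 : E (0 + 1)) T → W q z = C q 1 z := by
    intro q z hz
    rw [mem_closedBall_zero_iff, norm_le_iff, not_and_or, not_and_or, not_le, not_le, not_le] at hz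
    by_cases hY : T < |cY z|
    · rw [hW.tube q z (Or.inl (by linarith))]
      exact (hCS.tube (q, 1) z (Or.inl (lt_of_le_of_lt hT1 hY))).symm
    have hX : T < |cX z| := by
      rcases hz with hz | hz | hz
      · exact hz
      · exact absurd hz hY
      · exfalso
        rw [Subsingleton.elim (tl z) 0, norm_zero] at hz
        linarith
    rcases lt_abs.1 hX with h | h
    · rw [hWc q z (by linarith), hCr q z (by linarith [le_abs_self c₀])]
    · rw [hW.left q z (by linarith)]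
      exact (hCS.left (q, 1) z (by
        show cX z < -(max R₃ 1)
        linarith)).symm
  have hproperE : ProperSpace (E (0 + 1)) := FiniteDimensional.proper_real _
  obtain ⟨θ, hθ, hθs, hθe⟩ := exists_quot hW.fam hC1 (isCompact_closedBall (0 : E (0 + 1)) T) hagree
  have hfin := htp_of (θ := θ) hθ (isCompact_closedBall (0 : E (0 + 1)) T) hθs (R := R)
    (fun s p hp => map_eq_one fun z => by
      have h1 := hθe (s, p) z
      rwa [hWQ s p hp, hCz _ (hc0 _ (hWQ s p hp))] at h1)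
  have e0' : (fun p => θ (0, p)) = b := by
    funext p
    refine ext_map fun z => ?_
    have h1 := hθe (0, p) z
    have hc' : ∀ y, c (0, p) y = 0 := by
      intro y
      show cX (W (0, p) (pt m y 0)) - m = 0
      rw [hW0 0 p le_rfl, hbz, cX_pt, sub_self]
      refine norm_gt_of_cX (lt_of_lt_of_le ?_ (le_abs_self _))
      rw [cX_pt]
      linarith
    rwa [hW0 0 p le_rfl, hCz _ hc'] at h1
  have e1' : (fun p => θ (1, p)) = fun _ => 1 := by
    funext p
    refine map_eq_one fun z => ?_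
    have h1 := hθe (1, p) z
    rwa [hW1 1 p le_rfl, hCz _ (hc0 _ (hW1 1 p le_rfl))] at h1
  rw [e0', e1'] at hfin
  exact hfin

end Pool.Agent.H822.SM
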