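import Mathlib
import Pool.Agent.H822.SM.Act
import Pool.Agent.H822.EX.Bridge

/-!
# `Symp_ct(ℝ²)` is weakly contractible: the form used in the statements
-/

set_option autoImplicit false

open scoped ContDiff
open Set Filter Topology Function
open Q170.SC

namespace Pool.Agent.H822.SM

/-- all families in `Symp_ct(ℝ²)` are null-homotopic -/
theorem gtrivial_one : EF.GTrivial 1 := by
  intro P _ _ _ b hb
  exact (EF.htp_iff _ _).2 (symp_trivial ((EF.fam_iff b).1 hb))

theorem gtrivial_of {n : ℕ} (h : n = 1 ∨ EF.GTrivial n) : EF.GTrivial n := by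
  rcases h with rfl | h
  · exact gtrivial_one
  · exact h

end Pool.Agent.H822.SM
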