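import Mathlib
import Pool.Agent.H822.SM.Par2

/-!
# The nonlinear LU decomposition
-/

set_option autoImplicit false

open scoped ContDiff
open Set Filter Topology Function Metric

namespace Pool.Agent.H822.SM

section basic

variable {E : Type} [NormedAddCommGroup E] [NormedSpace ℝ E]

/-- the space `E` is the direct sum of the ranges of `q 0, …, q (r - 1)` -/
structure Dec (r : ℕ) (q : ℕ → E →L[ℝ] E) : Prop where
  orth : ∀ i < r, ∀ j < r, i ≠ j → ∀ x, q i (q j x) = 0
  sum : ∀ x, ∑ i ∈ Finset.range r, q i x = x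

/-- the condition which defines the cell -/
def CellM (r : ℕ) (q : ℕ → E →L[ℝ] E) (g : E → E) : Prop :=
  ∀ k ≤ r, ∀ x v, (∀ i, k ≤ i → i < r → q i v = 0) → (∀ i < k, q i (fderiv ℝ g x v) = 0) → v = 0

/-- compositions -/
def cmpM (f : ℕ → E → E) : ℕ → E → E
  | 0 => fun x => x
  | k + 1 => fun x => f k (cmpM f k x)

/-- the sum of the first projections -/
noncomputable def pr (q : ℕ → E →L[ℝ] E) (k : ℕ) : E →L[ℝ] E := ∑ i ∈ Finset.range k, q i

theorem pr_apply (q : ℕ → E →L[ℝ] E) (k : ℕ) (x : E) :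
    pr q k x = ∑ i ∈ Finset.range k, q i x := by
  rw [pr, ContinuousLinearMap.sum_apply]

variable {r : ℕ} {q : ℕ → E →L[ℝ] E}

theorem Dec.idem (h : Dec r q) {i : ℕ} (hi : i < r) (x : E) : q i (q i x) = q i x := by
  conv_rhs => rw [← h.sum x, map_sum]
  rw [Finset.sum_eq_single i]
  · intro j hj hji
    exact h.orth i hi j (Finset.mem_range.1 hj) (Ne.symm hji) x
  · intro hi'
    exact absurd (Finset.mem_range.2 hi) hi'

theorem Dec.q_pr (h : Dec r q) {i k : ℕ} (hi : i < r) (hk : k ≤ r) (x : E) :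
    q i (pr q k x) = if i < k then q i x else 0 := by
  rw [pr_apply, map_sum]
  split_ifs with hik
  · rw [Finset.sum_eq_single i]
    · exact h.idem hi x
    · intro j hj hji
      exact h.orth i hi j ((Finset.mem_range.1 hj).trans_le hk) (Ne.symm hji) x
    · intro hi'
      exact absurd (Finset.mem_range.2 hik) hi'
  · refine Finset.sum_eq_zero fun j hj => h.orth i hi j ((Finset.mem_range.1 hj).trans_le hk) ?_ x
    rintro rfl
    exact hik (Finset.mem_range.1 hj)

theorem Dec.ext (h : Dec r q) {x y : E} (hxy : ∀ i < r, q i x = q i y) : x = y := by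
  rw [← h.sum x, ← h.sum y]
  exact Finset.sum_congr rfl fun i hi => hxy i (Finset.mem_range.1 hi)

theorem Dec.pr_all (h : Dec r q) (x : E) : pr q r x = x := by
  rw [pr_apply, h.sum]

theorem pr_zero' (x : E) : pr q 0 x = 0 := by
  rw [pr_apply, Finset.range_zero, Finset.sum_empty]

theorem pr_succ' (k : ℕ) (x : E) : pr q (k + 1) x = pr q k x + q k x := by
  rw [pr_apply, pr_apply, Finset.sum_range_succ]

/-- the range of the projection -/
abbrev blk (q : ℕ → E →L[ℝ] E) (i : ℕ) : Submodule ℝ E := LinearMap.range (q i : E →ₗ[ℝ] E)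

theorem Dec.blk_orth (h : Dec r q) {i j : ℕ} (hi : i < r) (hj : j < r) (hij : i ≠ j) {v : E}
    (hv : v ∈ blk q j) : q i v = 0 := by
  obtain ⟨w, rfl⟩ := hv
  exact h.orth i hi j hj hij w

/-! ### compositions of parallel maps -/

theorem cmp_ge (h : Dec r q) {f : ℕ → E → E} (hf : ∀ i < r, ParM (blk q i) (f i)) {i : ℕ}
    (hi : i < r) {k : ℕ} (hk : k ≤ i) (x : E) : q i (cmpM f k x) = q i x := by
  induction k with
  | zero => rfl
  | succ k ih =>
    have h1 : f k (cmpM f k x) - cmpM f k x ∈ blk q k := hf k (by omega) _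
    have h2 := h.blk_orth hi (show k < r by omega) (by omega) h1
    rw [map_sub, sub_eq_zero] at h2
    show q i (f k (cmpM f k x)) = q i x
    rw [h2, ih (by omega)]

theorem cmp_lt (h : Dec r q) {f : ℕ → E → E} (hf : ∀ i < r, ParM (blk q i) (f i)) {i k m : ℕ}
    (hi : i < k) (hkm : k ≤ m) (hm : m ≤ r) (x : E) : q i (cmpM f m x) = q i (cmpM f k x) := by
  induction m, hkm using Nat.le_induction with
  | base => rfl
  | succ m hkm ih =>
    have h1 : f m (cmpM f m x) - cmpM f m x ∈ blk q m := hf m (by omega) _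
    have h2 := h.blk_orth (show i < r by omega) (show m < r by omega) (by omega) h1
    rw [map_sub, sub_eq_zero] at h2
    show q i (f m (cmpM f m x)) = _
    rw [h2, ih (by omega)]

theorem cmp_eq (h : Dec r q) {f : ℕ → E → E} (hf : ∀ i < r, ParM (blk q i) (f i)) {k : ℕ}
    (hk : k ≤ r) (x : E) : cmpM f k x = x + pr q k (cmpM f r x - x) := by
  refine h.ext fun i hi => ?_
  rw [map_add, h.q_pr hi hk]
  split_ifs with hik
  · rw [map_sub, cmp_lt h hf hik hk le_rfl]
    abel
  · rw [add_zero, cmp_ge h hf hi (not_lt.1 hik)]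

theorem cmp_smooth {f : ℕ → E → E} (hf : ∀ i, ContDiff ℝ ∞ (f i)) (k : ℕ) :
    ContDiff ℝ ∞ (cmpM f k) := by
  induction k with
  | zero => exact contDiff_id
  | succ k ih => exact (hf k).comp ih

theorem cmp_inj {f : ℕ → E → E} (hf : ∀ i, ContDiff ℝ ∞ (f i))
    (hi : ∀ i z v, fderiv ℝ (f i) z v = 0 → v = 0) (k : ℕ) (z v : E)
    (hv : fderiv ℝ (cmpM f k) z v = 0) : v = 0 := by
  induction k generalizing z v with
  | zero =>
    change fderiv ℝ (fun x : E => x) z v = 0 at hv
    rw [fderiv_fun_id] at hv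
    exact hv
  | succ k ih => exact inj_comp (hf k) (cmp_smooth hf k) (hi k) ih z v hv

theorem clm_fderiv (A : E →L[ℝ] E) {g : E → E} (hg : ContDiff ℝ ∞ g) (z v : E) :
    fderiv ℝ (fun x => A (g x)) z v = A (fderiv ℝ g z v) := by
  have h1 : HasFDerivAt (fun x => A (g x)) (A.comp (fderiv ℝ g z)) z :=
    A.hasFDerivAt.comp z (hg.differentiable (by simp) z).hasFDerivAt
  rw [h1.fderiv]
  rfl

theorem cmp_cell (h : Dec r q) {f : ℕ → E → E} (hs : ∀ i, ContDiff ℝ ∞ (f i))
    (hi : ∀ i z v, fderiv ℝ (f i) z v = 0 → v = 0) (hf : ∀ i < r, ParM (blk q i) (f i)) :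
    CellM r q (cmpM f r) := by
  intro k hk x v h1 h2
  refine cmp_inj hs hi k x v (h.ext fun i hir => ?_)
  rw [map_zero]
  by_cases hik : i < k
  · have h3 : (fun x => q i (cmpM f k x)) = fun x => q i (cmpM f r x) :=
      funext fun x => (cmp_lt h hf hik hk le_rfl x).symm
    have h4 := clm_fderiv (q i) (cmp_smooth hs k) x v
    rw [h3, clm_fderiv (q i) (cmp_smooth hs r)] at h4
    rw [← h4, h2 i hik]
  · have h3 : (fun x => q i (cmpM f k x)) = fun x => q i x :=
      funext fun x => cmp_ge h hf hir (not_lt.1 hik) x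
    have h4 := clm_fderiv (q i) (cmp_smooth hs k) x v
    rw [h3, (q i).fderiv] at h4
    rw [← h4, h1 i (not_lt.1 hik) hir]

end basic

section fam

variable {E : Type} [NormedAddCommGroup E] [NormedSpace ℝ E] [FiniteDimensional ℝ E]
  {P : Type} [NormedAddCommGroup P] [NormedSpace ℝ P] [FiniteDimensional ℝ P]
  {r : ℕ} {q : ℕ → E →L[ℝ] E}

omit [FiniteDimensional ℝ E] [FiniteDimensional ℝ P] in
theorem lead_dfam (h : Dec r q) {φ : P → E → E} (hφ : DFam φ) (hc : ∀ p, CellM r q (φ p))
    {k : ℕ} (hk : k ≤ r) : DFam fun p x => x + pr q k (φ p x - x) := by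
  obtain ⟨K, hK, hoff⟩ := hφ.supp
  refine ⟨contDiff_snd.add ((pr q k).contDiff.comp (hφ.smooth.sub contDiff_snd)),
    fun p x v hv => ?_, K, hK, fun p x hx => ?_⟩
  · have h1 : HasFDerivAt (fun x => x + pr q k (φ p x - x)) (ContinuousLinearMap.id ℝ E +
        (pr q k).comp (fderiv ℝ (φ p) x - ContinuousLinearMap.id ℝ E)) x :=
      (hasFDerivAt_id x).add ((pr q k).hasFDerivAt.comp x
        (((hφ.slice p).differentiable (by simp) x).hasFDerivAt.sub (hasFDerivAt_id x)))
    rw [h1.fderiv] at hv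
    have h2 : v + pr q k (fderiv ℝ (φ p) x v - v) = 0 := hv
    refine hc p k hk x v (fun i hki hir => ?_) fun i hik => ?_
    · have h3 := congrArg (q i) h2
      rw [map_add, h.q_pr hir hk, if_neg (not_lt.2 hki), add_zero, map_zero] at h3
      exact h3
    · have h3 := congrArg (q i) h2
      rw [map_add, h.q_pr (hik.trans_le hk) hk, if_pos hik, map_zero, map_sub] at h3
      rwa [add_sub_cancel] at h3
  · show x + pr q k (φ p x - x) = x
    rw [hoff p x hx, sub_self, map_zero, add_zero]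

/-- **existence of the factorization** -/
theorem factor (h : Dec r q) {φ : P → E → E} (hφ : DFam φ) (hc : ∀ p, CellM r q (φ p)) :
    ∃ f : ℕ → P → E → E, (∀ k, DFam (f k)) ∧ (∀ k p, ParM (blk q k) (f k p)) ∧
      (∀ k, r ≤ k → f k = fun _ z => z) ∧ ∀ p, cmpM (fun k => f k p) r = φ p := by
  have h1 : ∀ k, ∃ f : P → E → E, DFam f ∧ (∀ p, ParM (blk q k) (f p)) ∧
      (r ≤ k → f = fun _ z => z) ∧ (k < r → ∀ p x, f p (x + pr q k (φ p x - x)) =
        x + pr q (k + 1) (φ p x - x)) := by
    intro k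
    by_cases hk : k < r
    · obtain ⟨ψ, hψ, e1, e2⟩ := (lead_dfam h hφ hc hk.le).exists_inv
      have hg := lead_dfam h hφ hc (k := k + 1) hk
      have key : ∀ p x, (fun p z => (fun p x => x + pr q (k + 1) (φ p x - x)) p (ψ p z)) p
          (x + pr q k (φ p x - x)) = x + pr q (k + 1) (φ p x - x) := by
        intro p x
        show ψ p (x + pr q k (φ p x - x)) + pr q (k + 1) (φ p (ψ p (x + pr q k (φ p x - x))) -
          ψ p (x + pr q k (φ p x - x))) = _
        rw [e1]
      refine ⟨fun p z => (fun p x => x + pr q (k + 1) (φ p x - x)) p (ψ p z), hg.comp hψ,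
        fun p y => ?_, fun h2 => absurd hk (not_lt.2 h2), fun _ => key⟩
      have e3 : y = ψ p y + pr q k (φ p (ψ p y) - ψ p y) := (e2 p y).symm
      rw [e3, key, pr_succ']
      have e4 : ψ p y + (pr q k (φ p (ψ p y) - ψ p y) + q k (φ p (ψ p y) - ψ p y)) -
          (ψ p y + pr q k (φ p (ψ p y) - ψ p y)) = q k (φ p (ψ p y) - ψ p y) := by abel
      rw [e4]
      exact ⟨_, rfl⟩
    · refine ⟨fun _ z => z, DFam.id, fun p x => ?_, fun _ => rfl, fun h2 => absurd h2 hk⟩
      show x - x ∈ _
      rw [sub_self]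
      exact Submodule.zero_mem _
  choose f hf1 hf2 hf3 hf4 using h1
  refine ⟨f, hf1, hf2, hf3, fun p => ?_⟩
  have h2 : ∀ k ≤ r, ∀ x, cmpM (fun k => f k p) k x = x + pr q k (φ p x - x) := by
    intro k
    induction k with
    | zero =>
      intro _ x
      rw [pr_zero', add_zero]
      rfl
    | succ k ih =>
      intro hk x
      show f k p (cmpM (fun k => f k p) k x) = _
      rw [ih (by omega), hf4 k (by omega)]
  funext x
  rw [h2 r le_rfl, h.pr_all]
  abel

omit [FiniteDimensional ℝ E] in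
/-- **uniqueness of the factorization** -/
theorem factor_unique (h : Dec r q) {f f' : ℕ → E → E} (hf : ∀ i < r, ParM (blk q i) (f i))
    (hf' : ∀ i < r, ParM (blk q i) (f' i)) (hs : ∀ i < r, Surjective (f i))
    (he : cmpM f r = cmpM f' r) {k : ℕ} (hk : k < r) : f k = f' k := by
  have h1 : ∀ k ≤ r, cmpM f k = cmpM f' k := by
    intro k hk
    funext x
    rw [cmp_eq h hf hk, cmp_eq h hf' hk, he]
  have h2 : ∀ k ≤ r, Surjective (cmpM f k) := by
    intro k
    induction k with
    | zero => exact fun _ => surjective_id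
    | succ k ih => exact fun hk => (hs k (by omega)).comp (ih (by omega))
  funext y
  obtain ⟨x, rfl⟩ := h2 k hk.le y
  have h3 := congrFun (h1 (k + 1) hk) x
  change f k (cmpM f k x) = f' k (cmpM f' k x) at h3
  rw [h3, h1 k hk.le]

omit [FiniteDimensional ℝ E] in
theorem cmp_fam_smooth {Q : Type} [NormedAddCommGroup Q] [NormedSpace ℝ Q] {Φ : ℕ → Q → E → E}
    (hΦ : ∀ k, ContDiff ℝ ∞ (fun y : Q × E => Φ k y.1 y.2)) (m : ℕ) :
    ContDiff ℝ ∞ (fun y : Q × E => cmpM (fun k => Φ k y.1) m y.2) := by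
  induction m with
  | zero => exact contDiff_snd
  | succ m ih => exact (hΦ m).comp (contDiff_fst.prodMk ih)

omit [FiniteDimensional ℝ P] in
/-- **the cell is contractible** -/
theorem cell_trivial [FiniteDimensional ℝ P] (h : Dec r q)
    (hd : ∀ k < r, Module.finrank ℝ (blk q k) ≤ 2)
    {φ : P → E → E} (hφ : DFam φ) (hc : ∀ p, CellM r q (φ p)) : NHtp (CellM r q) φ := by
  obtain ⟨f, hf1, hf2, hf3, hf4⟩ := factor h hφ hc
  have h1 : ∀ k, NHtp (ParM (blk q k)) (f k) := by
    intro k
    by_cases hk : k < r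
    · exact par_trivial (hd k hk) (hf1 k) (hf2 k)
    · rw [hf3 k (not_lt.1 hk)]
      refine ⟨fun _ z => z, ∅, isCompact_empty, contDiff_snd, fun y z v hv => ?_,
        fun _ _ _ _ => rfl, fun _ => rfl, fun _ => rfl, fun y x => ?_⟩
      · rw [fderiv_fun_id] at hv
        exact hv
      · show x - x ∈ _
        rw [sub_self]
        exact Submodule.zero_mem _
  choose Φ K hK e1 e2 e3 e4 e5 e6 using h1
  refine ⟨fun y => cmpM (fun k => Φ k y) r, ⋃ k ∈ Finset.range r, K k,
    (Finset.range r).isCompact_biUnion fun k _ => hK k, cmp_fam_smooth e1 r, fun y z v hv => ?_,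
    fun s p z hz => ?_, fun p => ?_, fun p => ?_, fun y => ?_⟩
  · exact cmp_inj (f := fun k => Φ k y) (fun k => (e1 k).comp (contDiff_const.prodMk contDiff_id))
      (fun k => e2 k y) r z v hv
  · have h2 : ∀ k ≤ r, cmpM (fun k => Φ k (s, p)) k z = z := by
      intro k
      induction k with
      | zero => exact fun _ => rfl
      | succ k ih =>
        intro hk
        show Φ k (s, p) (cmpM (fun k => Φ k (s, p)) k z) = z
        rw [ih (by omega), e3 k s p z fun h3 => hz ?_]
        exact mem_biUnion (Finset.mem_range.2 (by omega)) h3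
    exact h2 r le_rfl
  · have h2 : (fun k => Φ k (0, p)) = fun k => f k p := funext fun k => e4 k p
    show cmpM (fun k => Φ k (0, p)) r = φ p
    rw [h2, hf4]
  · have h2 : ∀ m, cmpM (fun k => Φ k (1, p)) m = fun z => z := by
      intro m
      induction m with
      | zero => rfl
      | succ m ih =>
        funext z
        show Φ m (1, p) (cmpM (fun k => Φ k (1, p)) m z) = z
        rw [ih, e5]
    exact h2 r
  · exact cmp_cell (f := fun k => Φ k y) h
      (fun k => (e1 k).comp (contDiff_const.prodMk contDiff_id)) (fun k => e2 k y)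
      fun k _ => e6 k y

end fam

end Pool.Agent.H822.SM
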