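import Mathlib

/-!
# The nonlinear LU decomposition of diffeomorphisms: definitions

`E` is a finite dimensional space, for instance `ℝ⁴`.  A direct sum decomposition
`E = V₀ ⊕ ⋯ ⊕ V_{r-1}` is given by the projections `q i : E → E` onto the subspaces
`Vᵢ = block q i`.  The space `P` of parameters is any finite dimensional space, for instance a
point; if it has dimension `j` then homotopy classes of compactly supported maps from `P` to a
space correspond to elements of its `j`-th homotopy group.
-/

set_option autoImplicit false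

open scoped ContDiff
open Set Filter Topology Function

namespace Pool.Agent.H822.LD

variable {E : Type} [NormedAddCommGroup E] [NormedSpace ℝ E]
  {P : Type} [NormedAddCommGroup P] [NormedSpace ℝ P]

/-- The subspace `Vᵢ`, the range of the projection `q i`. -/
abbrev block (q : ℕ → E →L[ℝ] E) (i : ℕ) : Submodule ℝ E := LinearMap.range (q i : E →ₗ[ℝ] E)

/-- `q 0, …, q (r - 1)` are the projections which belong to a direct sum decomposition
`E = V₀ ⊕ ⋯ ⊕ V_{r-1}`. -/
structure Decomposition (r : ℕ) (q : ℕ → E →L[ℝ] E) : Prop where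
  orth : ∀ i < r, ∀ j < r, i ≠ j → ∀ x, q i (q j x) = 0
  sum : ∀ x, ∑ i ∈ Finset.range r, q i x = x

/-- A smooth map `φ` with compact support from `P` to the group `Diff_c(E)` of the compactly
supported diffeomorphisms of `E`. -/
structure Diffs (φ : P → Equiv.Perm E) : Prop where
  smooth : ContDiff ℝ ∞ (fun y : P × E => φ y.1 y.2)
  smooth_inv : ContDiff ℝ ∞ (fun y : P × E => (φ y.1).symm y.2)
  supp : ∃ K : Set (P × E), IsCompact K ∧ ∀ p x, (p, x) ∉ K → φ p x = x

/-- Two such maps are smoothly homotopic, with compact support, through diffeomorphisms with the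
property `A`. -/
def HtpThrough (A : (E → E) → Prop) (φ φ' : P → Equiv.Perm E) : Prop :=
  ∃ (B : ℝ × P → Equiv.Perm E) (K : Set (P × E)), IsCompact K ∧
    ContDiff ℝ ∞ (fun y : (ℝ × P) × E => B y.1 y.2) ∧
    ContDiff ℝ ∞ (fun y : (ℝ × P) × E => (B y.1).symm y.2) ∧
    (∀ s p x, (p, x) ∉ K → B (s, p) x = x) ∧ (∀ p, B (0, p) = φ p) ∧ (∀ p, B (1, p) = φ' p) ∧
    ∀ y, A (B y)

/-- Two such maps are smoothly homotopic, with compact support.  If `P` is a point this says that
two compactly supported diffeomorphisms are smoothly isotopic, with compact support. -/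
def Htp (φ φ' : P → Equiv.Perm E) : Prop := HtpThrough (fun _ => True) φ φ'

/-- `g` moves the points parallel to `V`. -/
def Parallel (V : Submodule ℝ E) (g : E → E) : Prop := ∀ x, g x - x ∈ V

/-- The (nonlinear) big cell: for all `k ≤ r`, at all points the derivative of `g` maps
`V₀ ⊕ ⋯ ⊕ V_{k-1}` injectively to a subspace which meets `V_k ⊕ ⋯ ⊕ V_{r-1}` in `0` only.  (In
blocks: the leading principal minors of the derivative do not vanish.)  For `r = 2` and a
diffeomorphism `g` with compact support this says that `g` maps the affine subspaces parallel to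
`V₀` to graphs of maps from `V₀` to `V₁`. -/
def InCell (r : ℕ) (q : ℕ → E →L[ℝ] E) (g : E → E) : Prop :=
  ∀ k ≤ r, ∀ x v, (∀ i, k ≤ i → i < r → q i v = 0) → (∀ i < k, q i (fderiv ℝ g x v) = 0) → v = 0

/-- The product `f_{k-1} ∘ ⋯ ∘ f₀`, for every value of the parameter. -/
def prodFam (f : ℕ → P → Equiv.Perm E) : ℕ → P → Equiv.Perm E
  | 0 => 1
  | k + 1 => f k * prodFam f k

end Pool.Agent.H822.LD
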