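import Mathlib
import Pool.Agent.H822.SM.LU
import Pool.Agent.H822.SM.LUDefs

/-!
# Products of diffeomorphisms parallel to subspaces
-/

set_option autoImplicit false

open scoped ContDiff
open Set Filter Topology Function

namespace Pool.Agent.H822.LD

open Pool.Agent.H822.SM

variable {E : Type} [NormedAddCommGroup E] [NormedSpace ℝ E] [FiniteDimensional ℝ E]
  {P : Type} [NormedAddCommGroup P] [NormedSpace ℝ P] [FiniteDimensional ℝ P]
  {r : ℕ} {q : ℕ → E →L[ℝ] E}

omit [FiniteDimensional ℝ E] in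
theorem Decomposition.dec (h : Decomposition r q) : Dec r q := ⟨h.orth, h.sum⟩

omit [FiniteDimensional ℝ E] [FiniteDimensional ℝ P] in
theorem Diffs.dfam {φ : P → Equiv.Perm E} (h : Diffs φ) : DFam fun p z => φ p z :=
  ⟨h.smooth, fun p z v hv => inj_of_right (f := (φ p).symm) (g := φ p)
    (h.smooth_inv.comp (contDiff_const.prodMk contDiff_id))
    (h.smooth.comp (contDiff_const.prodMk contDiff_id)) (fun z => (φ p).symm_apply_apply z) z v hv,
    h.supp⟩

theorem exists_diffs {φ : P → E → E} (h : DFam φ) :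
    ∃ φ' : P → Equiv.Perm E, Diffs φ' ∧ ∀ p z, φ' p z = φ p z := by
  obtain ⟨ψ, hψ, h1, h2⟩ := h.exists_inv
  exact ⟨fun p => ⟨φ p, ψ p, h1 p, h2 p⟩, ⟨h.smooth, hψ.smooth, h.supp⟩, fun _ _ => rfl⟩

theorem through_of_nhtp {A : (E → E) → Prop} {φ : P → Equiv.Perm E}
    (h : NHtp A (fun p z => φ p z)) : HtpThrough A φ 1 := by
  obtain ⟨B, K, hK, h1, h2, h3, h4, h5, h6⟩ := h
  obtain ⟨C, e1, e2, e3, e4, e5⟩ := htp_inv hK h1 h2 h3
  refine ⟨fun y => ⟨B y, C y, e4 y, e5 y⟩, K, hK, h1, e1, h3, fun p => ?_, fun p => ?_, h6⟩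
  · ext1 z
    exact congrFun (h4 p) z
  · ext1 z
    exact congrFun (h5 p) z

omit [FiniteDimensional ℝ E] [FiniteDimensional ℝ P] in
theorem HtpThrough.mono {A A' : (E → E) → Prop} (hA : ∀ g, A g → A' g)
    {φ φ' : P → Equiv.Perm E} (h : HtpThrough A φ φ') : HtpThrough A' φ φ' := by
  obtain ⟨B, K, hK, h1, h2, h3, h4, h5, h6⟩ := h
  exact ⟨B, K, hK, h1, h2, h3, h4, h5, fun y => hA _ (h6 y)⟩

/-! ### the group of families -/

omit [FiniteDimensional ℝ E] [FiniteDimensional ℝ P] in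
theorem Diffs.one : Diffs (1 : P → Equiv.Perm E) :=
  ⟨contDiff_snd, contDiff_snd, ∅, isCompact_empty, fun _ _ _ => rfl⟩

omit [FiniteDimensional ℝ E] [FiniteDimensional ℝ P] in
theorem Diffs.mul {φ ψ : P → Equiv.Perm E} (h : Diffs φ) (h' : Diffs ψ) : Diffs (φ * ψ) := by
  obtain ⟨K, hK, hoff⟩ := h.supp
  obtain ⟨K', hK', hoff'⟩ := h'.supp
  refine ⟨h.smooth.comp (contDiff_fst.prodMk h'.smooth),
    h'.smooth_inv.comp (contDiff_fst.prodMk h.smooth_inv), K ∪ K', hK.union hK',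
    fun p z hz => ?_⟩
  rw [mem_union, not_or] at hz
  show φ p (ψ p z) = z
  rw [hoff' p z hz.2, hoff p z hz.1]

omit [FiniteDimensional ℝ E] [FiniteDimensional ℝ P] in
theorem Diffs.inv {φ : P → Equiv.Perm E} (h : Diffs φ) : Diffs φ⁻¹ := by
  obtain ⟨K, hK, hoff⟩ := h.supp
  refine ⟨h.smooth_inv, h.smooth, K, hK, fun p z hz => ?_⟩
  show (φ p).symm z = z
  rw [Equiv.symm_apply_eq, hoff p z hz]

omit [FiniteDimensional ℝ E] [FiniteDimensional ℝ P] in
theorem Htp.one : Htp (1 : P → Equiv.Perm E) 1 :=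
  ⟨1, ∅, isCompact_empty, contDiff_snd, contDiff_snd, fun _ _ _ _ => rfl, fun _ => rfl,
    fun _ => rfl, fun _ => trivial⟩

omit [FiniteDimensional ℝ E] [FiniteDimensional ℝ P] in
theorem Htp.mul {φ φ' ψ ψ' : P → Equiv.Perm E} (h : Htp φ φ') (h' : Htp ψ ψ') :
    Htp (φ * ψ) (φ' * ψ') := by
  obtain ⟨B, K, hK, h1, h2, h3, h4, h5, -⟩ := h
  obtain ⟨C, L, hL, e1, e2, e3, e4, e5, -⟩ := h'
  refine ⟨B * C, K ∪ L, hK.union hL, h1.comp (contDiff_fst.prodMk e1),
    e2.comp (contDiff_fst.prodMk h2), fun s p x hx => ?_, fun p => ?_, fun p => ?_,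
    fun _ => trivial⟩
  · rw [mem_union, not_or] at hx
    show B (s, p) (C (s, p) x) = x
    rw [e3 s p x hx.2, h3 s p x hx.1]
  · show B (0, p) * C (0, p) = φ p * ψ p
    rw [h4, e4]
  · show B (1, p) * C (1, p) = φ' p * ψ' p
    rw [h5, e5]

omit [FiniteDimensional ℝ E] [FiniteDimensional ℝ P] in
theorem Htp.inv {φ φ' : P → Equiv.Perm E} (h : Htp φ φ') : Htp φ⁻¹ φ'⁻¹ := by
  obtain ⟨B, K, hK, h1, h2, h3, h4, h5, -⟩ := h
  refine ⟨B⁻¹, K, hK, h2, h1, fun s p x hx => ?_, fun p => ?_, fun p => ?_, fun _ => trivial⟩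
  · show (B (s, p)).symm x = x
    rw [Equiv.symm_apply_eq, h3 s p x hx]
  · show (B (0, p))⁻¹ = (φ p)⁻¹
    rw [h4]
  · show (B (1, p))⁻¹ = (φ' p)⁻¹
    rw [h5]

omit [FiniteDimensional ℝ E] [FiniteDimensional ℝ P] in
theorem Htp.refl {φ : P → Equiv.Perm E} (h : Diffs φ) : Htp φ φ := by
  obtain ⟨K, hK, hoff⟩ := h.supp
  have e1 : ContDiff ℝ ∞ (fun y : (ℝ × P) × E => (y.1.2, y.2)) :=
    (contDiff_snd.comp contDiff_fst).prodMk contDiff_snd
  exact ⟨fun y => φ y.2, K, hK, h.smooth.comp e1, h.smooth_inv.comp e1, fun _ p x hx => hoff p x hx,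
    fun _ => rfl, fun _ => rfl, fun _ => trivial⟩

/-! ### the cell -/

omit [NormedAddCommGroup E] [NormedSpace ℝ E] [FiniteDimensional ℝ E] [NormedAddCommGroup P]
  [NormedSpace ℝ P] [FiniteDimensional ℝ P] in
theorem prodFam_apply (f : ℕ → P → Equiv.Perm E) (k : ℕ) (p : P) :
    ((prodFam f k p : Equiv.Perm E) : E → E) = cmpM (fun k => f k p) k := by
  induction k with
  | zero => rfl
  | succ k ih =>
    funext x
    show f k p (prodFam f k p x) = f k p (cmpM (fun k => f k p) k x)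
    rw [ih]

theorem exists_factor (h : Decomposition r q) {φ : P → Equiv.Perm E} (hφ : Diffs φ)
    (hc : ∀ p, InCell r q (φ p)) : ∃ f : ℕ → P → Equiv.Perm E,
      (∀ k < r, Diffs (f k) ∧ ∀ p, Parallel (block q k) (f k p)) ∧ prodFam f r = φ := by
  obtain ⟨f, h1, h2, -, h4⟩ := factor h.dec hφ.dfam hc
  choose f' e1 e2 using fun k => exists_diffs (h1 k)
  refine ⟨f', fun k _ => ⟨e1 k, fun p x => ?_⟩, ?_⟩
  · rw [e2]
    exact h2 k p x
  · funext p
    have h3 : (fun k => ((f' k p : Equiv.Perm E) : E → E)) = fun k => f k p :=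
      funext fun k => funext fun x => e2 k p x
    ext1 x
    rw [prodFam_apply, h3, h4]

omit [FiniteDimensional ℝ E] [FiniteDimensional ℝ P] in
theorem factor_uniq (h : Decomposition r q) {f f' : ℕ → P → Equiv.Perm E}
    (hf : ∀ k < r, ∀ p, Parallel (block q k) (f k p))
    (hf' : ∀ k < r, ∀ p, Parallel (block q k) (f' k p)) (he : prodFam f r = prodFam f' r)
    {k : ℕ} (hk : k < r) : f k = f' k := by
  funext p
  apply Equiv.coe_fn_injective
  refine SM.factor_unique (f := fun k => f k p) (f' := fun k => f' k p) h.dec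
    (fun i hi => hf i hi p) (fun i hi => hf' i hi p) (fun i _ => (f i p).surjective) ?_ hk
  rw [← prodFam_apply, ← prodFam_apply, he]

omit [FiniteDimensional ℝ E] [FiniteDimensional ℝ P] in
theorem prodFam_diffs {f : ℕ → P → Equiv.Perm E} (hf : ∀ k < r, Diffs (f k)) {k : ℕ}
    (hk : k ≤ r) : Diffs (prodFam f k) := by
  induction k with
  | zero => exact Diffs.one
  | succ k ih => exact (hf k hk).mul (ih (by omega))

omit [FiniteDimensional ℝ E] [FiniteDimensional ℝ P] in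
theorem prodFam_cell (h : Decomposition r q) {f : ℕ → P → Equiv.Perm E}
    (hf : ∀ k < r, Diffs (f k) ∧ ∀ p, Parallel (block q k) (f k p)) (p : P) :
    InCell r q (prodFam f r p) := by
  let f' : ℕ → P → E → E := fun k p x => if k < r then f k p x else x
  have h0 : ∀ k, DFam (f' k) := by
    intro k
    by_cases hk : k < r
    · have : f' k = fun p x => f k p x := by
        funext p x
        exact if_pos hk
      rw [this]
      exact (hf k hk).1.dfam
    · have : f' k = fun p x => x := by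
        funext p x
        exact if_neg hk
      rw [this]
      exact DFam.id
  have h1 : ∀ k < r, ParM (blk q k) (f' k p) := by
    intro k hk x
    have : f' k p x = f k p x := if_pos hk
    rw [this]
    exact (hf k hk).2 p x
  have h2 : ∀ k ≤ r, cmpM (fun k => f' k p) k = prodFam f k p := by
    intro k
    induction k with
    | zero => exact fun _ => rfl
    | succ k ih =>
      intro hk
      funext x
      show f' k p (cmpM (fun k => f' k p) k x) = f k p (prodFam f k p x)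
      rw [ih (by omega)]
      exact if_pos (by omega)
  rw [← h2 r le_rfl]
  exact cmp_cell h.dec (fun k => (h0 k).slice p) (fun k => (h0 k).inj p) h1

theorem cell_through (h : Decomposition r q) (hd : ∀ k < r, Module.finrank ℝ (block q k) ≤ 2)
    {φ : P → Equiv.Perm E} (hφ : Diffs φ) (hc : ∀ p, InCell r q (φ p)) :
    HtpThrough (InCell r q) φ 1 :=
  through_of_nhtp (cell_trivial h.dec hd hφ.dfam hc)

/-! ### maps near the identity -/

omit [FiniteDimensional ℝ E] in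
theorem near_cell (h : Decomposition r q) : ∃ ε : ℝ, 0 < ε ∧ ∀ g : E → E,
    (∀ x, ‖fderiv ℝ g x - ContinuousLinearMap.id ℝ E‖ ≤ ε) → InCell r q g := by
  have hs : 0 ≤ ∑ k ∈ Finset.range (r + 1), ‖pr q k‖ := Finset.sum_nonneg fun _ _ => norm_nonneg _
  refine ⟨(1 + ∑ k ∈ Finset.range (r + 1), ‖pr q k‖)⁻¹, by positivity,
    fun g hg k hk x v h1 h2 => ?_⟩
  have e1 : pr q k v = v := by
    refine h.dec.ext fun i hi => ?_
    rw [h.dec.q_pr hi hk]
    split_ifs with hik
    · rfl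
    · exact (h1 i (not_lt.1 hik) hi).symm
  have e2 : pr q k (fderiv ℝ g x v) = 0 := by
    rw [pr_apply]
    exact Finset.sum_eq_zero fun i hi => h2 i (Finset.mem_range.1 hi)
  have e3 : v = -(pr q k ((fderiv ℝ g x - ContinuousLinearMap.id ℝ E) v)) := by
    show v = -(pr q k (fderiv ℝ g x v - v))
    rw [map_sub, e1, e2, zero_sub, neg_neg]
  have e4 : ‖v‖ ≤ ‖pr q k‖ * ((1 + ∑ k ∈ Finset.range (r + 1), ‖pr q k‖)⁻¹ * ‖v‖) := by
    calc ‖v‖ = ‖pr q k ((fderiv ℝ g x - ContinuousLinearMap.id ℝ E) v)‖ := by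
          conv_lhs => rw [e3, norm_neg]
      _ ≤ ‖pr q k‖ * ‖(fderiv ℝ g x - ContinuousLinearMap.id ℝ E) v‖ := (pr q k).le_opNorm _
      _ ≤ _ := by
          refine mul_le_mul_of_nonneg_left ?_ (norm_nonneg _)
          exact ((fderiv ℝ g x - ContinuousLinearMap.id ℝ E).le_opNorm v).trans
            (mul_le_mul_of_nonneg_right (hg x) (norm_nonneg _))
  have e5 : ‖pr q k‖ ≤ ∑ k ∈ Finset.range (r + 1), ‖pr q k‖ :=
    Finset.single_le_sum (f := fun k => ‖pr q k‖) (fun _ _ => norm_nonneg _)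
      (Finset.mem_range.2 (by omega))
  set S := ∑ k ∈ Finset.range (r + 1), ‖pr q k‖ with hS
  by_contra hv
  have hv0 : 0 < ‖v‖ := norm_pos_iff.2 hv
  have e6 : ‖pr q k‖ * ((1 + S)⁻¹ * ‖v‖) < ‖v‖ := by
    have : ‖pr q k‖ * ((1 + S)⁻¹ * ‖v‖) = (‖pr q k‖ / (1 + S)) * ‖v‖ := by ring
    rw [this]
    have e7 : ‖pr q k‖ / (1 + S) < 1 := by
      rw [div_lt_one (by linarith)]
      linarith
    calc _ < 1 * ‖v‖ := mul_lt_mul_of_pos_right e7 hv0
      _ = ‖v‖ := one_mul _
  linarith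

omit [FiniteDimensional ℝ E] [FiniteDimensional ℝ P] in
/-- a homotopy has small increments -/
theorem small_increments {B : ℝ × P → Equiv.Perm E} {K : Set (P × E)} (hK : IsCompact K)
    (h1 : ContDiff ℝ ∞ (fun y : (ℝ × P) × E => B y.1 y.2))
    (h2 : ContDiff ℝ ∞ (fun y : (ℝ × P) × E => (B y.1).symm y.2))
    (h3 : ∀ s p x, (p, x) ∉ K → B (s, p) x = x) {ε : ℝ} (hε : 0 < ε) :
    ∃ δ : ℝ, 0 < δ ∧ ∀ a ∈ Icc (0 : ℝ) 1, ∀ b ∈ Icc (0 : ℝ) 1, |a - b| < δ → ∀ p x,
      ‖fderiv ℝ (fun x => B (a, p) ((B (b, p)).symm x)) x - ContinuousLinearMap.id ℝ E‖ ≤ ε := by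
  let Θ : (ℝ × ℝ) × P → E → E := fun y x => B (y.1.1, y.2) ((B (y.1.2, y.2)).symm x)
  have hΘ : ContDiff ℝ ∞ (fun y : ((ℝ × ℝ) × P) × E => Θ y.1 y.2) := by
    refine h1.comp ((((contDiff_fst.comp (contDiff_fst.comp contDiff_fst)).prodMk
      (contDiff_snd.comp contDiff_fst))).prodMk (h2.comp ((((contDiff_snd.comp
      (contDiff_fst.comp contDiff_fst)).prodMk (contDiff_snd.comp contDiff_fst))).prodMk
      contDiff_snd)))
  let D : ((ℝ × ℝ) × P) × E → (E →L[ℝ] E) := fun y =>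
    (fderiv ℝ (fun y : ((ℝ × ℝ) × P) × E => Θ y.1 y.2) y).comp
      (ContinuousLinearMap.inr ℝ ((ℝ × ℝ) × P) E)
  have hD : Continuous D := (hΘ.continuous_fderiv (by simp)).clm_comp continuous_const
  have hDe : ∀ y x, D (y, x) = fderiv ℝ (Θ y) x := by
    intro y x
    ext v
    exact (BK.fderiv_slice hΘ y x v).symm
  let S : Set (((ℝ × ℝ) × P) × E) := (fun y : (ℝ × ℝ) × (P × E) => ((y.1, y.2.1), y.2.2)) ''
    ((Icc (0 : ℝ) 1 ×ˢ Icc (0 : ℝ) 1) ×ˢ K)
  have hS : IsCompact S := ((isCompact_Icc.prod isCompact_Icc).prod hK).image (by fun_prop)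
  have huc := hS.uniformContinuousOn_of_continuous hD.continuousOn
  rw [Metric.uniformContinuousOn_iff] at huc
  obtain ⟨δ, hδ, hu⟩ := huc ε hε
  refine ⟨δ, hδ, fun a ha b hb hab p x => ?_⟩
  have hoffK : ∀ x, (p, x) ∉ K → Θ ((a, b), p) x = x := by
    intro x hx
    show B (a, p) ((B (b, p)).symm x) = x
    have : (B (b, p)).symm x = x := by rw [Equiv.symm_apply_eq, h3 b p x hx]
    rw [this, h3 a p x hx]
  show ‖fderiv ℝ (Θ ((a, b), p)) x - _‖ ≤ ε
  by_cases hx : (p, x) ∈ K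
  · have e1 : D (((b, b), p), x) = ContinuousLinearMap.id ℝ E := by
      rw [hDe]
      have : Θ ((b, b), p) = fun x => x := funext fun x => (B (b, p)).apply_symm_apply x
      rw [this, fderiv_fun_id]
    have e2 := hu (((a, b), p), x) ⟨((a, b), (p, x)), ⟨⟨ha, hb⟩, hx⟩, rfl⟩
      (((b, b), p), x) ⟨((b, b), (p, x)), ⟨⟨hb, hb⟩, hx⟩, rfl⟩ (by
        rw [Prod.dist_eq, Prod.dist_eq, Prod.dist_eq]
        simp only [dist_self]
        rw [Real.dist_eq]
        simpa using hab)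
    rw [e1, hDe, dist_eq_norm] at e2
    exact e2.le
  · have e1 : Θ ((a, b), p) =ᶠ[𝓝 x] fun x => x := by
      have e2 : ∀ᶠ y in 𝓝 x, (p, y) ∉ K := by
        have e3 : Continuous fun y : E => (p, y) := by fun_prop
        exact e3.continuousAt.eventually (hK.isClosed.isOpen_compl.mem_nhds hx)
      filter_upwards [e2] with y hy using hoffK y hy
    rw [e1.fderiv_eq, fderiv_fun_id, sub_self, norm_zero]
    exact hε.le

/-- the group generated by the families which are parallel to one of the blocks -/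
def gen (P : Type) [NormedAddCommGroup P] [NormedSpace ℝ P] (r : ℕ) (q : ℕ → E →L[ℝ] E) :
    Subgroup (P → Equiv.Perm E) :=
  Subgroup.closure {f | Diffs f ∧ ∃ k < r, ∀ p, Parallel (block q k) (f p)}

omit [FiniteDimensional ℝ E] [FiniteDimensional ℝ P] in
theorem prodFam_mem {f : ℕ → P → Equiv.Perm E}
    (hf : ∀ k < r, Diffs (f k) ∧ ∀ p, Parallel (block q k) (f k p)) {k : ℕ} (hk : k ≤ r) :
    prodFam f k ∈ gen P r q := by
  induction k with
  | zero => exact Subgroup.one_mem _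
  | succ k ih =>
    exact Subgroup.mul_mem _ (Subgroup.subset_closure ⟨(hf k hk).1, k, hk, (hf k hk).2⟩)
      (ih (by omega))

theorem gen_of_htp (h : Decomposition r q) {φ : P → Equiv.Perm E} (hφ : Htp φ 1) :
    φ ∈ gen P r q := by
  obtain ⟨B, K, hK, h1, h2, h3, h4, h5, -⟩ := hφ
  obtain ⟨ε, hε, hcell⟩ := near_cell h
  obtain ⟨δ, hδ, hsm⟩ := small_increments hK h1 h2 h3 hε
  obtain ⟨N, hN⟩ := exists_nat_one_div_lt hδ
  have hB : ∀ s, Diffs fun p => B (s, p) := fun s =>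
    ⟨h1.comp ((contDiff_const.prodMk contDiff_fst).prodMk contDiff_snd),
      h2.comp ((contDiff_const.prodMk contDiff_fst).prodMk contDiff_snd), K, hK, h3 s⟩
  have hN0 : (0 : ℝ) < N + 1 := by positivity
  have key : ∀ j : ℕ, j ≤ N + 1 → (fun p => B (1 - (j : ℝ) / (N + 1), p)) ∈ gen P r q := by
    intro j
    induction j with
    | zero =>
      intro _
      have : (fun p => B (1 - ((0 : ℕ) : ℝ) / (N + 1), p)) = 1 := by
        funext p
        rw [Nat.cast_zero, zero_div, sub_zero, h5]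
      rw [this]
      exact Subgroup.one_mem _
    | succ j ih =>
      intro hj
      set a : ℝ := 1 - ((j + 1 : ℕ) : ℝ) / (N + 1) with ha
      set b : ℝ := 1 - (j : ℝ) / (N + 1) with hb
      have hj1 : ((j + 1 : ℕ) : ℝ) ≤ N + 1 := by exact_mod_cast hj
      have hj2 : ((j + 1 : ℕ) : ℝ) = j + 1 := by push_cast; ring
      have hj0 : (0 : ℝ) ≤ j := Nat.cast_nonneg j
      have q1 : ((j + 1 : ℕ) : ℝ) / (N + 1) ≤ 1 := (div_le_one hN0).2 hj1
      have q2 : (j : ℝ) / (N + 1) ≤ 1 := (div_le_one hN0).2 (by linarith)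
      have q3 : (0 : ℝ) ≤ (j : ℝ) / (N + 1) := by positivity
      have q4 : (0 : ℝ) ≤ ((j + 1 : ℕ) : ℝ) / (N + 1) := by positivity
      have haI : a ∈ Icc (0 : ℝ) 1 := ⟨by rw [ha]; linarith, by rw [ha]; linarith⟩
      have hbI : b ∈ Icc (0 : ℝ) 1 := ⟨by rw [hb]; linarith, by rw [hb]; linarith⟩
      have hab : |a - b| < δ := by
        have : a - b = -(1 / ((N : ℝ) + 1)) := by
          rw [ha, hb, hj2]
          field_simp
          ring
        rw [this, abs_neg, abs_of_pos (by positivity)]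
        exact hN
      have hψ : Diffs ((fun p => B (a, p)) * (fun p => B (b, p))⁻¹) := (hB a).mul (hB b).inv
      obtain ⟨f, hf, hf'⟩ := exists_factor h hψ fun p => hcell _ fun x => hsm a haI b hbI hab p x
      have h6 : (fun p => B (a, p)) * (fun p => B (b, p))⁻¹ ∈ gen P r q := by
        rw [← hf']
        exact prodFam_mem hf le_rfl
      have h7 := Subgroup.mul_mem _ h6 (ih (by omega))
      rw [inv_mul_cancel_right] at h7
      exact h7
  have h6 := key (N + 1) le_rfl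
  have h7 : (fun p => B (1 - ((N + 1 : ℕ) : ℝ) / (N + 1), p)) = φ := by
    funext p
    have : ((N + 1 : ℕ) : ℝ) / (N + 1) = 1 := by
      rw [Nat.cast_add, Nat.cast_one]
      exact div_self hN0.ne'
    rw [this, sub_self, h4]
  rwa [h7] at h6

theorem htp_of_gen (hd : ∀ k < r, Module.finrank ℝ (block q k) ≤ 2) {φ : P → Equiv.Perm E}
    (hφ : φ ∈ gen P r q) : Htp φ 1 := by
  induction hφ using Subgroup.closure_induction with
  | mem f hf =>
    obtain ⟨hf1, k, hk, hf2⟩ := hf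
    exact (through_of_nhtp (par_trivial (hd k hk) hf1.dfam hf2)).mono fun _ _ => trivial
  | one => exact Htp.one
  | mul f g _ _ hf hg =>
    have := hf.mul hg
    rwa [mul_one] at this
  | inv f _ hf =>
    have := hf.inv
    rwa [inv_one] at this

end Pool.Agent.H822.LD
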