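import Mathlib
import Pool.Agent.H822.SM.LUBridge

/-!
# Homotopies in the cell and homotopies of the factors
-/

set_option autoImplicit false

open scoped ContDiff
open Set Filter Topology Function

namespace Pool.Agent.H822.SM

variable {E : Type} [NormedAddCommGroup E] [NormedSpace ℝ E] [FiniteDimensional ℝ E]
  {P : Type} [NormedAddCommGroup P] [NormedSpace ℝ P] [FiniteDimensional ℝ P]
  {r : ℕ} {q : ℕ → E →L[ℝ] E}

/-- a compactly supported homotopy -/
structure HFam (K : Set (P × E)) (Φ : ℝ × P → E → E) : Prop where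
  smooth : ContDiff ℝ ∞ (fun y : (ℝ × P) × E => Φ y.1 y.2)
  inj : ∀ y z v, fderiv ℝ (Φ y) z v = 0 → v = 0
  off : ∀ s p z, (p, z) ∉ K → Φ (s, p) z = z

omit [FiniteDimensional ℝ E] [FiniteDimensional ℝ P] in
theorem HFam.slice {K : Set (P × E)} {Φ : ℝ × P → E → E} (h : HFam K Φ) (y : ℝ × P) :
    ContDiff ℝ ∞ (Φ y) := h.smooth.comp (contDiff_const.prodMk contDiff_id)

omit [FiniteDimensional ℝ E] [FiniteDimensional ℝ P] in
theorem HFam.comp {K : Set (P × E)} {Φ Ψ : ℝ × P → E → E} (h : HFam K Φ) (h' : HFam K Ψ) :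
    HFam K fun y z => Φ y (Ψ y z) := by
  refine ⟨h.smooth.comp (contDiff_fst.prodMk h'.smooth), fun y z v hv =>
    inj_comp (h.slice y) (h'.slice y) (h.inj y) (h'.inj y) z v hv, fun s p z hz => ?_⟩
  show Φ (s, p) (Ψ (s, p) z) = z
  rw [h'.off s p z hz, h.off s p z hz]

theorem HFam.exists_inv {K : Set (P × E)} (hK : IsCompact K) {Φ : ℝ × P → E → E}
    (h : HFam K Φ) : ∃ Ψ : ℝ × P → E → E, HFam K Ψ ∧ (∀ y z, Ψ y (Φ y z) = z) ∧
      ∀ y z, Φ y (Ψ y z) = z := by
  obtain ⟨Ψ, e1, e2, e3, e4, e5⟩ := htp_inv hK h.smooth h.inj h.off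
  exact ⟨Ψ, ⟨e1, e2, e3⟩, e4, e5⟩

omit [FiniteDimensional ℝ E] [FiniteDimensional ℝ P] in
theorem lead_hfam (h : Dec r q) {K : Set (P × E)} {B : ℝ × P → E → E} (hB : HFam K B)
    (hc : ∀ y, CellM r q (B y)) {k : ℕ} (hk : k ≤ r) :
    HFam K fun y x => x + pr q k (B y x - x) := by
  refine ⟨contDiff_snd.add ((pr q k).contDiff.comp (hB.smooth.sub contDiff_snd)),
    fun p x v hv => ?_, fun s p x hx => ?_⟩
  · have h1 : HasFDerivAt (fun x => x + pr q k (B p x - x)) (ContinuousLinearMap.id ℝ E +
        (pr q k).comp (fderiv ℝ (B p) x - ContinuousLinearMap.id ℝ E)) x :=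
      (hasFDerivAt_id x).add ((pr q k).hasFDerivAt.comp x
        (((hB.slice p).differentiable (by simp) x).hasFDerivAt.sub (hasFDerivAt_id x)))
    rw [h1.fderiv] at hv
    have h2 : v + pr q k (fderiv ℝ (B p) x v - v) = 0 := hv
    refine hc p k hk x v (fun i hki hir => ?_) fun i hik => ?_
    · have h3 := congrArg (q i) h2
      rw [map_add, h.q_pr hir hk, if_neg (not_lt.2 hki), add_zero, map_zero] at h3
      exact h3
    · have h3 := congrArg (q i) h2
      rw [map_add, h.q_pr (hik.trans_le hk) hk, if_pos hik, map_zero, map_sub] at h3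
      rwa [add_sub_cancel] at h3
  · show x + pr q k (B (s, p) x - x) = x
    rw [hB.off s p x hx, sub_self, map_zero, add_zero]

/-- factorization of homotopies -/
theorem factor_htp (h : Dec r q) {K : Set (P × E)} (hK : IsCompact K) {B : ℝ × P → E → E}
    (hB : HFam K B) (hc : ∀ y, CellM r q (B y)) :
    ∃ f : ℕ → ℝ × P → E → E, (∀ k, HFam K (f k)) ∧ (∀ k y, ParM (blk q k) (f k y)) ∧
      ∀ y, cmpM (fun k => f k y) r = B y := by
  have h1 : ∀ k, ∃ f : ℝ × P → E → E, HFam K f ∧ (∀ y, ParM (blk q k) (f y)) ∧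
      (k < r → ∀ y x, f y (x + pr q k (B y x - x)) = x + pr q (k + 1) (B y x - x)) := by
    intro k
    by_cases hk : k < r
    · obtain ⟨ψ, hψ, e1, e2⟩ := (lead_hfam h hB hc hk.le).exists_inv hK
      have hg := lead_hfam h hB hc (k := k + 1) hk
      have key : ∀ p x, (fun p z => (fun p x => x + pr q (k + 1) (B p x - x)) p (ψ p z)) p
          (x + pr q k (B p x - x)) = x + pr q (k + 1) (B p x - x) := by
        intro p x
        show ψ p (x + pr q k (B p x - x)) + pr q (k + 1) (B p (ψ p (x + pr q k (B p x - x))) -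
          ψ p (x + pr q k (B p x - x))) = _
        rw [e1]
      refine ⟨fun p z => (fun p x => x + pr q (k + 1) (B p x - x)) p (ψ p z), hg.comp hψ,
        fun p y => ?_, fun _ => key⟩
      have e3 : y = ψ p y + pr q k (B p (ψ p y) - ψ p y) := (e2 p y).symm
      rw [e3, key, pr_succ']
      have e4 : ψ p y + (pr q k (B p (ψ p y) - ψ p y) + q k (B p (ψ p y) - ψ p y)) -
          (ψ p y + pr q k (B p (ψ p y) - ψ p y)) = q k (B p (ψ p y) - ψ p y) := by abel
      rw [e4]
      exact ⟨_, rfl⟩
    · refine ⟨fun _ z => z, ⟨contDiff_snd, fun y z v hv => ?_, fun _ _ _ _ => rfl⟩,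
        fun p x => ?_, fun h2 => absurd h2 hk⟩
      · rw [fderiv_fun_id] at hv
        exact hv
      · show x - x ∈ _
        rw [sub_self]
        exact Submodule.zero_mem _
  choose f hf1 hf2 hf4 using h1
  refine ⟨f, hf1, hf2, fun p => ?_⟩
  have h2 : ∀ k ≤ r, ∀ x, cmpM (fun k => f k p) k x = x + pr q k (B p x - x) := by
    intro k
    induction k with
    | zero =>
      intro _ x
      rw [pr_zero', add_zero]
      rfl
    | succ k ih =>
      intro hk x
      show f k p (cmpM (fun k => f k p) k x) = _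
      rw [ih (by omega), hf4 k (by omega)]
  funext x
  rw [h2 r le_rfl, h.pr_all]
  abel

end Pool.Agent.H822.SM

namespace Pool.Agent.H822.LD

open Pool.Agent.H822.SM

variable {E : Type} [NormedAddCommGroup E] [NormedSpace ℝ E] [FiniteDimensional ℝ E]
  {P : Type} [NormedAddCommGroup P] [NormedSpace ℝ P] [FiniteDimensional ℝ P]
  {r : ℕ} {q : ℕ → E →L[ℝ] E}

omit [FiniteDimensional ℝ E] in
/-- compositions of parallel diffeomorphisms lie in the cell -/
theorem prod_cell {X : Type} (h : Decomposition r q) {f : ℕ → X → Equiv.Perm E} (y : X)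
    (hf : ∀ k < r, ContDiff ℝ ∞ (f k y)) (hi : ∀ k < r, ContDiff ℝ ∞ (f k y).symm)
    (hp : ∀ k < r, Parallel (block q k) (f k y)) :
    InCell r q (prodFam f r y) := by
  let f' : ℕ → E → E := fun k x => if k < r then f k y x else x
  have h0 : ∀ k, ContDiff ℝ ∞ (f' k) ∧ ∀ z v, fderiv ℝ (f' k) z v = 0 → v = 0 := by
    intro k
    by_cases hk : k < r
    · have : f' k = fun x => f k y x := by
        funext x
        exact if_pos hk
      rw [this]
      exact ⟨hf k hk, fun z v hv => inj_of_right (hi k hk) (hf k hk)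
        (fun z => (f k y).symm_apply_apply z) z v hv⟩
    · have : f' k = fun x => x := by
        funext x
        exact if_neg hk
      rw [this]
      refine ⟨contDiff_id, fun z v hv => ?_⟩
      rw [fderiv_fun_id] at hv
      exact hv
  have h1 : ∀ k < r, ParM (blk q k) (f' k) := by
    intro k hk x
    have : f' k x = f k y x := if_pos hk
    rw [this]
    exact hp k hk x
  have h2 : ∀ k ≤ r, cmpM f' k = prodFam f k y := by
    intro k
    induction k with
    | zero => exact fun _ => rfl
    | succ k ih =>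
      intro hk
      funext x
      show f' k (cmpM f' k x) = f k y (prodFam f k y x)
      rw [ih (by omega)]
      exact if_pos (by omega)
  rw [← h2 r le_rfl]
  exact cmp_cell h.dec (fun k => (h0 k).1) (fun k => (h0 k).2) h1

theorem htp_factors (h : Decomposition r q) {f f' : ℕ → P → Equiv.Perm E}
    (hf : ∀ k < r, Diffs (f k) ∧ ∀ p, Parallel (block q k) (f k p))
    (hf' : ∀ k < r, Diffs (f' k) ∧ ∀ p, Parallel (block q k) (f' k p)) :
    HtpThrough (InCell r q) (prodFam f r) (prodFam f' r) ↔
      ∀ k < r, HtpThrough (Parallel (block q k)) (f k) (f' k) := by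
  constructor
  · rintro ⟨B, K, hK, h1, h2, h3, h4, h5, h6⟩ k hk
    have hB : HFam K (fun y x => B y x) := ⟨h1, fun y z v hv => inj_of_right (f := (B y).symm)
      (g := B y) (h2.comp (contDiff_const.prodMk contDiff_id))
      (h1.comp (contDiff_const.prodMk contDiff_id)) (fun z => (B y).symm_apply_apply z) z v hv, h3⟩
    obtain ⟨g, g1, g2, g3⟩ := factor_htp h.dec hK hB h6
    choose g' e1 e2 e3 using fun k => (g1 k).exists_inv hK
    let G : ℕ → ℝ × P → Equiv.Perm E := fun k y => ⟨g k y, g' k y, e2 k y, e3 k y⟩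
    have hG : ∀ y, prodFam G r y = B y := by
      intro y
      ext1 x
      rw [prodFam_apply]
      exact congrFun (g3 y) x
    have key : ∀ (s : ℝ) (F : ℕ → P → Equiv.Perm E),
        (∀ k < r, Diffs (F k) ∧ ∀ p, Parallel (block q k) (F k p)) →
        (∀ p, B (s, p) = prodFam F r p) → ∀ p, G k (s, p) = F k p := by
      intro s F hF hBF p
      have e4 : (fun (k : ℕ) (p : P) => G k (s, p)) k = F k := by
        refine factor_uniq (f := fun (k : ℕ) (p : P) => G k (s, p)) (f' := F) h
          (fun i hi p => g2 i (s, p)) (fun i hi => (hF i hi).2) ?_ hk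
        funext p
        rw [← hBF, ← hG]
        have : ∀ m, prodFam (fun (k : ℕ) (p : P) => G k (s, p)) m p = prodFam G m (s, p) := by
          intro m
          induction m with
          | zero => rfl
          | succ m ih =>
            show G m (s, p) * prodFam (fun (k : ℕ) (p : P) => G k (s, p)) m p =
              G m (s, p) * prodFam G m (s, p)
            rw [ih]
        exact this r
      exact congrFun e4 p
    exact ⟨G k, K, hK, (g1 k).smooth, (e1 k).smooth, (g1 k).off, key 0 f hf h4, key 1 f' hf' h5,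
      g2 k⟩
  · intro hH
    have h0 : ∀ k, ∃ (B : ℝ × P → Equiv.Perm E) (K : Set (P × E)), IsCompact K ∧
        ContDiff ℝ ∞ (fun y : (ℝ × P) × E => B y.1 y.2) ∧
        ContDiff ℝ ∞ (fun y : (ℝ × P) × E => (B y.1).symm y.2) ∧
        (∀ s p x, (p, x) ∉ K → B (s, p) x = x) ∧ (k < r → (∀ p, B (0, p) = f k p) ∧
        (∀ p, B (1, p) = f' k p) ∧ ∀ y, Parallel (block q k) (B y)) := by
      intro k
      by_cases hk : k < r
      · obtain ⟨B, K, hK, h1, h2, h3, h4, h5, h6⟩ := hH k hk
        exact ⟨B, K, hK, h1, h2, h3, fun _ => ⟨h4, h5, h6⟩⟩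
      · exact ⟨1, ∅, isCompact_empty, contDiff_snd, contDiff_snd, fun _ _ _ _ => rfl,
          fun h => absurd h hk⟩
    choose B K hK h1 h2 h3 h4 using h0
    have hsm : ∀ m, ContDiff ℝ ∞ (fun y : (ℝ × P) × E => prodFam B m y.1 y.2) ∧
        ContDiff ℝ ∞ (fun y : (ℝ × P) × E => (prodFam B m y.1).symm y.2) := by
      intro m
      induction m with
      | zero => exact ⟨contDiff_snd, contDiff_snd⟩
      | succ m ih =>
        exact ⟨(h1 m).comp (contDiff_fst.prodMk ih.1), ih.2.comp (contDiff_fst.prodMk (h2 m))⟩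
    refine ⟨prodFam B r, ⋃ k ∈ Finset.range r, K k,
      (Finset.range r).isCompact_biUnion fun k _ => hK k, (hsm r).1, (hsm r).2,
      fun s p x hx => ?_, fun p => ?_, fun p => ?_, fun y => ?_⟩
    · have e1 : ∀ k ≤ r, prodFam B k (s, p) x = x := by
        intro k
        induction k with
        | zero => exact fun _ => rfl
        | succ k ih =>
          intro hk
          show B k (s, p) (prodFam B k (s, p) x) = x
          rw [ih (by omega), h3 k s p x fun h3 => hx ?_]
          exact mem_biUnion (Finset.mem_range.2 (by omega)) h3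
      exact e1 r le_rfl
    · have e1 : ∀ k ≤ r, prodFam B k (0, p) = prodFam f k p := by
        intro k
        induction k with
        | zero => exact fun _ => rfl
        | succ k ih =>
          intro hk
          show B k (0, p) * prodFam B k (0, p) = f k p * prodFam f k p
          rw [ih (by omega), (h4 k (by omega)).1]
      exact e1 r le_rfl
    · have e1 : ∀ k ≤ r, prodFam B k (1, p) = prodFam f' k p := by
        intro k
        induction k with
        | zero => exact fun _ => rfl
        | succ k ih =>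
          intro hk
          show B k (1, p) * prodFam B k (1, p) = f' k p * prodFam f' k p
          rw [ih (by omega), (h4 k (by omega)).2.1]
      exact e1 r le_rfl
    · exact prod_cell h y (fun k _ => (h1 k).comp (contDiff_const.prodMk contDiff_id))
        (fun k _ => (h2 k).comp (contDiff_const.prodMk contDiff_id)) fun k hk => (h4 k hk).2.2 y

theorem small_block {V : Submodule ℝ E} (hV : Module.finrank ℝ V ≤ 2) {f : P → Equiv.Perm E}
    (hf : Diffs f) (hp : ∀ p, Parallel V (f p)) : HtpThrough (Parallel V) f 1 :=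
  through_of_nhtp (par_trivial hV hf.dfam hp)

/-- diffeomorphisms in a translate of the cell -/
theorem htp_of_cell (h : Decomposition r q) (hd : ∀ k < r, Module.finrank ℝ (block q k) ≤ 2)
    {φ ψ : P → Equiv.Perm E} (hφ : Diffs φ) (hψ : Diffs ψ)
    (hc : ∀ p, InCell r q ((ψ p)⁻¹ * φ p : Equiv.Perm E)) : Htp φ ψ := by
  have h1 : Htp (ψ⁻¹ * φ) 1 := (cell_through h hd (hψ.inv.mul hφ) hc).mono fun _ _ => trivial
  have h2 := (Htp.refl hψ).mul h1
  rwa [mul_inv_cancel_left, mul_one] at h2

end Pool.Agent.H822.LD
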