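import Mathlib

/-!
# Diffeomorphisms of `ℝ^{k+2}` and submersions to `ℝ^k`: definitions

We write `ℝ^{k+2}` as `ℝ^k × ℂ`; the standard projection `π : ℝ^{k+2} → ℝ^k` is `z ↦ z.1`.  The
space `P` of parameters is any finite dimensional space, for instance a point; if it has
dimension `j` then homotopy classes of compactly supported maps from `P` to a space correspond to
elements of its `j`-th homotopy group.
-/

set_option autoImplicit false

open scoped ContDiff
open Set Filter Topology Function

namespace Pool.Agent.H822.SD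

/-- `ℝ^{k+2}`, written as `ℝ^k × ℂ` -/
abbrev M (k : ℕ) : Type := (Fin k → ℝ) × ℂ

variable {k : ℕ} {P : Type} [NormedAddCommGroup P] [NormedSpace ℝ P]

/-- A smooth map `φ` with compact support from `P` to the group `Diff_c(ℝ^{k+2})` of the
compactly supported diffeomorphisms of `ℝ^{k+2}`. -/
structure Diffs (φ : P → M k ≃ M k) : Prop where
  smooth : ContDiff ℝ ∞ (fun q : P × M k => φ q.1 q.2)
  smooth_inv : ContDiff ℝ ∞ (fun q : P × M k => (φ q.1).symm q.2)
  supp : ∃ K : Set (P × M k), IsCompact K ∧ ∀ p z, (p, z) ∉ K → φ p z = z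

/-- Two such maps are smoothly homotopic, with compact support: if `P` is a point then this says
that two compactly supported diffeomorphisms are smoothly isotopic, with compact support. -/
def DiffHtp (φ φ' : P → M k ≃ M k) : Prop :=
  ∃ (B : ℝ × P → M k ≃ M k) (K : Set (P × M k)), IsCompact K ∧
    ContDiff ℝ ∞ (fun q : (ℝ × P) × M k => B q.1 q.2) ∧
    ContDiff ℝ ∞ (fun q : (ℝ × P) × M k => (B q.1).symm q.2) ∧
    (∀ s p z, (p, z) ∉ K → B (s, p) z = z) ∧ (∀ p, B (0, p) = φ p) ∧ ∀ p, B (1, p) = φ' p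

/-- A smooth map `F` with compact support from `P` to the space of the submersions
`ℝ^{k+2} → ℝ^k` which are equal to `π` off a compact set. -/
structure Subs (F : P → M k → (Fin k → ℝ)) : Prop where
  smooth : ContDiff ℝ ∞ (fun q : P × M k => F q.1 q.2)
  submersion : ∀ p z, Surjective (fderiv ℝ (F p) z)
  supp : ∃ K : Set (P × M k), IsCompact K ∧ ∀ p z, (p, z) ∉ K → F p z = z.1

/-- Two such maps are smoothly homotopic, with compact support. -/
def SubHtp (F F' : P → M k → (Fin k → ℝ)) : Prop :=
  ∃ (G : ℝ × P → M k → (Fin k → ℝ)) (K : Set (P × M k)), IsCompact K ∧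
    ContDiff ℝ ∞ (fun q : (ℝ × P) × M k => G q.1 q.2) ∧
    (∀ q z, Surjective (fderiv ℝ (G q) z)) ∧
    (∀ s p z, (p, z) ∉ K → G (s, p) z = z.1) ∧ (∀ p, G (0, p) = F p) ∧ ∀ p, G (1, p) = F' p

/-- the map `φ ↦ π ∘ φ⁻¹` from diffeomorphisms to submersions -/
def proj (φ : P → M k ≃ M k) : P → M k → (Fin k → ℝ) := fun p z => ((φ p).symm z).1

end Pool.Agent.H822.SD
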