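import Mathlib
import Pool.Agent.H822.SM.Main
import Pool.Agent.H822.SM.SubDefs

/-!
# The two forms of the definitions agree
-/

set_option autoImplicit false

open scoped ContDiff
open Set Filter Topology Function

namespace Pool.Agent.H822.SD

open Pool.Agent.H822.SM

variable {k : ℕ} {P : Type} [NormedAddCommGroup P] [NormedSpace ℝ P] [FiniteDimensional ℝ P]

omit [FiniteDimensional ℝ P] in
theorem Diffs.dfam {φ : P → M k ≃ M k} (h : Diffs φ) : DFam fun p z => φ p z :=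
  ⟨h.smooth, fun p z v hv => inj_of_right (f := (φ p).symm) (g := φ p)
    (h.smooth_inv.comp (contDiff_const.prodMk contDiff_id))
    (h.smooth.comp (contDiff_const.prodMk contDiff_id)) (fun z => (φ p).symm_apply_apply z) z v hv,
    h.supp⟩

omit [FiniteDimensional ℝ P] in
theorem Diffs.symm {φ : P → M k ≃ M k} (h : Diffs φ) : Diffs fun p => (φ p).symm := by
  obtain ⟨K, hK, hoff⟩ := h.supp
  refine ⟨h.smooth_inv, h.smooth, K, hK, fun p z hz => ?_⟩
  rw [Equiv.symm_apply_eq, hoff p z hz]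

theorem exists_diffs {φ : P → M k → M k} (h : DFam φ) :
    ∃ φ' : P → M k ≃ M k, Diffs φ' ∧ ∀ p z, φ' p z = φ p z := by
  obtain ⟨ψ, hψ, h1, h2⟩ := h.exists_inv
  exact ⟨fun p => ⟨φ p, ψ p, h1 p, h2 p⟩, ⟨h.smooth, hψ.smooth, h.supp⟩, fun _ _ => rfl⟩

theorem diffhtp_iff (φ φ' : P → M k ≃ M k) :
    DiffHtp φ φ' ↔ DHtp (fun p z => φ p z) (fun p z => φ' p z) := by
  constructor
  · rintro ⟨B, K, hK, h1, h2, h3, h4, h5⟩
    refine ⟨fun q z => B q z, K, hK, h1, fun q z v hv => inj_of_right (f := (B q).symm) (g := B q)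
      (h2.comp (contDiff_const.prodMk contDiff_id)) (h1.comp (contDiff_const.prodMk contDiff_id))
      (fun z => (B q).symm_apply_apply z) z v hv, h3, fun p => ?_, fun p => ?_⟩
    · exact congrArg (fun (f : M k ≃ M k) (z : M k) => f z) (h4 p)
    · exact congrArg (fun (f : M k ≃ M k) (z : M k) => f z) (h5 p)
  · rintro ⟨B, K, hK, h1, h2, h3, h4, h5⟩
    obtain ⟨C, e1, e2, e3, e4, e5⟩ := htp_inv hK h1 h2 h3
    refine ⟨fun q => ⟨B q, C q, e4 q, e5 q⟩, K, hK, h1, e1, h3, fun p => ?_, fun p => ?_⟩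
    · ext1 z
      exact congrFun (h4 p) z
    · ext1 z
      exact congrFun (h5 p) z

omit [FiniteDimensional ℝ P] in
theorem subs_iff (F : P → M k → (Fin k → ℝ)) : Subs F ↔ SubFam F :=
  ⟨fun h => ⟨h.smooth, h.submersion, h.supp⟩, fun h => ⟨h.smooth, h.surj, h.supp⟩⟩

omit [FiniteDimensional ℝ P] in
theorem subhtp_iff (F F' : P → M k → (Fin k → ℝ)) : SubHtp F F' ↔ SHtp F F' := Iff.rfl

end Pool.Agent.H822.SD
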